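import Pool.Agent.Helper962.Heis.Basic

set_option autoImplicit false

noncomputable section

namespace Pool.Agent.Helper962.Heis

namespace Bs

/-- small width -/
def om : ℝ := 1 / 2000000
/-- triangle wave of period one, from `1` at integers to `-1` at half integers -/
def tri (θ : ℝ) : ℝ := 1 - 4 * |θ - round θ|
/-- clipping to `[-1, 1]` -/
def cl (v : ℝ) : ℝ := max (-1) (min 1 v)
/-- threshold: `0` for `|ξ| ≤ 1/2`, at most `2` -/
def al (ξ : ℝ) : ℝ := min 2 (4 * max 0 (|ξ| - 1 / 2))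
/-- nearest even integer -/
def jE (x : ℝ) : ℝ := 2 * ((round (x / 2) : ℤ) : ℝ)
/-- nearest odd integer -/
def jO (x : ℝ) : ℝ := 2 * ((round ((x - 1) / 2) : ℤ) : ℝ) + 1
def uE (p : P) : ℝ := cl ((tri (p.2.2 - jE p.1 * p.2.1) - al (p.1 - jE p.1)) / om)
def uO (p : P) : ℝ := cl ((tri (2 * (p.2.2 - jO p.1 * p.2.1)) - al (p.1 - jO p.1)) / om)
def uu (p : P) : ℝ := max (uE p) (uO p)
def XX (p : P) : ℝ := 2 - uE p ^ 2 - uO p ^ 2
/-- mean over a vertical period -/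
def mean (f : P → ℝ) (x y : ℝ) : ℝ := ∫ s in (0 : ℝ)..1, f (x, y, s)
def gg (f : P → ℝ) (p : P) : ℝ := f p - mean f p.1 p.2.1
/-- vertical primitive of `gg f` -/
def prim (f : P → ℝ) (p : P) : ℝ := ∫ s in (0 : ℝ)..1, (s - 1 / 2) * gg f (p.1, p.2.1, p.2.2 + s)

end Bs

end Pool.Agent.Helper962.Heis
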