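import Pool.Agent.Helper962.Heis.BDefs

set_option autoImplicit false

noncomputable section

namespace Pool.Agent.Helper962.Heis

namespace Bs

theorem gen_mean_bd (f : P → ℝ) (B : ℝ) (hb : ∀ p, |f p| ≤ B) (x y : ℝ) : |mean f x y| ≤ B := by
  have h := intervalIntegral.norm_integral_le_of_norm_le_const (a := (0 : ℝ)) (b := 1)
    (f := fun s => f (x, y, s)) (C := B) (fun s _ => hb _)
  simpa [mean] using h

theorem gen_cont (f : P → ℝ) (L : ℝ) (hL : 0 ≤ L)
    (hl : ∀ p q, |f q - f p| ≤ L * (ds p q + |dc p q|)) (x y t : ℝ) :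
    Continuous (fun s : ℝ => f (x, y, t + s)) := by
  have h : LipschitzWith (Real.toNNReal L) (fun s : ℝ => f (x, y, t + s)) := by
    apply LipschitzWith.of_dist_le_mul
    intro a b
    rw [Real.dist_eq, Real.dist_eq, Real.coe_toNNReal L hL]
    have h1 := hl (x, y, t + b) (x, y, t + a)
    have h2 : ds (x, y, t + b) (x, y, t + a) = 0 := by simp [ds]
    have h3 : dc (x, y, t + b) (x, y, t + a) = a - b := by simp only [dc]; ring
    rw [h2, h3, zero_add] at h1
    exact h1
  exact h.continuous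

theorem gen_cont0 (f : P → ℝ) (L : ℝ) (hL : 0 ≤ L)
    (hl : ∀ p q, |f q - f p| ≤ L * (ds p q + |dc p q|)) (x y : ℝ) :
    Continuous (fun s : ℝ => f (x, y, s)) := by
  have := gen_cont f L hL hl x y 0
  simpa using this

theorem gen_mean_lip (f : P → ℝ) (L : ℝ) (hL : 0 ≤ L)
    (hp : ∀ x y t : ℝ, f (x, y, t + 1) = f (x, y, t))
    (hl : ∀ p q, |f q - f p| ≤ L * (ds p q + |dc p q|)) (p q : P) :
    |mean f q.1 q.2.1 - mean f p.1 p.2.1| ≤ L * ds p q := by
  obtain ⟨x, y, t⟩ := p
  obtain ⟨x', y', t'⟩ := q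
  have h1 : mean f x' y' = ∫ s in (0 : ℝ)..1, f (x', y', x * (y' - y) + s) := by
    have hper : Function.Periodic (fun s : ℝ => f (x', y', s)) 1 := fun s => hp x' y' s
    have h2 := hper.intervalIntegral_add_eq 0 (x * (y' - y))
    rw [zero_add] at h2
    unfold mean
    rw [h2, intervalIntegral.integral_comp_add_left (fun s => f (x', y', s)) (x * (y' - y)), add_zero]
  have hc1 := gen_cont f L hL hl x' y' (x * (y' - y))
  have hc2 := gen_cont0 f L hL hl x y
  have h3 : mean f x' y' - mean f x y =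
      ∫ s in (0 : ℝ)..1, (f (x', y', x * (y' - y) + s) - f (x, y, s)) := by
    rw [h1, intervalIntegral.integral_sub (hc1.intervalIntegrable _ _) (hc2.intervalIntegrable _ _)]
    rfl
  show |mean f x' y' - mean f x y| ≤ L * ds (x, y, t) (x', y', t')
  rw [h3]
  have h4 := intervalIntegral.norm_integral_le_of_norm_le_const (a := (0 : ℝ)) (b := 1)
    (f := fun s => f (x', y', x * (y' - y) + s) - f (x, y, s)) (C := L * ds (x, y, t) (x', y', t'))
    (fun s _ => by
      have h5 := hl (x, y, s) (x', y', x * (y' - y) + s)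
      have h6 : dc (x, y, s) (x', y', x * (y' - y) + s) = 0 := by simp only [dc]; ring
      have h7 : ds (x, y, s) (x', y', x * (y' - y) + s) = ds (x, y, t) (x', y', t') := rfl
      rw [h6, h7, abs_zero, add_zero] at h5
      exact h5)
  simpa using h4

theorem gg_bd (f : P → ℝ) (B : ℝ) (hb : ∀ p, |f p| ≤ B) (p : P) : |gg f p| ≤ 2 * B := by
  have h1 := gen_mean_bd f B hb p.1 p.2.1
  have h2 := hb p
  unfold gg
  calc |f p - mean f p.1 p.2.1| ≤ |f p| + |mean f p.1 p.2.1| := abs_sub _ _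
    _ ≤ 2 * B := by linarith
theorem gg_lip (f : P → ℝ) (L : ℝ) (hL : 0 ≤ L)
    (hp : ∀ x y t : ℝ, f (x, y, t + 1) = f (x, y, t))
    (hl : ∀ p q, |f q - f p| ≤ L * (ds p q + |dc p q|)) (p q : P) :
    |gg f q - gg f p| ≤ 2 * L * (ds p q + |dc p q|) := by
  have h1 := gen_mean_lip f L hL hp hl p q
  have h2 := hl p q
  have h3 : 0 ≤ L * |dc p q| := mul_nonneg hL (abs_nonneg _)
  have h4 : gg f q - gg f p = (f q - f p) - (mean f q.1 q.2.1 - mean f p.1 p.2.1) := by
    unfold gg
    ring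
  rw [h4]
  calc |(f q - f p) - (mean f q.1 q.2.1 - mean f p.1 p.2.1)|
      ≤ |f q - f p| + |mean f q.1 q.2.1 - mean f p.1 p.2.1| := abs_sub _ _
    _ ≤ 2 * L * (ds p q + |dc p q|) := by nlinarith
theorem gen_half (s : ℝ) (hs : s ∈ Set.uIoc (0 : ℝ) 1) : |s - 1 / 2| ≤ 1 / 2 := by
  rw [Set.uIoc_of_le zero_le_one] at hs
  rw [abs_le]
  constructor <;> linarith [hs.1, hs.2]
theorem prim_lip (f : P → ℝ) (L : ℝ) (hL : 0 ≤ L)
    (hp : ∀ x y t : ℝ, f (x, y, t + 1) = f (x, y, t))
    (hl : ∀ p q, |f q - f p| ≤ L * (ds p q + |dc p q|)) (p q : P) :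
    |prim f q - prim f p| ≤ 2 * L * (ds p q + |dc p q|) := by
  obtain ⟨x, y, t⟩ := p
  obtain ⟨x', y', t'⟩ := q
  have hl' := gg_lip f L hL hp hl
  have h2L : 0 ≤ 2 * L := by linarith
  have hc1 := gen_cont (gg f) (2 * L) h2L hl' x' y' t'
  have hc2 := gen_cont (gg f) (2 * L) h2L hl' x y t
  have h3 : prim f (x', y', t') - prim f (x, y, t) =
      ∫ s in (0 : ℝ)..1, ((s - 1 / 2) * gg f (x', y', t' + s) - (s - 1 / 2) * gg f (x, y, t + s)) := by
    rw [intervalIntegral.integral_sub]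
    · rfl
    · exact Continuous.intervalIntegrable (by fun_prop) _ _
    · exact Continuous.intervalIntegrable (by fun_prop) _ _
  rw [h3]
  have hds : 0 ≤ ds (x, y, t) (x', y', t') := ds_nonneg _ _
  have h4 := intervalIntegral.norm_integral_le_of_norm_le_const (a := (0 : ℝ)) (b := 1)
    (f := fun s => (s - 1 / 2) * gg f (x', y', t' + s) - (s - 1 / 2) * gg f (x, y, t + s))
    (C := 2 * L * (ds (x, y, t) (x', y', t') + |dc (x, y, t) (x', y', t')|))
    (fun s hs => by
      have h5 := hl' (x, y, t + s) (x', y', t' + s)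
      have h6 : dc (x, y, t + s) (x', y', t' + s) = dc (x, y, t) (x', y', t') := by
        simp only [dc]; ring
      have h7 : ds (x, y, t + s) (x', y', t' + s) = ds (x, y, t) (x', y', t') := rfl
      rw [h6, h7] at h5
      have h8 := gen_half s hs
      rw [← mul_sub, Real.norm_eq_abs, abs_mul]
      have h9 := abs_nonneg (gg f (x', y', t' + s) - gg f (x, y, t + s))
      nlinarith)
  simpa using h4
theorem prim_bd (f : P → ℝ) (B : ℝ) (hb : ∀ p, |f p| ≤ B) (p : P) :
    |prim f p| ≤ 2 * B := by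
  have h4 := intervalIntegral.norm_integral_le_of_norm_le_const (a := (0 : ℝ)) (b := 1)
    (f := fun s => (s - 1 / 2) * gg f (p.1, p.2.1, p.2.2 + s))
    (C := 2 * B)
    (fun s hs => by
      have h5 := gg_bd f B hb (p.1, p.2.1, p.2.2 + s)
      have h8 := gen_half s hs
      rw [Real.norm_eq_abs, abs_mul]
      have h9 := abs_nonneg (gg f (p.1, p.2.1, p.2.2 + s))
      nlinarith)
  simpa [prim] using h4

end Bs

end Pool.Agent.Helper962.Heis
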