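import Pool.Agent.Helper962.Heis.BUper

set_option autoImplicit false

noncomputable section

namespace Pool.Agent.Helper962.Heis

namespace Bs

theorem uint_cl_cont : Continuous cl := by
  have : LipschitzWith 1 cl := LipschitzWith.of_dist_le_mul fun a b => by
    rw [Real.dist_eq, Real.dist_eq, NNReal.coe_one, one_mul]
    exact cl_lip a b
  exact this.continuous

theorem uint_tri_cont : Continuous tri := by
  have : LipschitzWith 4 tri := LipschitzWith.of_dist_le_mul fun a b => by
    rw [Real.dist_eq, Real.dist_eq]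
    exact tri_lip a b
  exact this.continuous

theorem uint_cl_sq (v : ℝ) (h : 1 ≤ |v|) : cl v ^ 2 = 1 := by
  rcases le_abs.1 h with h | h
  · have h1 : cl (-v) = -1 := cl_low (-v) (by linarith)
    rw [cl_neg] at h1
    have : cl v = 1 := by linarith
    rw [this]; norm_num
  · have h1 : cl v = -1 := cl_low v (by linarith)
    rw [h1]; norm_num

theorem uint_om_pos : (0 : ℝ) < om := by unfold om; norm_num

theorem uint_piece (a b k d : ℝ) (hab : a ≤ b) (hk : |k| = 4) :
    ∫ t in a..b, (1 - cl ((k * t + d) / om) ^ 2) ≤ om / 2 := by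
  have hom := uint_om_pos
  have hk0 : k ≠ 0 := by
    intro h
    rw [h] at hk
    simp at hk
  set c : ℝ := -d / k with hc
  have hkc : ∀ t, k * t + d = k * (t - c) := by
    intro t
    rw [hc]
    field_simp
    ring
  have hcont : Continuous (fun t : ℝ => 1 - cl ((k * t + d) / om) ^ 2) :=
    continuous_const.sub ((uint_cl_cont.comp (by fun_prop)).pow 2)
  have hpt : ∀ t : ℝ, 1 - cl ((k * t + d) / om) ^ 2 ≤
      (Set.Icc (c - om / 4) (c + om / 4)).indicator (fun _ => (1 : ℝ)) t := by
    intro t
    by_cases ht : t ∈ Set.Icc (c - om / 4) (c + om / 4)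
    · rw [Set.indicator_of_mem ht]
      have := sq_nonneg (cl ((k * t + d) / om))
      linarith
    · rw [Set.indicator_of_notMem ht]
      have h1 : om / 4 < |t - c| := by
        by_contra hcon
        apply ht
        have := abs_le.1 (not_lt.1 hcon)
        constructor <;> linarith [this.1, this.2]
      have h2 : 1 ≤ |(k * t + d) / om| := by
        rw [hkc, abs_div, abs_mul, hk, abs_of_pos hom, le_div_iff₀ hom]
        linarith
      rw [uint_cl_sq _ h2]
      simp
  have hind : MeasureTheory.Integrable ((Set.Icc (c - om / 4) (c + om / 4)).indicator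
      (fun _ => (1 : ℝ))) MeasureTheory.volume := by
    rw [MeasureTheory.integrable_indicator_iff measurableSet_Icc]
    exact MeasureTheory.integrableOn_const (by simp)
  rw [intervalIntegral.integral_of_le hab]
  calc ∫ t in Set.Ioc a b, (1 - cl ((k * t + d) / om) ^ 2)
      ≤ ∫ t in Set.Ioc a b, (Set.Icc (c - om / 4) (c + om / 4)).indicator (fun _ => (1 : ℝ)) t :=
        MeasureTheory.setIntegral_mono (hcont.integrableOn_Icc.mono_set Set.Ioc_subset_Icc_self)
          hind.integrableOn hpt
    _ ≤ ∫ t, (Set.Icc (c - om / 4) (c + om / 4)).indicator (fun _ => (1 : ℝ)) t :=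
        MeasureTheory.setIntegral_le_integral hind (Filter.Eventually.of_forall fun t =>
          Set.indicator_nonneg (fun _ _ => zero_le_one) t)
    _ = om / 2 := by
        rw [MeasureTheory.integral_indicator measurableSet_Icc, MeasureTheory.setIntegral_const,
          Real.volume_real_Icc_of_le (by linarith), smul_eq_mul]
        ring

/-- the integrand -/
def uintf (α t : ℝ) : ℝ := 1 - cl ((tri t - α) / om) ^ 2

theorem uintf_cont (α : ℝ) : Continuous (uintf α) := by
  unfold uintf
  exact continuous_const.sub ((uint_cl_cont.comp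
    ((uint_tri_cont.sub continuous_const).div_const _)).pow 2)

theorem uintf_per (α : ℝ) : Function.Periodic (uintf α) 1 := by
  intro t
  unfold uintf
  have := tri_per t 1
  rw [Int.cast_one] at this
  rw [this]

theorem uint_tri1 (t : ℝ) (h0 : 0 ≤ t) (h1 : t ≤ 1 / 2) : tri t = 1 - 4 * t := by
  unfold tri
  rw [abs_sub_round_eq_min]
  have hf : Int.fract t = t := Int.fract_eq_self.2 ⟨h0, by linarith⟩
  rw [hf, min_eq_left (by linarith)]

theorem uint_tri2 (t : ℝ) (h0 : 1 / 2 ≤ t) (h1 : t ≤ 1) : tri t = 4 * t - 3 := by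
  have h := tri_half (t - 1 / 2)
  rw [sub_add_cancel, uint_tri1 (t - 1 / 2) (by linarith) (by linarith)] at h
  rw [h]
  ring

theorem uintf_int (α : ℝ) : ∫ t in (0 : ℝ)..1, uintf α t ≤ om := by
  have hii : ∀ a b : ℝ, IntervalIntegrable (uintf α) MeasureTheory.volume a b :=
    fun a b => (uintf_cont α).intervalIntegrable a b
  rw [← intervalIntegral.integral_add_adjacent_intervals (hii 0 (1 / 2)) (hii (1 / 2) 1)]
  have e1 : ∫ t in (0 : ℝ)..(1 / 2), uintf α t =
      ∫ t in (0 : ℝ)..(1 / 2), (1 - cl (((-4) * t + (1 - α)) / om) ^ 2) := by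
    refine intervalIntegral.integral_congr fun t ht => ?_
    rw [Set.uIcc_of_le (by norm_num)] at ht
    show 1 - cl ((tri t - α) / om) ^ 2 = _
    rw [uint_tri1 t ht.1 ht.2]
    congr 3
    ring
  have e2 : ∫ t in (1 / 2 : ℝ)..1, uintf α t =
      ∫ t in (1 / 2 : ℝ)..1, (1 - cl ((4 * t + (-3 - α)) / om) ^ 2) := by
    refine intervalIntegral.integral_congr fun t ht => ?_
    rw [Set.uIcc_of_le (by norm_num)] at ht
    show 1 - cl ((tri t - α) / om) ^ 2 = _
    rw [uint_tri2 t ht.1 ht.2]
    congr 3
    ring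
  rw [e1, e2]
  have h1 := uint_piece 0 (1 / 2) (-4) (1 - α) (by norm_num) (by norm_num)
  have h2 := uint_piece (1 / 2) 1 4 (-3 - α) (by norm_num) (by norm_num)
  linarith

theorem uintf_shift (α u : ℝ) : ∫ t in u..(u + 1), uintf α t ≤ om := by
  have h := (uintf_per α).intervalIntegral_add_eq u 0
  rw [h, zero_add]
  exact uintf_int α

theorem uE_int (x y : ℝ) : ∫ s in (0 : ℝ)..1, (1 - uE (x, y, s) ^ 2) ≤ om := by
  have e : ∀ s : ℝ, 1 - uE (x, y, s) ^ 2 = uintf (al (x - jE x)) (s - jE x * y) := fun s => rfl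
  simp only [e]
  rw [intervalIntegral.integral_comp_sub_right (uintf (al (x - jE x))) (jE x * y)]
  have := uintf_shift (al (x - jE x)) (0 - jE x * y)
  rwa [show (0 : ℝ) - jE x * y + 1 = 1 - jE x * y by ring] at this

theorem uO_int (x y : ℝ) : ∫ s in (0 : ℝ)..1, (1 - uO (x, y, s) ^ 2) ≤ om := by
  have e : ∀ s : ℝ, 1 - uO (x, y, s) ^ 2 =
      uintf (al (x - jO x)) (2 * s - 2 * (jO x * y)) := by
    intro s
    show 1 - cl ((tri (2 * (s - jO x * y)) - al (x - jO x)) / om) ^ 2 = _
    unfold uintf
    rw [mul_sub]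
  simp only [e]
  rw [intervalIntegral.integral_comp_mul_sub (uintf (al (x - jO x))) (two_ne_zero)
    (2 * (jO x * y))]
  have hii : ∀ a b : ℝ, IntervalIntegrable (uintf (al (x - jO x))) MeasureTheory.volume a b :=
    fun a b => (uintf_cont _).intervalIntegrable a b
  set u : ℝ := 2 * 0 - 2 * (jO x * y) with hu
  have h1 := uintf_shift (al (x - jO x)) u
  have h2 := uintf_shift (al (x - jO x)) (u + 1)
  have e2 : 2 * 1 - 2 * (jO x * y) = u + 1 + 1 := by rw [hu]; ring
  rw [e2, ← intervalIntegral.integral_add_adjacent_intervals (hii u (u + 1))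
    (hii (u + 1) (u + 1 + 1)), smul_eq_mul]
  linarith

theorem mean_XX (x y : ℝ) : 0 ≤ mean XX x y ∧ mean XX x y ≤ 2 * om := by
  have hE : ∀ s : ℝ, 0 ≤ 1 - uE (x, y, s) ^ 2 := by
    intro s
    have := abs_le.1 (uE_bd (x, y, s))
    nlinarith [this.1, this.2]
  have hO : ∀ s : ℝ, 0 ≤ 1 - uO (x, y, s) ^ 2 := by
    intro s
    have := abs_le.1 (uO_bd (x, y, s))
    nlinarith [this.1, this.2]
  have e : mean XX x y = (∫ s in (0 : ℝ)..1, (1 - uE (x, y, s) ^ 2)) +
      ∫ s in (0 : ℝ)..1, (1 - uO (x, y, s) ^ 2) := by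
    rw [← intervalIntegral.integral_add]
    · unfold mean
      refine intervalIntegral.integral_congr fun s _ => ?_
      show 2 - uE (x, y, s) ^ 2 - uO (x, y, s) ^ 2 = _
      ring
    · exact (continuous_const.sub ((uE_cont x y).pow 2)).intervalIntegrable _ _
    · exact (continuous_const.sub ((uO_cont x y).pow 2)).intervalIntegrable _ _
  rw [e]
  constructor
  · exact add_nonneg (intervalIntegral.integral_nonneg zero_le_one fun s _ => hE s)
      (intervalIntegral.integral_nonneg zero_le_one fun s _ => hO s)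
  · have := uE_int x y
    have := uO_int x y
    linarith

end Bs

end Pool.Agent.Helper962.Heis
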