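import Pool.Agent.Helper962.Heis.BUlip
import Pool.Agent.Helper962.Heis.BUint

set_option autoImplicit false

noncomputable section

namespace Pool.Agent.Helper962.Heis

namespace Bs

theorem inj_aux1 (X : ℝ → ℝ) (hXc : Continuous X) (hX0 : ∀ s, 0 ≤ X s) (t c a b v : ℝ)
    (hta : t ≤ a) (hab : a ≤ b) (hbc : b ≤ t + c) (hv : ∀ s ∈ Set.Icc a b, v ≤ X s) :
    v * (b - a) ≤ ∫ s in t..(t + c), X s := by
  have h1 : ∫ s in t..(t + c), X s =
      (∫ s in t..a, X s) + ((∫ s in a..b, X s) + ∫ s in b..(t + c), X s) := by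
    rw [intervalIntegral.integral_add_adjacent_intervals (hXc.intervalIntegrable _ _)
      (hXc.intervalIntegrable _ _), intervalIntegral.integral_add_adjacent_intervals
      (hXc.intervalIntegrable _ _) (hXc.intervalIntegrable _ _)]
  have h2 : 0 ≤ ∫ s in t..a, X s := intervalIntegral.integral_nonneg hta (fun s _ => hX0 s)
  have h3 : 0 ≤ ∫ s in b..(t + c), X s := intervalIntegral.integral_nonneg hbc (fun s _ => hX0 s)
  have h4 : ∫ s in a..b, v ≤ ∫ s in a..b, X s :=
    intervalIntegral.integral_mono_on hab intervalIntegrable_const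
      (hXc.intervalIntegrable _ _) hv
  rw [intervalIntegral.integral_const, smul_eq_mul, mul_comm] at h4
  linarith

theorem inj_aux2 (X u : ℝ → ℝ) (hXc : Continuous X) (hX0 : ∀ s, 0 ≤ X s)
    (hXu : ∀ s, 1 - u s ^ 2 ≤ X s) (L : ℝ) (hL : 0 < L)
    (hu : ∀ s s', |u s - u s'| ≤ L * |s - s'|) (huc : Continuous u) (t c : ℝ)
    (hJ : ∫ s in t..(t + c), X s < (19 / 100) * (2 * (35 / 1000 / L))) (s0 : ℝ)
    (hs0 : s0 ∈ Set.Icc t (t + c)) (h0 : 9 / 10 ≤ u s0) :
    ∀ s ∈ Set.Icc t (t + c), 83 / 100 ≤ u s := by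
  intro s1 hs1
  by_contra hcon
  push Not at hcon
  have hmem : (865 / 1000 : ℝ) ∈ Set.uIcc (u s0) (u s1) := by
    rw [Set.mem_uIcc]; right; constructor <;> linarith
  obtain ⟨s2, hs2, hs2u⟩ := intermediate_value_uIcc (huc.continuousOn (s := Set.uIcc s0 s1)) hmem
  have hh : 0 < 35 / 1000 / L := by positivity
  set h : ℝ := 35 / 1000 / L with hdef
  have hLh : L * h = 35 / 1000 := by
    rw [hdef]; field_simp
  have e0 : h ≤ |s0 - s2| := by
    have h1 := hu s0 s2
    have h2 : 35 / 1000 ≤ |u s0 - u s2| := by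
      rw [hs2u]; exact le_trans (by linarith) (le_abs_self _)
    have h3 : L * h ≤ L * |s0 - s2| := by linarith
    exact le_of_mul_le_mul_left h3 hL
  have e1 : h ≤ |s1 - s2| := by
    have h1 := hu s1 s2
    have h2 : 35 / 1000 ≤ |u s1 - u s2| := by
      rw [hs2u]; exact le_trans (by linarith) (neg_le_abs _)
    have h3 : L * h ≤ L * |s1 - s2| := by linarith
    exact le_of_mul_le_mul_left h3 hL
  have hX : ∀ s ∈ Set.Icc (s2 - h) (s2 + h), (19 / 100 : ℝ) ≤ X s := by
    intro s hs
    have h1 := hu s s2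
    have h2 : |s - s2| ≤ h := by
      rw [abs_le]; constructor <;> linarith [hs.1, hs.2]
    have h3 : |u s - u s2| ≤ 35 / 1000 := by
      rw [← hLh]
      exact h1.trans (mul_le_mul_of_nonneg_left h2 hL.le)
    rw [hs2u, abs_le] at h3
    have h4 := hXu s
    nlinarith [h3.1, h3.2]
  have hlow : t ≤ s2 - h ∧ s2 + h ≤ t + c := by
    rcases Set.mem_uIcc.1 hs2 with ⟨h1, h2⟩ | ⟨h1, h2⟩
    · rw [abs_of_nonpos (by linarith)] at e0
      rw [abs_of_nonneg (by linarith)] at e1
      constructor <;> linarith [hs0.1, hs0.2, hs1.1, hs1.2]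
    · rw [abs_of_nonneg (by linarith)] at e0
      rw [abs_of_nonpos (by linarith)] at e1
      constructor <;> linarith [hs0.1, hs0.2, hs1.1, hs1.2]
  have h5 := inj_aux1 X hXc hX0 t c (s2 - h) (s2 + h) (19 / 100) hlow.1 (by linarith) hlow.2 hX
  have h6 : s2 + h - (s2 - h) = 2 * h := by ring
  rw [h6] at h5
  linarith

/-- either much turning, or the signal keeps its sign -/
theorem turn_or_straight (x y t c : ℝ) (hc : 0 ≤ c) (hc' : c ≤ 1 / 4000)
    (hJ : ∫ s in t..(t + c), XX (x, y, s) < 5 * om * c) :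
    (∀ s ∈ Set.Icc t (t + c), (83 / 100 : ℝ) ≤ uu (x, y, s)) ∨
    (∀ s ∈ Set.Icc t (t + c), uu (x, y, s) ≤ -(83 / 100 : ℝ)) := by
  have hE := uE_cont x y
  have hO := uO_cont x y
  have hXc : Continuous (fun s : ℝ => XX (x, y, s)) := by
    unfold XX
    exact (continuous_const.sub (hE.pow 2)).sub (hO.pow 2)
  have hE1 : ∀ s, uE (x, y, s) ^ 2 ≤ 1 := fun s => by
    have := uE_bd (x, y, s)
    rw [abs_le] at this
    nlinarith [this.1, this.2]
  have hO1 : ∀ s, uO (x, y, s) ^ 2 ≤ 1 := fun s => by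
    have := uO_bd (x, y, s)
    rw [abs_le] at this
    nlinarith [this.1, this.2]
  have hXE : ∀ s, 1 - uE (x, y, s) ^ 2 ≤ XX (x, y, s) := fun s => by
    unfold XX; linarith [hO1 s]
  have hXO : ∀ s, 1 - uO (x, y, s) ^ 2 ≤ XX (x, y, s) := fun s => by
    unfold XX; linarith [hE1 s]
  have hX0 : ∀ s, 0 ≤ XX (x, y, s) := fun s => by linarith [hXE s, hE1 s]
  have hom : (0 : ℝ) < om := by unfold om; norm_num
  have hc0 : 0 < c := by
    rcases hc.lt_or_eq with h | h
    · exact h
    · exfalso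
      rw [← h] at hJ
      simp at hJ
  have hlipE : ∀ s s', |uE (x, y, s) - uE (x, y, s')| ≤ 8 / om * |s - s'| := fun s s' => by
    have := uE_lip (x, y, s') (x, y, s)
    simpa [ds, dc] using this
  have hlipO : ∀ s s', |uO (x, y, s) - uO (x, y, s')| ≤ 8 / om * |s - s'| := fun s s' => by
    have := uO_lip (x, y, s') (x, y, s)
    simpa [ds, dc] using this
  have hL : 0 < 8 / om := by positivity
  have hJ' : ∫ s in t..(t + c), XX (x, y, s) < (19 / 100) * (2 * (35 / 1000 / (8 / om))) := by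
    refine hJ.trans_le ?_
    have h1 : (19 / 100 : ℝ) * (2 * (35 / 1000 / (8 / om))) = 1330 / 800000 * om := by
      field_simp; norm_num
    rw [h1]
    nlinarith
  -- a point with large signal
  obtain ⟨s0, hs0, hs0u⟩ : ∃ s0 ∈ Set.Icc t (t + c), 9 / 10 ≤ |uu (x, y, s0)| := by
    by_contra hcon
    push Not at hcon
    have h1 := inj_aux1 (fun s => XX (x, y, s)) hXc hX0 t c t (t + c) (19 / 100) le_rfl
      (by linarith) le_rfl (by
        intro s hs
        have h2 := hcon s hs
        rw [abs_lt] at h2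
        rcases max_choice (uE (x, y, s)) (uO (x, y, s)) with h3 | h3
        · have h4 : uu (x, y, s) = uE (x, y, s) := h3
          rw [h4] at h2
          have := hXE s
          nlinarith [h2.1, h2.2]
        · have h4 : uu (x, y, s) = uO (x, y, s) := h3
          rw [h4] at h2
          have := hXO s
          nlinarith [h2.1, h2.2])
    have h5 : t + c - t = c := by ring
    rw [h5] at h1
    have h6 : 5 * om * c ≤ 19 / 100 * c := by
      apply mul_le_mul_of_nonneg_right _ hc
      unfold om; norm_num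
    have h7 : 19 / 100 * c ≤ ∫ s in t..(t + c), XX (x, y, s) := h1
    linarith
  have keyE := inj_aux2 (fun s => XX (x, y, s)) (fun s => uE (x, y, s)) hXc hX0 hXE (8 / om) hL
    hlipE hE t c hJ' s0 hs0
  have keyO := inj_aux2 (fun s => XX (x, y, s)) (fun s => uO (x, y, s)) hXc hX0 hXO (8 / om) hL
    hlipO hO t c hJ' s0 hs0
  have keyE' := inj_aux2 (fun s => XX (x, y, s)) (fun s => - uE (x, y, s)) hXc hX0
    (fun s => by have := hXE s; simpa using this) (8 / om) hL
    (fun s s' => by
      have h1 : -uE (x, y, s) - -uE (x, y, s') = -(uE (x, y, s) - uE (x, y, s')) := by ring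
      rw [h1, abs_neg]; exact hlipE s s') hE.neg t c hJ' s0 hs0
  have keyO' := inj_aux2 (fun s => XX (x, y, s)) (fun s => - uO (x, y, s)) hXc hX0
    (fun s => by have := hXO s; simpa using this) (8 / om) hL
    (fun s s' => by
      have h1 : -uO (x, y, s) - -uO (x, y, s') = -(uO (x, y, s) - uO (x, y, s')) := by ring
      rw [h1, abs_neg]; exact hlipO s s') hO.neg t c hJ' s0 hs0
  rcases le_abs.1 hs0u with h | h
  · left
    intro s hs
    rcases max_choice (uE (x, y, s0)) (uO (x, y, s0)) with h3 | h3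
    · have h4 : uu (x, y, s0) = uE (x, y, s0) := h3
      rw [h4] at h
      exact (keyE h s hs).trans (le_max_left _ _)
    · have h4 : uu (x, y, s0) = uO (x, y, s0) := h3
      rw [h4] at h
      exact (keyO h s hs).trans (le_max_right _ _)
  · right
    intro s hs
    have h1 : uE (x, y, s0) ≤ uu (x, y, s0) := le_max_left _ _
    have h2 : uO (x, y, s0) ≤ uu (x, y, s0) := le_max_right _ _
    have h3 := keyE' (by linarith) s hs
    have h4 := keyO' (by linarith) s hs
    have h5 : uu (x, y, s) = max (uE (x, y, s)) (uO (x, y, s)) := rfl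
    rw [h5, max_le_iff]
    constructor <;> linarith

end Bs

end Pool.Agent.Helper962.Heis
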