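import Pool.Agent.Helper962.Heis.BUper

set_option autoImplicit false

noncomputable section

namespace Pool.Agent.Helper962.Heis

namespace Bs

theorem ulip_gen (J : ℝ → ℝ) (c : ℝ) (hc0 : 0 ≤ c) (hc2 : c ≤ 2) (hJ1 : ∀ x, |x - J x| ≤ 1)
    (hJ2 : ∀ x x', J x = J x' ∨ 2 ≤ |J x - J x'|) (p q : P) :
    |cl ((tri (c * (q.2.2 - J q.1 * q.2.1)) - al (q.1 - J q.1)) / om) -
      cl ((tri (c * (p.2.2 - J p.1 * p.2.1)) - al (p.1 - J p.1)) / om)| ≤
      8 / om * (ds p q + |dc p q|) := by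
  have hom : (0 : ℝ) < om := by unfold om; norm_num
  have hds : ds p q = |q.1 - p.1| + |q.2.1 - p.2.1| := rfl
  have hdc0 : 0 ≤ |dc p q| := abs_nonneg _
  have ha0 : 0 ≤ |q.1 - p.1| := abs_nonneg _
  have hb0 : 0 ≤ |q.2.1 - p.2.1| := abs_nonneg _
  rcases hJ2 q.1 p.1 with hJ | hJ
  · rw [hJ]
    refine (cl_lip _ _).trans ?_
    rw [← sub_div, abs_div, abs_of_pos hom, div_le_iff₀ hom]
    have e : 8 / om * (ds p q + |dc p q|) * om = 8 * (ds p q + |dc p q|) := by
      field_simp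
    rw [e]
    have h1 := tri_lip (c * (q.2.2 - J p.1 * q.2.1)) (c * (p.2.2 - J p.1 * p.2.1))
    have h2 := al_lip (q.1 - J p.1) (p.1 - J p.1)
    have e2 : q.1 - J p.1 - (p.1 - J p.1) = q.1 - p.1 := by ring
    rw [e2] at h2
    have e3 : c * (q.2.2 - J p.1 * q.2.1) - c * (p.2.2 - J p.1 * p.2.1) =
        c * (dc p q + (p.1 - J p.1) * (q.2.1 - p.2.1)) := by
      unfold dc; ring
    rw [e3, abs_mul, abs_of_nonneg hc0] at h1
    have h3 : |dc p q + (p.1 - J p.1) * (q.2.1 - p.2.1)| ≤ |dc p q| + |q.2.1 - p.2.1| := by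
      refine (abs_add_le _ _).trans ?_
      rw [abs_mul]
      have := mul_le_mul_of_nonneg_right (hJ1 p.1) hb0
      linarith
    have h4 : c * |dc p q + (p.1 - J p.1) * (q.2.1 - p.2.1)| ≤ 2 * (|dc p q| + |q.2.1 - p.2.1|) :=
      mul_le_mul hc2 h3 (abs_nonneg _) (by norm_num)
    have h5 : |tri (c * (q.2.2 - J p.1 * q.2.1)) - al (q.1 - J p.1) -
        (tri (c * (p.2.2 - J p.1 * p.2.1)) - al (p.1 - J p.1))| ≤
        |tri (c * (q.2.2 - J p.1 * q.2.1)) - tri (c * (p.2.2 - J p.1 * p.2.1))| +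
        |al (q.1 - J p.1) - al (p.1 - J p.1)| := by
      have e4 : tri (c * (q.2.2 - J p.1 * q.2.1)) - al (q.1 - J p.1) -
        (tri (c * (p.2.2 - J p.1 * p.2.1)) - al (p.1 - J p.1)) =
        (tri (c * (q.2.2 - J p.1 * q.2.1)) - tri (c * (p.2.2 - J p.1 * p.2.1))) -
        (al (q.1 - J p.1) - al (p.1 - J p.1)) := by ring
      rw [e4]
      exact abs_sub _ _
    rw [hds]
    linarith
  · have hbig : (10 : ℝ) ≤ 8 / om := by unfold om; norm_num
    have key : ∀ z : P, |z.1 - J z.1| ≥ 4 / 5 →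
        cl ((tri (c * (z.2.2 - J z.1 * z.2.1)) - al (z.1 - J z.1)) / om) = -1 := by
      intro z hz
      apply cl_low
      have h1 := al_far (z.1 - J z.1) hz
      have h2 := (abs_le.1 (tri_bd (c * (z.2.2 - J z.1 * z.2.1)))).2
      rw [div_le_iff₀ hom]
      have h3 : om = 1 / 2000000 := rfl
      rw [h3]
      linarith
    have fin : 1 / 5 ≤ |q.1 - p.1| →
      |cl ((tri (c * (q.2.2 - J q.1 * q.2.1)) - al (q.1 - J q.1)) / om) -
      cl ((tri (c * (p.2.2 - J p.1 * p.2.1)) - al (p.1 - J p.1)) / om)| ≤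
      8 / om * (ds p q + |dc p q|) := by
      intro h
      have h1 := cl_bd ((tri (c * (q.2.2 - J q.1 * q.2.1)) - al (q.1 - J q.1)) / om)
      have h2 := cl_bd ((tri (c * (p.2.2 - J p.1 * p.2.1)) - al (p.1 - J p.1)) / om)
      have h3 := abs_sub (cl ((tri (c * (q.2.2 - J q.1 * q.2.1)) - al (q.1 - J q.1)) / om))
        (cl ((tri (c * (p.2.2 - J p.1 * p.2.1)) - al (p.1 - J p.1)) / om))
      have h4 : (10 : ℝ) * (1 / 5) ≤ 8 / om * (ds p q + |dc p q|) := by
        refine mul_le_mul hbig ?_ (by norm_num) (by linarith)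
        rw [hds]; linarith
      linarith
    by_cases hp : |p.1 - J p.1| < 4 / 5
    · apply fin
      have h1 := hJ1 q.1
      have h2 : |J q.1 - J p.1| ≤ |q.1 - J q.1| + |q.1 - p.1| + |p.1 - J p.1| := by
        have e : J q.1 - J p.1 = -(q.1 - J q.1) + (q.1 - p.1) + (p.1 - J p.1) := by ring
        rw [e]
        refine (abs_add_three _ _ _).trans ?_
        rw [abs_neg]
      linarith
    · by_cases hq : |q.1 - J q.1| < 4 / 5
      · apply fin
        have h1 := hJ1 p.1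
        have h2 : |J q.1 - J p.1| ≤ |q.1 - J q.1| + |q.1 - p.1| + |p.1 - J p.1| := by
          have e : J q.1 - J p.1 = -(q.1 - J q.1) + (q.1 - p.1) + (p.1 - J p.1) := by ring
          rw [e]
          refine (abs_add_three _ _ _).trans ?_
          rw [abs_neg]
        linarith
      · rw [key q (not_lt.1 hq), key p (not_lt.1 hp), sub_self, abs_zero]
        exact mul_nonneg (by positivity) (by rw [hds]; positivity)

theorem ulip_int (m n : ℤ) : 2 * (m : ℝ) = 2 * (n : ℝ) ∨ 2 ≤ |2 * (m : ℝ) - 2 * (n : ℝ)| := by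
  by_cases h : m = n
  · left; rw [h]
  · right
    have h1 : (1 : ℤ) ≤ |m - n| := Int.one_le_abs (sub_ne_zero.2 h)
    have h2 : (1 : ℝ) ≤ |(m : ℝ) - n| := by exact_mod_cast h1
    have e : 2 * (m : ℝ) - 2 * (n : ℝ) = 2 * ((m : ℝ) - n) := by ring
    rw [e, abs_mul, abs_of_pos (by norm_num : (0 : ℝ) < 2)]
    linarith

theorem uE_lip (p q : P) : |uE q - uE p| ≤ 8 / om * (ds p q + |dc p q|) := by
  have h := ulip_gen jE 1 (by norm_num) (by norm_num) jE_dist (fun x x' => ulip_int _ _) p q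
  simp only [one_mul] at h
  exact h

theorem uO_lip (p q : P) : |uO q - uO p| ≤ 8 / om * (ds p q + |dc p q|) := by
  have h := ulip_gen jO 2 (by norm_num) (by norm_num) jO_dist (fun x x' => by
    rcases ulip_int (round ((x - 1) / 2)) (round ((x' - 1) / 2)) with h | h
    · left; unfold jO; rw [h]
    · right
      unfold jO
      have e : 2 * ((round ((x - 1) / 2) : ℤ) : ℝ) + 1 - (2 * ((round ((x' - 1) / 2) : ℤ) : ℝ) + 1)
        = 2 * ((round ((x - 1) / 2) : ℤ) : ℝ) - 2 * ((round ((x' - 1) / 2) : ℤ) : ℝ) := by ring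
      rw [e]; exact h) p q
  exact h

theorem uu_lip (p q : P) : |uu q - uu p| ≤ 8 / om * (ds p q + |dc p q|) := by
  unfold uu
  exact (abs_max_sub_max_le_max _ _ _ _).trans (max_le (uE_lip p q) (uO_lip p q))

theorem ulip_sq (a b D : ℝ) (ha : |a| ≤ 1) (hb : |b| ≤ 1) (h : |a - b| ≤ D) :
    |a ^ 2 - b ^ 2| ≤ 2 * D := by
  have e : a ^ 2 - b ^ 2 = (a + b) * (a - b) := by ring
  rw [e, abs_mul]
  have h1 : |a + b| ≤ 2 := (abs_add_le _ _).trans (by linarith)
  exact mul_le_mul h1 h (abs_nonneg _) (by norm_num)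

theorem XX_lip (p q : P) : |XX q - XX p| ≤ 32 / om * (ds p q + |dc p q|) := by
  have h1 := ulip_sq _ _ _ (uE_bd q) (uE_bd p) (uE_lip p q)
  have h2 := ulip_sq _ _ _ (uO_bd q) (uO_bd p) (uO_lip p q)
  have e : XX q - XX p = -((uE q ^ 2 - uE p ^ 2) + (uO q ^ 2 - uO p ^ 2)) := by
    unfold XX; ring
  rw [e, abs_neg]
  refine (abs_add_le _ _).trans ?_
  have e2 : 32 / om * (ds p q + |dc p q|) = 2 * (8 / om * (ds p q + |dc p q|)) +
      2 * (8 / om * (ds p q + |dc p q|)) := by ring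
  rw [e2]
  linarith

end Bs

end Pool.Agent.Helper962.Heis
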