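import Pool.Agent.Helper962.Heis.BGen
import Pool.Agent.Helper962.Heis.BUint
import Pool.Agent.Helper962.Heis.BUlip

set_option autoImplicit false

noncomputable section

namespace Pool.Agent.Helper962.Heis

namespace Bs

theorem prim_aux_dist (x y s t : ℝ) : ds (x, y, t) (x, y, s) + |dc (x, y, t) (x, y, s)| = |s - t| := by
  unfold ds dc
  simp

theorem prim_aux_cont (f : P → ℝ) (L : ℝ) (hL : 0 ≤ L)
    (hl : ∀ p q, |f q - f p| ≤ L * (ds p q + |dc p q|)) (x y : ℝ) :
    Continuous (fun t : ℝ => f (x, y, t)) := by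
  have h : LipschitzWith (Real.toNNReal L) (fun t : ℝ => f (x, y, t)) := by
    apply LipschitzWith.of_dist_le_mul
    intro s t
    rw [Real.dist_eq, Real.dist_eq, Real.coe_toNNReal L hL]
    have := hl (x, y, t) (x, y, s)
    rwa [prim_aux_dist] at this
  exact h.continuous

theorem prim_aux_parts (g : ℝ → ℝ) (hg : Continuous g) (hper : Function.Periodic g 1)
    (h0 : ∫ s in (0 : ℝ)..1, g s = 0) (t : ℝ) :
    ∫ s in (0 : ℝ)..1, (s - 1 / 2) * g (t + s) =
      (∫ s in (0 : ℝ)..t, g s) - ∫ u in (0 : ℝ)..1, ∫ s in (0 : ℝ)..u, g s := by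
  have hG : ∀ u, HasDerivAt (fun u => ∫ s in (0 : ℝ)..u, g s) (g u) u :=
    fun u => (hg.integral_hasStrictDerivAt 0 u).hasDerivAt
  have hGc : Continuous (fun u => ∫ s in (0 : ℝ)..u, g s) :=
    continuous_iff_continuousAt.mpr fun u => (hG u).continuousAt
  have hGper : Function.Periodic (fun u => ∫ s in (0 : ℝ)..u, g s) 1 := by
    intro u
    show ∫ s in (0 : ℝ)..(u + 1), g s = ∫ s in (0 : ℝ)..u, g s
    rw [← intervalIntegral.integral_add_adjacent_intervals (hg.intervalIntegrable 0 u)
      (hg.intervalIntegrable u (u + 1))]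
    have h1 := hper.intervalIntegral_add_eq u 0
    rw [zero_add] at h1
    rw [h1, h0, add_zero]
  have hv : ∀ s ∈ Set.uIcc (0 : ℝ) 1, HasDerivAt (fun s => ∫ w in (0 : ℝ)..(t + s), g w)
      (g (t + s)) s := by
    intro s _
    exact (hG (t + s)).comp_const_add t s
  have hu : ∀ s ∈ Set.uIcc (0 : ℝ) 1, HasDerivAt (fun s : ℝ => s - 1 / 2) (1 : ℝ) s := by
    intro s _
    exact (hasDerivAt_id s).sub_const _
  have hparts := intervalIntegral.integral_mul_deriv_eq_deriv_mul hu hv
    (intervalIntegrable_const) ((hg.comp (continuous_const.add continuous_id)).intervalIntegrable _ _)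
  have h2 : ∫ s in (0 : ℝ)..1, (1 : ℝ) * ∫ w in (0 : ℝ)..(t + s), g w =
      ∫ u in (0 : ℝ)..1, ∫ s in (0 : ℝ)..u, g s := by
    simp only [one_mul]
    rw [intervalIntegral.integral_comp_add_left (fun u => ∫ w in (0 : ℝ)..u, g w) t]
    have h3 := hGper.intervalIntegral_add_eq t 0
    rw [zero_add] at h3
    rw [add_zero]
    exact h3
  have h4 : ∫ s in (0 : ℝ)..(t + 1), g s = ∫ s in (0 : ℝ)..t, g s := hGper t
  rw [h2, h4, add_zero] at hparts
  rw [hparts]
  ring

theorem prim_aux_mean (f : P → ℝ) (x y : ℝ) (hc : Continuous (fun t : ℝ => f (x, y, t))) :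
    ∫ s in (0 : ℝ)..1, gg f (x, y, s) = 0 := by
  have h1 : (fun s : ℝ => gg f (x, y, s)) = fun s => f (x, y, s) - mean f x y := rfl
  rw [h1, intervalIntegral.integral_sub (hc.intervalIntegrable _ _) intervalIntegrable_const]
  simp [mean]

theorem prim_aux_gcont (f : P → ℝ) (x y : ℝ) (hc : Continuous (fun t : ℝ => f (x, y, t))) :
    Continuous (fun s : ℝ => gg f (x, y, s)) := by
  have h1 : (fun s : ℝ => gg f (x, y, s)) = fun s => f (x, y, s) - mean f x y := rfl
  rw [h1]
  exact hc.sub continuous_const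

theorem prim_diff (f : P → ℝ) (L : ℝ) (hL : 0 ≤ L)
    (hp : ∀ x y t : ℝ, f (x, y, t + 1) = f (x, y, t))
    (hl : ∀ p q, |f q - f p| ≤ L * (ds p q + |dc p q|)) (x y t c : ℝ) :
    prim f (x, y, t + c) - prim f (x, y, t) = ∫ s in t..(t + c), gg f (x, y, s) := by
  have hc := prim_aux_cont f L hL hl x y
  have hg : Continuous (fun s : ℝ => gg f (x, y, s)) := prim_aux_gcont f x y hc
  have hper : Function.Periodic (fun s : ℝ => gg f (x, y, s)) 1 := by
    intro s
    show gg f (x, y, s + 1) = gg f (x, y, s)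
    unfold gg
    rw [hp]
  have h0 := prim_aux_mean f x y hc
  have h1 : ∀ t, prim f (x, y, t) = (∫ s in (0 : ℝ)..t, gg f (x, y, s)) -
      ∫ u in (0 : ℝ)..1, ∫ s in (0 : ℝ)..u, gg f (x, y, s) := fun t =>
    prim_aux_parts (fun s : ℝ => gg f (x, y, s)) hg hper h0 t
  rw [h1, h1, sub_sub_sub_cancel_right,
    intervalIntegral.integral_interval_sub_left (hg.intervalIntegrable _ _)
      (hg.intervalIntegrable _ _)]

theorem prim_snd (f : P → ℝ) (L : ℝ) (hL : 0 ≤ L)
    (hp : ∀ x y t : ℝ, f (x, y, t + 1) = f (x, y, t))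
    (hl : ∀ p q, |f q - f p| ≤ L * (ds p q + |dc p q|)) (x y t c : ℝ) :
    |prim f (x, y, t + c) - prim f (x, y, t) - gg f (x, y, t) * c| ≤ 2 * L * c ^ 2 := by
  have hc := prim_aux_cont f L hL hl x y
  have hg : Continuous (fun s : ℝ => gg f (x, y, s)) := prim_aux_gcont f x y hc
  rw [prim_diff f L hL hp hl]
  have h1 : ∫ _s in t..(t + c), gg f (x, y, t) = gg f (x, y, t) * c := by
    rw [intervalIntegral.integral_const]
    simp [mul_comm]
  rw [← h1, ← intervalIntegral.integral_sub (hg.intervalIntegrable _ _) intervalIntegrable_const]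
  have h2 := intervalIntegral.norm_integral_le_of_norm_le_const (a := t) (b := t + c)
    (f := fun s => gg f (x, y, s) - gg f (x, y, t)) (C := 2 * L * |c|) (by
      intro s hs
      rw [Real.norm_eq_abs]
      have h3 := gg_lip f L hL hp hl (x, y, t) (x, y, s)
      rw [prim_aux_dist] at h3
      refine h3.trans (mul_le_mul_of_nonneg_left ?_ (by positivity))
      have h4 := Set.uIoc_subset_uIcc hs
      have h5 := Set.abs_sub_left_of_mem_uIcc h4
      simpa using h5)
  rw [Real.norm_eq_abs] at h2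
  refine h2.trans (le_of_eq ?_)
  rw [add_sub_cancel_left, mul_assoc, abs_mul_abs_self, pow_two]

theorem prim_XX_bd (p : P) : |prim XX p| ≤ om := by
  obtain ⟨x, y, t⟩ := p
  have hXc : Continuous (fun s : ℝ => XX (x, y, s)) :=
    (continuous_const.sub ((uE_cont x y).pow 2)).sub ((uO_cont x y).pow 2)
  have hXt : Continuous (fun s : ℝ => XX (x, y, t + s)) :=
    hXc.comp (continuous_const.add continuous_id)
  have hXnn : ∀ q, 0 ≤ XX q := by
    intro q
    unfold XX
    have h1 := uE_bd q
    have h2 := uO_bd q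
    have h3 : uE q ^ 2 ≤ 1 := (sq_le_one_iff_abs_le_one _).mpr h1
    have h4 : uO q ^ 2 ≤ 1 := (sq_le_one_iff_abs_le_one _).mpr h2
    linarith
  have hper : Function.Periodic (fun s : ℝ => XX (x, y, s)) 1 := by
    intro s
    show XX (x, y, s + 1) = XX (x, y, s)
    unfold XX
    rw [uE_per, uO_per]
  have hlin : Continuous (fun s : ℝ => s - 1 / 2) := continuous_id.sub continuous_const
  have h1 : prim XX (x, y, t) = ∫ s in (0 : ℝ)..1, (s - 1 / 2) * XX (x, y, t + s) := by
    have e1 : ∀ s : ℝ, (s - 1 / 2) * gg XX (x, y, t + s) =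
        (s - 1 / 2) * XX (x, y, t + s) - (s - 1 / 2) * mean XX x y := by
      intro s
      unfold gg
      ring
    have e2 : prim XX (x, y, t) = ∫ s in (0 : ℝ)..1, (s - 1 / 2) * gg XX (x, y, t + s) := rfl
    rw [e2, intervalIntegral.integral_congr (g := fun s => (s - 1 / 2) * XX (x, y, t + s) -
      (s - 1 / 2) * mean XX x y) (fun s _ => e1 s),
      intervalIntegral.integral_sub (f := fun s => (s - 1 / 2) * XX (x, y, t + s))
        (g := fun s => (s - 1 / 2) * mean XX x y) ((hlin.mul hXt).intervalIntegrable _ _)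
        ((hlin.mul continuous_const).intervalIntegrable _ _),
      intervalIntegral.integral_mul_const]
    have e3 : ∫ s in (0 : ℝ)..1, (s - 1 / 2) = 0 := by
      rw [intervalIntegral.integral_sub (f := fun s : ℝ => s) (g := fun _ => (1 / 2 : ℝ))
        (continuous_id.intervalIntegrable _ _) intervalIntegrable_const, integral_id]
      simp
    rw [e3, zero_mul, sub_zero]
  have h2 : |∫ s in (0 : ℝ)..1, (s - 1 / 2) * XX (x, y, t + s)| ≤
      ∫ s in (0 : ℝ)..1, (1 / 2) * XX (x, y, t + s) := by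
    rw [← Real.norm_eq_abs]
    apply intervalIntegral.norm_integral_le_of_norm_le zero_le_one
    · refine Filter.Eventually.of_forall fun s hs => ?_
      rw [norm_mul, Real.norm_eq_abs, Real.norm_eq_abs, abs_of_nonneg (hXnn _)]
      apply mul_le_mul_of_nonneg_right _ (hXnn _)
      rw [abs_le]
      constructor <;> linarith [hs.1, hs.2]
    · exact (continuous_const.mul hXt).intervalIntegrable _ _
  have h3 : ∫ s in (0 : ℝ)..1, (1 / 2) * XX (x, y, t + s) = (1 / 2) * mean XX x y := by
    rw [intervalIntegral.integral_const_mul,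
      intervalIntegral.integral_comp_add_left (fun s => XX (x, y, s)) t, add_zero]
    have h4 := hper.intervalIntegral_add_eq t 0
    rw [zero_add] at h4
    rw [h4]
    rfl
  rw [h1]
  refine h2.trans ?_
  rw [h3]
  have := (mean_XX x y).2
  linarith

end Bs

end Pool.Agent.Helper962.Heis
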