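import Pool.Agent.Helper962.Heis.BUint
import Pool.Agent.Helper962.Heis.BUlip

set_option autoImplicit false

noncomputable section

namespace Pool.Agent.Helper962.Heis

namespace Bs

theorem umean_anti (f : ℝ → ℝ) (c : ℝ) (h1 : ∀ t, f (t + 1) = f t) (h2 : ∀ t, f (t + c) = - f t) :
    ∫ s in (0 : ℝ)..1, f s = 0 := by
  have hp : Function.Periodic f 1 := h1
  have e1 : ∫ s in (0 : ℝ)..1, f (s + c) = ∫ s in (0 + c)..(1 + c), f s :=
    intervalIntegral.integral_comp_add_right _ _
  have e2 := hp.intervalIntegral_add_eq c 0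
  have e3 : ∫ s in (0 : ℝ)..1, f (s + c) = - ∫ s in (0 : ℝ)..1, f s := by
    rw [← intervalIntegral.integral_neg]
    exact intervalIntegral.integral_congr fun s _ => h2 s
  rw [zero_add, add_comm 1 c] at e1
  rw [zero_add] at e2
  linarith

theorem umean_tri_cont : Continuous tri := by
  have : LipschitzWith 4 tri := LipschitzWith.of_dist_le_mul (fun a b => by
    rw [Real.dist_eq, Real.dist_eq]; exact_mod_cast tri_lip a b)
  exact this.continuous

theorem umean_cl_cont : Continuous cl := by
  have : LipschitzWith 1 cl := LipschitzWith.of_dist_le_mul (fun a b => by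
    rw [Real.dist_eq, Real.dist_eq]; simpa using cl_lip a b)
  exact this.continuous

theorem umean_om : 0 < om := by unfold om; norm_num

theorem umean_uu_cont (x y : ℝ) : Continuous (fun t : ℝ => uu (x, y, t)) :=
  (uE_cont x y).max (uO_cont x y)

theorem umean_ah (c : ℝ) (t : ℝ) : cl (tri (t + 1 / 2 - c) / om) = - cl (tri (t - c) / om) := by
  rw [show t + 1 / 2 - c = (t - c) + 1 / 2 by ring, tri_half, neg_div, cl_neg]

theorem umean_ap (c : ℝ) (t : ℝ) : cl (tri (t + 1 - c) / om) = cl (tri (t - c) / om) := by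
  have := tri_per (t - c) 1
  rw [show t + 1 - c = (t - c) + ((1 : ℤ) : ℝ) by push_cast; ring, this]

theorem umean_bq (c : ℝ) (t : ℝ) :
    cl (tri (2 * (t + 1 / 4 - c)) / om) = - cl (tri (2 * (t - c)) / om) := by
  rw [show 2 * (t + 1 / 4 - c) = 2 * (t - c) + 1 / 2 by ring, tri_half, neg_div, cl_neg]

theorem umean_bh (c : ℝ) (t : ℝ) :
    cl (tri (2 * (t + 1 / 2 - c)) / om) = cl (tri (2 * (t - c)) / om) := by
  have := tri_per (2 * (t - c)) 1
  rw [show 2 * (t + 1 / 2 - c) = 2 * (t - c) + ((1 : ℤ) : ℝ) by push_cast; ring, this]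

theorem umean_bp (c : ℝ) (t : ℝ) :
    cl (tri (2 * (t + 1 - c)) / om) = cl (tri (2 * (t - c)) / om) := by
  have := tri_per (2 * (t - c)) 2
  rw [show 2 * (t + 1 - c) = 2 * (t - c) + ((2 : ℤ) : ℝ) by push_cast; ring, this]

theorem mean_uu_lower (x y : ℝ) : 0 ≤ mean uu x y := by
  unfold mean
  rcases j_alt x with h | h
  · have h0 : ∫ s in (0 : ℝ)..1, uE (x, y, s) = 0 := by
      refine umean_anti _ (1 / 2) (fun t => uE_per x y t) (fun t => ?_)
      simp only [uE]
      rw [al_zero _ h, sub_zero, sub_zero, umean_ah]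
    refine h0.symm.le.trans ?_
    refine intervalIntegral.integral_mono_on zero_le_one ((uE_cont x y).intervalIntegrable _ _)
      ((umean_uu_cont x y).intervalIntegrable _ _) (fun s _ => le_max_left _ _)
  · have h0 : ∫ s in (0 : ℝ)..1, uO (x, y, s) = 0 := by
      refine umean_anti _ (1 / 4) (fun t => uO_per x y t) (fun t => ?_)
      simp only [uO]
      rw [al_zero _ h, sub_zero, sub_zero, umean_bq]
    refine h0.symm.le.trans ?_
    refine intervalIntegral.integral_mono_on zero_le_one ((uO_cont x y).intervalIntegrable _ _)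
      ((umean_uu_cont x y).intervalIntegrable _ _) (fun s _ => le_max_right _ _)

theorem mean_uu_upper (x y : ℝ) : mean uu x y ≤ 1 / 2 := by
  unfold mean
  set a : ℝ → ℝ := fun t => cl (tri (t - jE x * y) / om) with ha
  set b : ℝ → ℝ := fun t => cl (tri (2 * (t - jO x * y)) / om) with hb
  have hac : Continuous a := umean_cl_cont.comp ((umean_tri_cont.comp (by fun_prop)).div_const _)
  have hbc : Continuous b := umean_cl_cont.comp ((umean_tri_cont.comp (by fun_prop)).div_const _)
  have ia : ∫ s in (0 : ℝ)..1, a s = 0 :=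
    umean_anti a (1 / 2) (fun t => umean_ap _ t) (fun t => umean_ah _ t)
  have ib : ∫ s in (0 : ℝ)..1, b s = 0 :=
    umean_anti b (1 / 4) (fun t => umean_bp _ t) (fun t => umean_bq _ t)
  have iab : ∫ s in (0 : ℝ)..1, a s * b s = 0 := by
    refine umean_anti (fun s => a s * b s) (1 / 2) (fun t => ?_) (fun t => ?_)
    · simp only [ha, hb]
      rw [umean_ap, umean_bp]
    · simp only [ha, hb]
      rw [umean_ah, umean_bh]; ring
  have hle : ∫ s in (0 : ℝ)..1, uu (x, y, s) ≤
      ∫ s in (0 : ℝ)..1, (1 + a s + b s - a s * b s) / 2 := by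
    refine intervalIntegral.integral_mono_on zero_le_one ((umean_uu_cont x y).intervalIntegrable _ _)
      (Continuous.intervalIntegrable (by fun_prop) _ _) (fun s _ => ?_)
    have h1 : uE (x, y, s) ≤ a s := by
      simp only [uE, ha]
      refine cl_mono _ _ (div_le_div_of_nonneg_right ?_ umean_om.le)
      linarith [al_nonneg (x - jE x)]
    have h2 : uO (x, y, s) ≤ b s := by
      simp only [uO, hb]
      refine cl_mono _ _ (div_le_div_of_nonneg_right ?_ umean_om.le)
      linarith [al_nonneg (x - jO x)]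
    have h3 := abs_le.mp (cl_bd (tri (s - jE x * y) / om))
    have h4 := abs_le.mp (cl_bd (tri (2 * (s - jO x * y)) / om))
    have h5 : -1 ≤ a s ∧ a s ≤ 1 := h3
    have h6 : -1 ≤ b s ∧ b s ≤ 1 := h4
    unfold uu
    refine max_le ?_ ?_
    · nlinarith [mul_nonneg (sub_nonneg.mpr h5.2) (by linarith [h6.1] : 0 ≤ 1 + b s)]
    · nlinarith [mul_nonneg (sub_nonneg.mpr h6.2) (by linarith [h5.1] : 0 ≤ 1 + a s)]
  refine hle.trans (le_of_eq ?_)
  have i1 : IntervalIntegrable (fun _ : ℝ => (1 : ℝ)) MeasureTheory.volume 0 1 :=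
    continuous_const.intervalIntegrable _ _
  rw [intervalIntegral.integral_div]
  rw [intervalIntegral.integral_sub (Continuous.intervalIntegrable (by fun_prop) _ _)
    (Continuous.intervalIntegrable (by fun_prop) _ _)]
  rw [intervalIntegral.integral_add (Continuous.intervalIntegrable (by fun_prop) _ _)
    (Continuous.intervalIntegrable (by fun_prop) _ _)]
  rw [intervalIntegral.integral_add (Continuous.intervalIntegrable (by fun_prop) _ _)
    (Continuous.intervalIntegrable (by fun_prop) _ _)]
  rw [ia, ib, iab]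
  simp

end Bs

end Pool.Agent.Helper962.Heis
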