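import Pool.Agent.Helper962.Heis.BInj
import Pool.Agent.Helper962.Heis.BPrim
import Pool.Agent.Helper962.Heis.BUmean

set_option autoImplicit false

noncomputable section

namespace Pool.Agent.Helper962.Heis

namespace Bs

theorem inj2_XX_per (x y t : ℝ) : XX (x, y, t + 1) = XX (x, y, t) := by
  unfold XX; rw [uE_per, uO_per]

theorem inj2_uu_per (x y t : ℝ) : uu (x, y, t + 1) = uu (x, y, t) := by
  unfold uu; rw [uE_per, uO_per]

theorem inj2_uu_cont (x y : ℝ) : Continuous (fun t : ℝ => uu (x, y, t)) := by
  unfold uu; exact (uE_cont x y).max (uO_cont x y)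

theorem inj2_XX_cont (x y : ℝ) : Continuous (fun t : ℝ => XX (x, y, t)) := by
  unfold XX
  exact (continuous_const.sub ((uE_cont x y).pow 2)).sub ((uO_cont x y).pow 2)

theorem inj2_pos (x y t c : ℝ) (hc0 : 0 ≤ c) (hc : c ≤ 1 / 4000) :
    3 * om * c ≤ |prim XX (x, y, t + c) - prim XX (x, y, t)|
      + |prim uu (x, y, t + c) - prim uu (x, y, t)| := by
  have hom : (0:ℝ) < om := by unfold om; norm_num
  have e1 := prim_diff XX (32 / om) (by positivity) inj2_XX_per XX_lip x y t c
  have e2 := prim_diff uu (8 / om) (by positivity) inj2_uu_per uu_lip x y t c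
  rw [e1, e2]
  have g1 : (fun s => gg XX (x, y, s)) = fun s => XX (x, y, s) - mean XX x y := rfl
  have g2 : (fun s => gg uu (x, y, s)) = fun s => uu (x, y, s) - mean uu x y := rfl
  have hcx := inj2_XX_cont x y
  have hcu := inj2_uu_cont x y
  have i1 : ∫ s in t..(t + c), gg XX (x, y, s) =
      (∫ s in t..(t + c), XX (x, y, s)) - c * mean XX x y := by
    rw [show (∫ s in t..(t + c), gg XX (x, y, s)) =
      ∫ s in t..(t + c), (XX (x, y, s) - mean XX x y) from rfl]
    rw [intervalIntegral.integral_sub (hcx.intervalIntegrable _ _)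
      (continuous_const.intervalIntegrable _ _), intervalIntegral.integral_const]
    simp
  have hle : t ≤ t + c := by linarith
  have hmX := mean_XX x y
  have hml := mean_uu_lower x y
  have hmu := mean_uu_upper x y
  have hab1 := abs_nonneg (∫ s in t..(t + c), gg XX (x, y, s))
  have hab2 := abs_nonneg (∫ s in t..(t + c), gg uu (x, y, s))
  have h3 : 3 * om * c ≤ 33 / 100 * c := by
    apply mul_le_mul_of_nonneg_right _ hc0
    unfold om; norm_num
  by_cases hJ : ∫ s in t..(t + c), XX (x, y, s) < 5 * om * c
  · rcases turn_or_straight x y t c hc0 hc hJ with hup | hdn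
    · have hint : 33 / 100 * c ≤ ∫ s in t..(t + c), gg uu (x, y, s) := by
        have h1 : ∫ _s in t..(t + c), (33 / 100 : ℝ) ≤ ∫ s in t..(t + c), gg uu (x, y, s) := by
          apply intervalIntegral.integral_mono_on hle
          · exact continuous_const.intervalIntegrable _ _
          · rw [g2]; exact (hcu.sub continuous_const).intervalIntegrable _ _
          · intro s hs
            have h2 := hup s hs
            have h4 : gg uu (x, y, s) = uu (x, y, s) - mean uu x y := rfl
            rw [h4]; linarith
        rw [intervalIntegral.integral_const] at h1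
        simp only [add_sub_cancel_left, smul_eq_mul] at h1
        linarith
      have h5 := le_abs_self (∫ s in t..(t + c), gg uu (x, y, s))
      linarith
    · have hint : ∫ s in t..(t + c), gg uu (x, y, s) ≤ -(33 / 100) * c := by
        have h1 : ∫ s in t..(t + c), gg uu (x, y, s) ≤ ∫ _s in t..(t + c), (-(33 / 100) : ℝ) := by
          apply intervalIntegral.integral_mono_on hle
          · rw [g2]; exact (hcu.sub continuous_const).intervalIntegrable _ _
          · exact continuous_const.intervalIntegrable _ _
          · intro s hs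
            have h2 := hdn s hs
            have h4 : gg uu (x, y, s) = uu (x, y, s) - mean uu x y := rfl
            rw [h4]; linarith
        rw [intervalIntegral.integral_const] at h1
        simp only [add_sub_cancel_left, smul_eq_mul] at h1
        linarith
      have h5 := neg_abs_le (∫ s in t..(t + c), gg uu (x, y, s))
      linarith
  · push Not at hJ
    have h5 := le_abs_self (∫ s in t..(t + c), gg XX (x, y, s))
    have h6 : c * mean XX x y ≤ c * (2 * om) := mul_le_mul_of_nonneg_left hmX.2 hc0
    rw [i1] at h5 hab1 ⊢
    nlinarith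

theorem prim_inj (x y t c : ℝ) (hc : |c| ≤ 1 / 4000) :
    3 * om * |c| ≤ |prim XX (x, y, t + c) - prim XX (x, y, t)|
      + |prim uu (x, y, t + c) - prim uu (x, y, t)| := by
  rcases le_total 0 c with h0 | h0
  · rw [abs_of_nonneg h0] at hc ⊢
    exact inj2_pos x y t c h0 hc
  · rw [abs_of_nonpos h0] at hc ⊢
    have h1 := inj2_pos x y (t + c) (-c) (by linarith) hc
    rw [show t + c + -c = t by ring] at h1
    rw [abs_sub_comm (prim XX (x, y, t + c)), abs_sub_comm (prim uu (x, y, t + c))]
    exact h1

end Bs

end Pool.Agent.Helper962.Heis
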