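import Pool.Agent.Helper962.Heis.BPrim
import Pool.Agent.Helper962.Heis.BUmean

set_option autoImplicit false

noncomputable section

namespace Pool.Agent.Helper962.Heis

namespace Bs

theorem speed_lower (p : P) : (1 / 4 : ℝ) ^ 2 ≤ gg XX p ^ 2 + gg uu p ^ 2 := by
  have hE := abs_le.1 (uE_bd p)
  have hO := abs_le.1 (uO_bd p)
  have h1 := mean_XX p.1 p.2.1
  have h2 := mean_uu_lower p.1 p.2.1
  have h3 := mean_uu_upper p.1 p.2.1
  have hom : om = 1 / 2000000 := rfl
  rw [hom] at h1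
  have hg1 : gg XX p = XX p - mean XX p.1 p.2.1 := rfl
  have hg2 : gg uu p = uu p - mean uu p.1 p.2.1 := rfl
  by_cases ha : 4 / 5 ≤ uu p
  · nlinarith [sq_nonneg (gg XX p)]
  by_cases hb : uu p ≤ -(4 / 5)
  · nlinarith [sq_nonneg (gg XX p)]
  push Not at ha hb
  have hX : 9 / 25 ≤ XX p := by
    have hXd : XX p = 2 - uE p ^ 2 - uO p ^ 2 := rfl
    have hud : uu p = max (uE p) (uO p) := rfl
    rw [hXd]
    rw [hud] at ha hb
    rcases le_total (uE p) (uO p) with h | h
    · rw [max_eq_right h] at ha hb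
      nlinarith
    · rw [max_eq_left h] at ha hb
      nlinarith
  have hgX : 1 / 4 ≤ gg XX p := by
    rw [hg1]; linarith
  nlinarith [sq_nonneg (gg uu p)]

end Bs

end Pool.Agent.Helper962.Heis
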