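import Pool.Agent.Helper962.Heis.BDefs

set_option autoImplicit false

noncomputable section

namespace Pool.Agent.Helper962.Heis

namespace Bs

theorem tri_near (x : ℝ) (n : ℤ) (h : |x - n| ≤ 1 / 2) : |x - round x| = |x - n| := by
  refine le_antisymm (round_le x n) ?_
  by_cases hn : round x = n
  · rw [hn]
  · have h1 : (1 : ℝ) ≤ |((round x : ℤ) : ℝ) - n| := by
      have h2 : (1 : ℤ) ≤ |round x - n| := Int.one_le_abs (sub_ne_zero.2 hn)
      exact_mod_cast h2
    have h3 : |((round x : ℤ) : ℝ) - n| ≤ |((round x : ℤ) : ℝ) - x| + |x - n| := abs_sub_le _ _ _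
    rw [abs_sub_comm ((round x : ℤ) : ℝ) x] at h3
    linarith
theorem tri_lip (a b : ℝ) : |tri a - tri b| ≤ 4 * |a - b| := by
  have h1 : |a - round a| ≤ |a - round b| := round_le a (round b)
  have h2 : |b - round b| ≤ |b - round a| := round_le b (round a)
  have h3 : |a - round b| ≤ |a - b| + |b - round b| := abs_sub_le _ _ _
  have h4 : |b - round a| ≤ |b - a| + |a - round a| := abs_sub_le _ _ _
  rw [abs_sub_comm b a] at h4
  unfold tri
  rw [abs_le]
  constructor <;> linarith
theorem tri_bd (a : ℝ) : |tri a| ≤ 1 := by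
  have h1 : |a - round a| ≤ 1 / 2 := abs_sub_round a
  have h2 : 0 ≤ |a - round a| := abs_nonneg _
  unfold tri
  rw [abs_le]
  constructor <;> linarith
theorem tri_per (a : ℝ) (n : ℤ) : tri (a + n) = tri a := by
  unfold tri
  rw [round_add_intCast]
  push_cast
  congr 3
  ring
theorem tri_half (a : ℝ) : tri (a + 1 / 2) = - tri a := by
  have h1 : |a - round a| ≤ 1 / 2 := abs_sub_round a
  have h1' := abs_le.1 h1
  unfold tri
  rcases le_total 0 (a - round a) with h0 | h0
  · have e : |a + 1 / 2 - ((round a + 1 : ℤ) : ℝ)| = 1 / 2 - |a - round a| := by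
      rw [abs_of_nonneg h0]
      push_cast
      rw [abs_of_nonpos (by linarith)]
      ring
    rw [tri_near (a + 1 / 2) (round a + 1) (by rw [e]; linarith [abs_nonneg (a - round a)]), e]
    ring
  · have e : |a + 1 / 2 - ((round a : ℤ) : ℝ)| = 1 / 2 - |a - round a| := by
      rw [abs_of_nonpos h0, abs_of_nonneg (by linarith)]
      ring
    rw [tri_near (a + 1 / 2) (round a) (by rw [e]; linarith [abs_nonneg (a - round a)]), e]
    ring
theorem cl_lip (a b : ℝ) : |cl a - cl b| ≤ |a - b| := by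
  unfold cl
  rcases abs_cases (a - b) with ⟨h1, h2⟩ | ⟨h1, h2⟩ <;> rw [h1, abs_le] <;> constructor <;>
    (simp only [max_def, min_def]; split_ifs <;> linarith)
theorem cl_bd (a : ℝ) : |cl a| ≤ 1 := by
  unfold cl
  rw [abs_le]
  exact ⟨le_max_left _ _, max_le (by norm_num) (min_le_left _ _)⟩
theorem cl_neg (a : ℝ) : cl (-a) = - cl a := by
  unfold cl
  simp only [max_def, min_def]
  split_ifs <;> linarith
theorem cl_mono (a b : ℝ) (h : a ≤ b) : cl a ≤ cl b := by
  unfold cl
  exact max_le_max le_rfl (min_le_min le_rfl h)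
theorem cl_low (a : ℝ) (h : a ≤ -1) : cl a = -1 := by
  unfold cl
  rw [min_eq_right (by linarith), max_eq_left h]
theorem al_lip (a b : ℝ) : |al a - al b| ≤ 4 * |a - b| := by
  have h := abs_abs_sub_abs_le_abs_sub a b
  have h' := abs_le.1 h
  obtain ⟨h1, h2⟩ := h'
  unfold al
  rw [abs_le]
  constructor <;> (simp only [max_def, min_def]; split_ifs <;> linarith)
theorem al_nonneg (a : ℝ) : 0 ≤ al a := by
  unfold al
  exact le_min (by norm_num) (mul_nonneg (by norm_num) (le_max_left _ _))
theorem al_zero (a : ℝ) (h : |a| ≤ 1 / 2) : al a = 0 := by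
  unfold al
  rw [max_eq_left (by linarith), mul_zero, min_eq_right (by norm_num)]
theorem al_far (a : ℝ) (h : 4 / 5 ≤ |a|) : 6 / 5 ≤ al a := by
  unfold al
  refine le_min (by norm_num) ?_
  have : |a| - 1 / 2 ≤ max 0 (|a| - 1 / 2) := le_max_right _ _
  linarith
theorem jE_dist (x : ℝ) : |x - jE x| ≤ 1 := by
  have h1 := abs_le.1 (abs_sub_round (x / 2))
  unfold jE
  rw [abs_le]
  constructor <;> linarith [h1.1, h1.2]
theorem jO_dist (x : ℝ) : |x - jO x| ≤ 1 := by
  have h1 := abs_le.1 (abs_sub_round ((x - 1) / 2))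
  unfold jO
  rw [abs_le]
  constructor <;> linarith [h1.1, h1.2]
theorem j_alt (x : ℝ) : |x - jE x| ≤ 1 / 2 ∨ |x - jO x| ≤ 1 / 2 := by
  by_cases h : |x - jE x| ≤ 1 / 2
  · exact Or.inl h
  · right
    push Not at h
    have h1 := abs_le.1 (jE_dist x)
    have key : ∀ n : ℤ, |(x - 1) / 2 - n| ≤ 1 / 4 → |x - jO x| ≤ 1 / 2 := by
      intro n hn
      have h2 := (round_le ((x - 1) / 2) n).trans hn
      have h3 := abs_le.1 h2
      unfold jO
      rw [abs_le]
      constructor <;> linarith [h3.1, h3.2]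
    rcases lt_abs.1 h with h2 | h2
    · refine key (round (x / 2)) ?_
      unfold jE at h1 h2
      rw [abs_le]
      constructor <;> linarith [h1.1, h1.2]
    · refine key (round (x / 2) - 1) ?_
      unfold jE at h1 h2
      push_cast
      rw [abs_le]
      constructor <;> linarith [h1.1, h1.2]

end Bs

end Pool.Agent.Helper962.Heis
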