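import Pool.Agent.Helper962.Heis.BTri

set_option autoImplicit false

noncomputable section

namespace Pool.Agent.Helper962.Heis

namespace Bs

theorem uper_tri_cont : Continuous tri := by
  have h : LipschitzWith 4 tri := by
    apply LipschitzWith.of_dist_le_mul
    intro a b
    rw [Real.dist_eq, Real.dist_eq]
    exact tri_lip a b
  exact h.continuous
theorem uper_cl_cont : Continuous cl := by
  unfold cl
  fun_prop
theorem uE_bd (p : P) : |uE p| ≤ 1 := cl_bd _
theorem uO_bd (p : P) : |uO p| ≤ 1 := cl_bd _
theorem uE_per (x y t : ℝ) : uE (x, y, t + 1) = uE (x, y, t) := by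
  have h1 : t + 1 - jE x * y = (t - jE x * y) + ((1 : ℤ) : ℝ) := by push_cast; ring
  show cl ((tri (t + 1 - jE x * y) - al (x - jE x)) / om) = cl ((tri (t - jE x * y) - al (x - jE x)) / om)
  rw [h1, tri_per]
theorem uO_per (x y t : ℝ) : uO (x, y, t + 1) = uO (x, y, t) := by
  have h1 : 2 * (t + 1 - jO x * y) = (2 * (t - jO x * y)) + ((2 : ℤ) : ℝ) := by push_cast; ring
  show cl ((tri (2 * (t + 1 - jO x * y)) - al (x - jO x)) / om) =
    cl ((tri (2 * (t - jO x * y)) - al (x - jO x)) / om)
  rw [h1, tri_per]
theorem uE_cont (x y : ℝ) : Continuous (fun t : ℝ => uE (x, y, t)) := by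
  show Continuous (fun t : ℝ => cl ((tri (t - jE x * y) - al (x - jE x)) / om))
  apply uper_cl_cont.comp
  exact ((uper_tri_cont.comp (continuous_id.sub continuous_const)).sub continuous_const).div_const _
theorem uO_cont (x y : ℝ) : Continuous (fun t : ℝ => uO (x, y, t)) := by
  show Continuous (fun t : ℝ => cl ((tri (2 * (t - jO x * y)) - al (x - jO x)) / om))
  apply uper_cl_cont.comp
  exact ((uper_tri_cont.comp (continuous_const.mul (continuous_id.sub continuous_const))).sub
    continuous_const).div_const _

end Bs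

end Pool.Agent.Helper962.Heis
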