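import Pool.Agent.Helper962.Heis.BInj2
import Pool.Agent.Helper962.Heis.BSpeedb

set_option autoImplicit false

noncomputable section

namespace Pool.Agent.Helper962.Heis

theorem base_XX_per (x y t : ℝ) : Bs.XX (x, y, t + 1) = Bs.XX (x, y, t) := by
  unfold Bs.XX
  rw [Bs.uE_per, Bs.uO_per]

theorem base_uu_per (x y t : ℝ) : Bs.uu (x, y, t + 1) = Bs.uu (x, y, t) := by
  unfold Bs.uu
  rw [Bs.uE_per, Bs.uO_per]

theorem base_uu_bd (p : P) : |Bs.uu p| ≤ 1 := by
  unfold Bs.uu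
  rcases max_choice (Bs.uE p) (Bs.uO p) with h | h
  · rw [h]; exact Bs.uE_bd p
  · rw [h]; exact Bs.uO_bd p

theorem base_XX_bd (p : P) : |Bs.XX p| ≤ 2 := by
  have h1 := Bs.uE_bd p
  have h2 := Bs.uO_bd p
  have h3 : Bs.uE p ^ 2 ≤ 1 := by
    rw [← sq_abs]
    exact pow_le_one₀ (abs_nonneg _) h1
  have h4 : Bs.uO p ^ 2 ≤ 1 := by
    rw [← sq_abs]
    exact pow_le_one₀ (abs_nonneg _) h2
  unfold Bs.XX
  rw [abs_le]
  constructor
  · nlinarith [sq_nonneg (Bs.uE p), sq_nonneg (Bs.uO p)]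
  · nlinarith [sq_nonneg (Bs.uE p), sq_nonneg (Bs.uO p)]

theorem base_om : Bs.om = 1 / 2000000 := rfl

theorem base_ompos : 0 < Bs.om := by rw [base_om]; norm_num

theorem base_uu_lip (p q : P) : |Bs.uu q - Bs.uu p| ≤ 32 / Bs.om * (ds p q + |dc p q|) := by
  refine (Bs.uu_lip p q).trans ?_
  refine mul_le_mul_of_nonneg_right ?_ (add_nonneg (ds_nonneg p q) (abs_nonneg _))
  have := base_ompos
  gcongr
  norm_num

theorem exists_base : Nonempty Base := by
  have hom := base_ompos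
  have hL : 0 ≤ 32 / Bs.om := by positivity
  have hC : 2 * (32 / Bs.om) = 64 / Bs.om := by ring
  have hC2 : (4 : ℝ) ≤ 64 / Bs.om := by rw [base_om]; norm_num
  exact ⟨{
    phi1 := Bs.prim Bs.XX
    phi2 := Bs.prim Bs.uu
    g1 := Bs.gg Bs.XX
    g2 := Bs.gg Bs.uu
    C := 64 / Bs.om
    cs := 1 / 4
    c0 := 3 * Bs.om
    tau := 1 / 4000
    kap := Bs.om
    hC := by linarith
    hcs := by norm_num
    hcs1 := by norm_num
    hc0 := by positivity
    htau := by norm_num
    htau1 := by norm_num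
    hkap := hom
    bphi1 := Bs.prim_XX_bd
    hkapC := by rw [base_om] at *; linarith
    bphi2 := fun p => (Bs.prim_bd Bs.uu 1 base_uu_bd p).trans (by linarith)
    bg1 := fun p => (Bs.gg_bd Bs.XX 2 base_XX_bd p).trans (by linarith)
    bg2 := fun p => (Bs.gg_bd Bs.uu 1 base_uu_bd p).trans (by linarith)
    lphi1 := fun p q => by
      rw [← hC]
      exact Bs.prim_lip Bs.XX (32 / Bs.om) hL base_XX_per Bs.XX_lip p q
    lphi2 := fun p q => by
      rw [← hC]
      exact Bs.prim_lip Bs.uu (32 / Bs.om) hL base_uu_per base_uu_lip p q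
    lg1 := fun p q => by
      rw [← hC]
      exact Bs.gg_lip Bs.XX (32 / Bs.om) hL base_XX_per Bs.XX_lip p q
    lg2 := fun p q => by
      rw [← hC]
      exact Bs.gg_lip Bs.uu (32 / Bs.om) hL base_uu_per base_uu_lip p q
    dphi1 := fun x y t c => by
      rw [← hC]
      exact Bs.prim_snd Bs.XX (32 / Bs.om) hL base_XX_per Bs.XX_lip x y t c
    dphi2 := fun x y t c => by
      rw [← hC]
      exact Bs.prim_snd Bs.uu (32 / Bs.om) hL base_uu_per base_uu_lip x y t c
    gpos := Bs.speed_lower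
    inj := fun x y t c hc => Bs.prim_inj x y t c hc
    ratio := by rw [base_om]; norm_num }⟩

end Pool.Agent.Helper962.Heis
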