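import Pool.Agent.Helper962.Heis.Defs

set_option autoImplicit false

noncomputable section

namespace Pool.Agent.Helper962.Heis

theorem ds_nonneg (p q : P) : 0 ≤ ds p q := by
  unfold ds
  positivity
theorem ds_dil (m : ℝ) (hm : 0 ≤ m) (p q : P) : ds (dil m p) (dil m q) = m * ds p q := by
  unfold ds dil
  simp only
  rw [← mul_sub, ← mul_sub, abs_mul, abs_mul, abs_of_nonneg hm, mul_add]
theorem dc_dil (m : ℝ) (p q : P) : dc (dil m p) (dil m q) = m ^ 2 * dc p q := by
  unfold dc dil
  simp only
  ring

end Pool.Agent.Helper962.Heis
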