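import Pool.Agent.Helper962.Heis.Rho
import Pool.Agent.Helper962.Heis.Basic

set_option autoImplicit false

noncomputable section

namespace Pool.Agent.Helper962.Heis

theorem coord_dc (p q : P) :
    dc (p.1, p.2.1, (p.2.2 + 2 * p.1 * p.2.1) / 4) (q.1, q.2.1, (q.2.2 + 2 * q.1 * q.2.1) / 4) =
      (q.2.2 - p.2.2 - 2 * (p.1 * q.2.1 - p.2.1 * q.1)) / 4 +
        (q.1 - p.1) * (q.2.1 - p.2.1) / 2 := by
  simp only [dc]
  ring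

/-- comparison of the two homogeneous sizes -/
theorem coord_cmp (x y V c : ℝ) (hc : c = V / 4 + x * y / 2) :
    (|x| + |y| + Real.sqrt |c|) ^ 4 ≤ 81 * ((x ^ 2 + y ^ 2) ^ 2 + V ^ 2) ∧
    ((x ^ 2 + y ^ 2) ^ 2 + V ^ 2) ≤ 81 * (|x| + |y| + Real.sqrt |c|) ^ 4 := by
  have ht2 : Real.sqrt |c| ^ 2 = |c| := Real.sq_sqrt (abs_nonneg c)
  have ht0 : 0 ≤ Real.sqrt |c| := Real.sqrt_nonneg _
  set t := Real.sqrt |c| with ht
  have hA0 := abs_nonneg x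
  have hB0 := abs_nonneg y
  have hA2 : |x| ^ 2 = x ^ 2 := sq_abs x
  have hB2 : |y| ^ 2 = y ^ 2 := sq_abs y
  have hc2 : t ^ 4 = c ^ 2 := by
    have : t ^ 4 = (t ^ 2) ^ 2 := by ring
    rw [this, ht2, sq_abs]
  set A := |x| with hA
  set B := |y| with hB
  constructor
  · have h1 : (A + B + t) ^ 2 ≤ 3 * (A ^ 2 + B ^ 2 + t ^ 2) := by
      nlinarith [sq_nonneg (A - B), sq_nonneg (A - t), sq_nonneg (B - t)]
    have h2 : (A ^ 2 + B ^ 2 + t ^ 2) ^ 2 ≤ 3 * (A ^ 4 + B ^ 4 + t ^ 4) := by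
      nlinarith [sq_nonneg (A ^ 2 - B ^ 2), sq_nonneg (A ^ 2 - t ^ 2), sq_nonneg (B ^ 2 - t ^ 2)]
    have h3 : (A + B + t) ^ 4 ≤ 27 * (A ^ 4 + B ^ 4 + t ^ 4) := by
      have h4 : (A + B + t) ^ 4 = ((A + B + t) ^ 2) ^ 2 := by ring
      have h5 : ((A + B + t) ^ 2) ^ 2 ≤ (3 * (A ^ 2 + B ^ 2 + t ^ 2)) ^ 2 :=
        pow_le_pow_left₀ (by positivity) h1 2
      rw [h4]
      linarith [h5, h2, mul_pow 3 (A ^ 2 + B ^ 2 + t ^ 2) 2]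
    have h6 : A ^ 4 + B ^ 4 ≤ (x ^ 2 + y ^ 2) ^ 2 := by
      have : A ^ 4 = (x ^ 2) ^ 2 := by rw [← hA2]; ring
      have h7 : B ^ 4 = (y ^ 2) ^ 2 := by rw [← hB2]; ring
      rw [this, h7]
      nlinarith [sq_nonneg x, sq_nonneg y, mul_nonneg (sq_nonneg x) (sq_nonneg y)]
    have h8 : c ^ 2 ≤ V ^ 2 / 8 + (x ^ 2 + y ^ 2) ^ 2 / 8 := by
      rw [hc]
      nlinarith [sq_nonneg (V / 4 - x * y / 2), sq_nonneg (x ^ 2 - y ^ 2)]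
    rw [hc2] at h3
    nlinarith [sq_nonneg V, sq_nonneg (x ^ 2 + y ^ 2)]
  · have hr : A + B ≤ A + B + t := by linarith
    have hr0 : 0 ≤ A + B + t := by positivity
    set r := A + B + t with hrdef
    have h1 : x ^ 2 + y ^ 2 ≤ r ^ 2 := by
      rw [← hA2, ← hB2]
      nlinarith [mul_nonneg hA0 hB0, mul_nonneg hA0 ht0, mul_nonneg hB0 ht0]
    have h2 : (x ^ 2 + y ^ 2) ^ 2 ≤ (r ^ 2) ^ 2 := pow_le_pow_left₀ (by positivity) h1 2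
    have h3 : |V| ≤ 5 * r ^ 2 := by
      have hV : V = 4 * c - 2 * (x * y) := by rw [hc]; ring
      have h4 : |V| ≤ 4 * |c| + 2 * (A * B) := by
        rw [hV]
        calc |4 * c - 2 * (x * y)| ≤ |4 * c| + |2 * (x * y)| := abs_sub _ _
          _ = 4 * |c| + 2 * (A * B) := by
            rw [abs_mul, abs_mul, abs_mul, abs_of_pos (by norm_num : (0:ℝ) < 4),
              abs_of_pos (by norm_num : (0:ℝ) < 2)]
      rw [← ht2] at h4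
      nlinarith [mul_nonneg hA0 hB0, mul_nonneg hA0 ht0, mul_nonneg hB0 ht0, sq_nonneg A,
        sq_nonneg B, sq_nonneg t]
    have h5 : V ^ 2 ≤ (5 * r ^ 2) ^ 2 := by
      rw [← sq_abs V]
      exact pow_le_pow_left₀ (abs_nonneg _) h3 2
    nlinarith [pow_nonneg hr0 4]

theorem coord_pow (r N ep : ℝ) (hr : 0 ≤ r) (hN : 0 ≤ N) (h0 : 0 < ep) (h1 : ep < 1)
    (ha : r ^ 4 ≤ 81 * N) (hb : N ≤ 81 * r ^ 4) :
    r ^ ep ≤ 3 * N ^ (ep / 4) ∧ N ^ (ep / 4) ≤ 3 * r ^ ep := by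
  have h81 : (81 : ℝ) ^ (ep / 4) ≤ 3 := by
    calc (81 : ℝ) ^ (ep / 4) ≤ (81 : ℝ) ^ ((1 : ℝ) / 4) :=
          Real.rpow_le_rpow_of_exponent_le (by norm_num) (by linarith)
      _ = 3 := by
        rw [show (81 : ℝ) = (3 : ℝ) ^ (4 : ℝ) by norm_num, ← Real.rpow_mul (by norm_num)]
        norm_num
  have hr4 : (r ^ 4) ^ (ep / 4) = r ^ ep := by
    rw [← Real.rpow_natCast r 4, ← Real.rpow_mul hr]
    congr 1
    push_cast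
    ring
  have hN' : 0 ≤ N ^ (ep / 4) := Real.rpow_nonneg hN _
  have hr' : 0 ≤ r ^ ep := Real.rpow_nonneg hr _
  constructor
  · calc r ^ ep = (r ^ 4) ^ (ep / 4) := hr4.symm
      _ ≤ (81 * N) ^ (ep / 4) := Real.rpow_le_rpow (by positivity) ha (by linarith)
      _ = 81 ^ (ep / 4) * N ^ (ep / 4) := Real.mul_rpow (by norm_num) hN
      _ ≤ 3 * N ^ (ep / 4) := mul_le_mul_of_nonneg_right h81 hN'
  · calc N ^ (ep / 4) ≤ (81 * r ^ 4) ^ (ep / 4) := Real.rpow_le_rpow hN hb (by linarith)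
      _ = 81 ^ (ep / 4) * (r ^ 4) ^ (ep / 4) := Real.mul_rpow (by norm_num) (by positivity)
      _ = 81 ^ (ep / 4) * r ^ ep := by rw [hr4]
      _ ≤ 3 * r ^ ep := mul_le_mul_of_nonneg_right h81 hr'

theorem to_symmetric (F : P → E) (ep C : ℝ) (h0 : 0 < ep) (h1 : ep < 1) (hC : 0 < C)
    (hF : ∀ p q : P, C⁻¹ * rho p q ^ ep ≤ ‖F q - F p‖ ∧ ‖F q - F p‖ ≤ C * rho p q ^ ep) :
    ∃ f : ℝ × ℝ × ℝ → EuclideanSpace ℝ (Fin 5), ∃ C : ℝ, 0 < C ∧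
      ∀ p q : ℝ × ℝ × ℝ,
          C⁻¹ * (((q.1 - p.1) ^ 2 + (q.2.1 - p.2.1) ^ 2) ^ 2
                + (q.2.2 - p.2.2 - 2 * (p.1 * q.2.1 - p.2.1 * q.1)) ^ 2) ^ (ep / 4)
              ≤ dist (f p) (f q) ∧
          dist (f p) (f q) ≤
            C * (((q.1 - p.1) ^ 2 + (q.2.1 - p.2.1) ^ 2) ^ 2
                + (q.2.2 - p.2.2 - 2 * (p.1 * q.2.1 - p.2.1 * q.1)) ^ 2) ^ (ep / 4) := by
  refine ⟨fun p => F (p.1, p.2.1, (p.2.2 + 2 * p.1 * p.2.1) / 4), 3 * C, by positivity, ?_⟩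
  intro p q
  obtain ⟨hl, hu⟩ := hF (p.1, p.2.1, (p.2.2 + 2 * p.1 * p.2.1) / 4)
    (q.1, q.2.1, (q.2.2 + 2 * q.1 * q.2.1) / 4)
  have hd : dist (F (p.1, p.2.1, (p.2.2 + 2 * p.1 * p.2.1) / 4))
      (F (q.1, q.2.1, (q.2.2 + 2 * q.1 * q.2.1) / 4)) =
      ‖F (q.1, q.2.1, (q.2.2 + 2 * q.1 * q.2.1) / 4) -
        F (p.1, p.2.1, (p.2.2 + 2 * p.1 * p.2.1) / 4)‖ := by
    rw [dist_comm, dist_eq_norm]
  have hrho : rho (p.1, p.2.1, (p.2.2 + 2 * p.1 * p.2.1) / 4)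
      (q.1, q.2.1, (q.2.2 + 2 * q.1 * q.2.1) / 4) = |q.1 - p.1| + |q.2.1 - p.2.1| +
        Real.sqrt |(q.2.2 - p.2.2 - 2 * (p.1 * q.2.1 - p.2.1 * q.1)) / 4 +
        (q.1 - p.1) * (q.2.1 - p.2.1) / 2| := by
    unfold rho
    rw [coord_dc]
    rfl
  rw [hrho] at hl hu
  obtain ⟨ca, cb⟩ := coord_cmp (q.1 - p.1) (q.2.1 - p.2.1)
    (q.2.2 - p.2.2 - 2 * (p.1 * q.2.1 - p.2.1 * q.1)) _ rfl
  set r := |q.1 - p.1| + |q.2.1 - p.2.1| +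
        Real.sqrt |(q.2.2 - p.2.2 - 2 * (p.1 * q.2.1 - p.2.1 * q.1)) / 4 +
        (q.1 - p.1) * (q.2.1 - p.2.1) / 2| with hr
  set N := ((q.1 - p.1) ^ 2 + (q.2.1 - p.2.1) ^ 2) ^ 2
                + (q.2.2 - p.2.2 - 2 * (p.1 * q.2.1 - p.2.1 * q.1)) ^ 2 with hN
  have hr0 : 0 ≤ r := by positivity
  have hN0 : 0 ≤ N := by positivity
  obtain ⟨pa, pb⟩ := coord_pow r N ep hr0 hN0 h0 h1 ca cb
  rw [hd]
  constructor
  · calc (3 * C)⁻¹ * N ^ (ep / 4) ≤ (3 * C)⁻¹ * (3 * r ^ ep) := by gcongr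
      _ = C⁻¹ * r ^ ep := by
        rw [mul_inv]
        ring
      _ ≤ _ := hl
  · calc _ ≤ C * r ^ ep := hu
      _ ≤ C * (3 * N ^ (ep / 4)) := by gcongr
      _ = 3 * C * N ^ (ep / 4) := by ring

end Pool.Agent.Helper962.Heis
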