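import Mathlib

set_option autoImplicit false

noncomputable section

namespace Pool.Agent.Helper962.Heis

/-- target space -/
abbrev E := EuclideanSpace ℝ (Fin 5)
/-- points of the Heisenberg group in polarised coordinates `(x, y, t)` -/
abbrev P := ℝ × ℝ × ℝ

/-- horizontal size of the displacement from `p` to `q` -/
def ds (p q : P) : ℝ := |q.1 - p.1| + |q.2.1 - p.2.1|
/-- vertical part of the displacement from `p` to `q` -/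
def dc (p q : P) : ℝ := q.2.2 - p.2.2 - p.1 * (q.2.1 - p.2.1)
/-- dilations -/
def dil (m : ℝ) (p : P) : P := (m * p.1, m * p.2.1, m ^ 2 * p.2.2)

/-- standard basis vector -/
def e (i : Fin 5) : E := EuclideanSpace.single i (1 : ℝ)

/-- rotation in the coordinate plane `i, j` sending `e i` to `c e i + s e j`
and `e j` to `- s e i + c e j` -/
def rotL (i j : Fin 5) (c s : ℝ) : E →ₗ[ℝ] E where
  toFun v := v + ((c - 1) * v i - s * v j) • e i + (s * v i + (c - 1) * v j) • e j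
  map_add' := by
    intro u v
    simp only [PiLp.add_apply]
    module
  map_smul' := by
    intro r v
    simp only [PiLp.smul_apply, smul_eq_mul, RingHom.id_apply]
    module

/-- base functions for the vertical step -/
structure Base where
  phi1 : P → ℝ
  phi2 : P → ℝ
  g1 : P → ℝ
  g2 : P → ℝ
  C : ℝ
  cs : ℝ
  c0 : ℝ
  tau : ℝ
  kap : ℝ
  hC : 1 ≤ C
  hcs : 0 < cs
  hcs1 : cs ≤ 1
  hc0 : 0 < c0
  htau : 0 < tau
  htau1 : tau ≤ 1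
  hkap : 0 < kap
  bphi1 : ∀ p, |phi1 p| ≤ kap
  hkapC : kap ≤ C
  bphi2 : ∀ p, |phi2 p| ≤ C
  bg1 : ∀ p, |g1 p| ≤ C
  bg2 : ∀ p, |g2 p| ≤ C
  lphi1 : ∀ p q, |phi1 q - phi1 p| ≤ C * (ds p q + |dc p q|)
  lphi2 : ∀ p q, |phi2 q - phi2 p| ≤ C * (ds p q + |dc p q|)
  lg1 : ∀ p q, |g1 q - g1 p| ≤ C * (ds p q + |dc p q|)
  lg2 : ∀ p q, |g2 q - g2 p| ≤ C * (ds p q + |dc p q|)
  dphi1 : ∀ x y t c : ℝ, |phi1 (x, y, t + c) - phi1 (x, y, t) - g1 (x, y, t) * c| ≤ C * c ^ 2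
  dphi2 : ∀ x y t c : ℝ, |phi2 (x, y, t + c) - phi2 (x, y, t) - g2 (x, y, t) * c| ≤ C * c ^ 2
  gpos : ∀ p, cs ^ 2 ≤ g1 p ^ 2 + g2 p ^ 2
  inj : ∀ x y t c : ℝ, |c| ≤ tau →
    c0 * |c| ≤ |phi1 (x, y, t + c) - phi1 (x, y, t)| + |phi2 (x, y, t + c) - phi2 (x, y, t)|
  ratio : 64 * kap ≤ cs * tau

/-- parameters of the construction -/
structure Par extends Base where
  be : ℝ
  K : ℝ
  bT : ℝ
  eta : ℝ
  del : ℝ
  th : ℝ
  sig : ℝ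

namespace Par
variable (a : Par)

/-- Lipschitz constant of the vertical frame -/
def CQ : ℝ := 8 * a.C / a.cs
def Gam : ℝ := Real.sqrt (1 + a.be ^ 2)
def R : ℝ := a.K ^ 4
def mu (m : ℕ) : ℝ := a.R ^ m
def G (m : ℕ) : ℝ := a.Gam ^ m
def S (m : ℕ) : ℝ := a.bT * a.G m * a.mu m
def AV (m : ℕ) : ℝ := a.bT * a.G (m + 1) / a.mu (m + 1)
def AX (m : ℕ) : ℝ := a.be * a.G m / (a.K * a.mu (m + 1))
def AY (m : ℕ) : ℝ := a.be * a.G m / (a.K ^ 2 * a.mu (m + 1))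
def NX (m : ℕ) : ℝ := a.K * a.mu (m + 1)
def NY (m : ℕ) : ℝ := a.K ^ 2 * a.mu (m + 1)

/-- vertical speed -/
def r (p : P) : ℝ := Real.sqrt (a.g1 p ^ 2 + a.g2 p ^ 2)

/-- vertical corrugation at level `m` -/
def phV (m : ℕ) (p : P) : E :=
  a.phi1 (dil (a.mu (m + 1)) p) • e 3 + a.phi2 (dil (a.mu (m + 1)) p) • e 4
def QV (m : ℕ) (p : P) : E →ₗ[ℝ] E :=
  (rotL 3 4 (a.g1 (dil (a.mu (m + 1)) p) / a.r (dil (a.mu (m + 1)) p))
    (a.g2 (dil (a.mu (m + 1)) p) / a.r (dil (a.mu (m + 1)) p))) ∘ₗ (rotL 2 3 0 1)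
def phX (m : ℕ) (p : P) : E :=
  Real.cos (a.NX m * p.1) • e 3 + Real.sin (a.NX m * p.1) • e 4
def QX (m : ℕ) (p : P) : E →ₗ[ℝ] E :=
  (rotL 3 4 (Real.cos (a.NX m * p.1)) (Real.sin (a.NX m * p.1))) ∘ₗ
    (rotL 0 4 (1 / a.Gam) (a.be / a.Gam)) ∘ₗ
    (rotL 3 4 (Real.cos (a.NX m * p.1)) (-Real.sin (a.NX m * p.1)))
def phY (m : ℕ) (p : P) : E :=
  Real.cos (a.NY m * p.2.1) • e 3 + Real.sin (a.NY m * p.2.1) • e 4
def QY (m : ℕ) (p : P) : E →ₗ[ℝ] E :=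
  (rotL 3 4 (Real.cos (a.NY m * p.2.1)) (Real.sin (a.NY m * p.2.1))) ∘ₗ
    (rotL 1 4 (1 / a.Gam) (a.be / a.Gam)) ∘ₗ
    (rotL 3 4 (Real.cos (a.NY m * p.2.1)) (-Real.sin (a.NY m * p.2.1)))

/-- the maps and frames after complete level `m`; level `0` is the linear map -/
def st : ℕ → (P → E) × (P → (E →ₗ[ℝ] E))
  | 0 => (fun p => p.1 • e 0 + p.2.1 • e 1 + (a.bT * p.2.2) • e 2, fun _ => LinearMap.id)
  | m + 1 =>
    (fun p => (st m).1 p + a.AV m • (st m).2 p (a.phV m p)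
        + a.AX m • (st m).2 p (a.QV m p (a.phX m p))
        + a.AY m • (st m).2 p (a.QV m p (a.QX m p (a.phY m p))),
     fun p => (st m).2 p ∘ₗ a.QV m p ∘ₗ a.QX m p ∘ₗ a.QY m p)

def fS (m : ℕ) (p : P) : E := (a.st m).1 p
def FS (m : ℕ) (p : P) : E →ₗ[ℝ] E := (a.st m).2 p
def fV (m : ℕ) (p : P) : E := a.fS m p + a.AV m • a.FS m p (a.phV m p)
def FV (m : ℕ) (p : P) : E →ₗ[ℝ] E := a.FS m p ∘ₗ a.QV m p
def fX (m : ℕ) (p : P) : E := a.fV m p + a.AX m • a.FV m p (a.phX m p)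
def FX (m : ℕ) (p : P) : E →ₗ[ℝ] E := a.FV m p ∘ₗ a.QX m p

/-- normalised vertical speed after level `m` -/
def rr : ℕ → P → ℝ
  | 0, _ => 1
  | m + 1, p => a.r (dil (a.mu (m + 1)) p)

def ES (m : ℕ) (p q : P) : ℝ :=
  6 * a.K ^ 2 * a.mu m * ds p q + 2 * a.CQ * a.mu m ^ 2 * |dc p q|
def EV (m : ℕ) (p q : P) : ℝ :=
  2 * a.CQ * a.mu (m + 1) * ds p q + 2 * a.CQ * a.mu (m + 1) ^ 2 * |dc p q|
def EX (m : ℕ) (p q : P) : ℝ :=
  6 * a.K * a.mu (m + 1) * ds p q + 2 * a.CQ * a.mu (m + 1) ^ 2 * |dc p q|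

/-- linear part with coefficients `u, v, w` -/
def lin (u v w : ℝ) (p q : P) : E :=
  (u * (q.1 - p.1)) • e 0 + (v * (q.2.1 - p.2.1)) • e 1 + (w * dc p q) • e 2

def errS (m : ℕ) (p q : P) : ℝ :=
  a.eta * a.G m * ds p q + a.eta * a.S m * |dc p q|
    + a.ES m p q * (a.G m * ds p q + a.S m * |dc p q|)
def errV (m : ℕ) (p q : P) : ℝ :=
  (a.eta + a.th) * a.G m * ds p q + (1 / 2) * a.eta * a.S (m + 1) * |dc p q|
    + a.EV m p q * (a.G m * ds p q + a.S (m + 1) * |dc p q|)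
def errX (m : ℕ) (p q : P) : ℝ :=
  (a.eta + 2 * a.th) * a.G m * ds p q + (3 / 4) * a.eta * a.S (m + 1) * |dc p q|
    + a.EX m p q * (a.G m * ds p q + a.S (m + 1) * |dc p q|)

end Par

/-- the list of inequalities required of the parameters -/
structure Par.Good (a : Par) : Prop where
  be0 : 0 < a.be
  be1 : a.be ≤ 1 / 100
  be2 : 768 * a.be * a.C ≤ a.cs * a.tau
  eta0 : 0 < a.eta
  del0 : 0 < a.del
  etadel : 2 * a.eta + a.del ≤ a.cs / 48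
  th0 : 0 < a.th
  th1 : a.eta + 4 * a.th ≤ a.eta * a.Gam
  bT0 : 0 < a.bT
  bT1 : a.bT ≤ a.eta
  bT2 : 20 * a.C * a.bT ≤ a.th
  bT3 : 64 * a.C * a.bT ≤ 1
  sig0 : 0 < a.sig
  sig1 : 4 * a.CQ * a.sig ≤ a.del
  sig2 : 16 * a.C * a.CQ * a.sig ≤ a.c0 * a.del
  sig3 : (1 + 16 * a.C) * a.sig * (128 * a.CQ) ≤ a.bT * a.c0 * a.del
  kA : 2 * (1 + 2 * a.C + 4 * a.C * a.CQ) ≤ a.eta * a.K
  kB : 8 * a.CQ ≤ a.eta * a.bT * a.K
  kC : 2 * a.CQ + 4 ≤ a.th * a.K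
  kD : 1000 ≤ a.del * a.K
  kE : 100 * a.CQ ≤ a.cs * a.bT * a.del * a.K
  kF : 8 ≤ a.sig * a.K
  kG : (2 + 8 * a.C * a.CQ) * (128 * a.CQ) ≤ a.bT * a.c0 * a.del * a.K
  kH : 64 * a.CQ ≤ a.c0 * a.del * a.K
  kI : 16 ≤ a.cs * a.tau * a.bT * a.K
  kJ : a.CQ ≤ a.K
  kK : 100 ≤ a.K

end Pool.Agent.Helper962.Heis
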