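import Pool.Agent.Helper962.Heis.Rho
import Pool.Agent.Helper962.Heis.Basic

set_option autoImplicit false

noncomputable section

namespace Pool.Agent.Helper962.Heis

theorem glob_rho_dil (c : ℝ) (hc : 0 ≤ c) (p q : P) : rho (dil c p) (dil c q) = c * rho p q := by
  unfold rho
  rw [ds_dil c hc, dc_dil, abs_mul, abs_of_nonneg (sq_nonneg c), Real.sqrt_mul (sq_nonneg c),
    Real.sqrt_sq hc]
  ring

theorem glob_rho_nonneg (p q : P) : 0 ≤ rho p q := by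
  unfold rho
  have := ds_nonneg p q
  positivity

theorem globalize (F : P → E) (ep C r0 : ℝ) (h0 : 0 < ep) (h1 : ep < 1) (hC : 0 < C) (hr : 0 < r0)
    (hF : ∀ p q : P, |p.1| ≤ 1 → rho p q ≤ r0 →
      C⁻¹ * rho p q ^ ep ≤ ‖F q - F p‖ ∧ ‖F q - F p‖ ≤ C * rho p q ^ ep) :
    ∃ F' : P → E, ∀ p q : P,
      C⁻¹ * rho p q ^ ep ≤ ‖F' q - F' p‖ ∧ ‖F' q - F' p‖ ≤ C * rho p q ^ ep := by
  let Fn : ℕ → P → E := fun n p => ((n : ℝ) + 1) ^ ep • (F (dil (1 / ((n : ℝ) + 1)) p) - F 0)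
  have hpos : ∀ n : ℕ, (0 : ℝ) < (n : ℝ) + 1 := fun n => by positivity
  have hev : ∀ p q : P, ∀ᶠ n : ℕ in Filter.atTop,
      C⁻¹ * rho p q ^ ep ≤ ‖Fn n q - Fn n p‖ ∧ ‖Fn n q - Fn n p‖ ≤ C * rho p q ^ ep := by
    intro p q
    obtain ⟨N1, hN1⟩ := exists_nat_ge |p.1|
    obtain ⟨N2, hN2⟩ := exists_nat_ge (rho p q / r0)
    filter_upwards [Filter.eventually_ge_atTop (max N1 N2)] with n hn
    have hn1 : |p.1| ≤ (n : ℝ) + 1 := by
      have : (N1 : ℝ) ≤ n := by exact_mod_cast le_trans (le_max_left _ _) hn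
      linarith
    have hn2 : rho p q ≤ ((n : ℝ) + 1) * r0 := by
      have : (N2 : ℝ) ≤ n := by exact_mod_cast le_trans (le_max_right _ _) hn
      have h3 : rho p q / r0 ≤ (n : ℝ) + 1 := by linarith
      rwa [div_le_iff₀ hr] at h3
    have hc : (0 : ℝ) ≤ 1 / ((n : ℝ) + 1) := by have := hpos n; positivity
    have hA : |(dil (1 / ((n : ℝ) + 1)) p).1| ≤ 1 := by
      change |1 / ((n : ℝ) + 1) * p.1| ≤ 1
      rw [abs_mul, abs_of_nonneg hc, one_div, inv_mul_le_iff₀ (hpos n)]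
      simpa using hn1
    have hB : rho (dil (1 / ((n : ℝ) + 1)) p) (dil (1 / ((n : ℝ) + 1)) q) ≤ r0 := by
      rw [glob_rho_dil _ hc, one_div, inv_mul_le_iff₀ (hpos n)]
      exact hn2
    obtain ⟨hl, hu⟩ := hF _ _ hA hB
    rw [glob_rho_dil _ hc] at hl hu
    have hd : Fn n q - Fn n p = ((n : ℝ) + 1) ^ ep • (F (dil (1 / ((n : ℝ) + 1)) q)
        - F (dil (1 / ((n : ℝ) + 1)) p)) := by
      simp only [Fn]
      rw [← smul_sub]
      congr 1
      abel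
    have hpw : (0 : ℝ) < ((n : ℝ) + 1) ^ ep := Real.rpow_pos_of_pos (hpos n) ep
    have hnorm : ‖Fn n q - Fn n p‖ = ((n : ℝ) + 1) ^ ep * ‖F (dil (1 / ((n : ℝ) + 1)) q)
        - F (dil (1 / ((n : ℝ) + 1)) p)‖ := by
      rw [hd, norm_smul, Real.norm_of_nonneg hpw.le]
    have hmul : ((n : ℝ) + 1) ^ ep * (1 / ((n : ℝ) + 1) * rho p q) ^ ep = rho p q ^ ep := by
      rw [← Real.mul_rpow (hpos n).le (mul_nonneg hc (glob_rho_nonneg p q))]
      congr 1
      have := (hpos n).ne'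
      field_simp
    rw [hnorm]
    constructor
    · calc C⁻¹ * rho p q ^ ep = ((n : ℝ) + 1) ^ ep * (C⁻¹ * (1 / ((n : ℝ) + 1) * rho p q) ^ ep) := by
            rw [← hmul]; ring
        _ ≤ _ := mul_le_mul_of_nonneg_left hl hpw.le
    · calc _ ≤ ((n : ℝ) + 1) ^ ep * (C * (1 / ((n : ℝ) + 1) * rho p q) ^ ep) :=
            mul_le_mul_of_nonneg_left hu hpw.le
        _ = C * rho p q ^ ep := by rw [← hmul]; ring
  have hFn0 : ∀ n, Fn n 0 = 0 := by
    intro n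
    have : dil (1 / ((n : ℝ) + 1)) (0 : P) = 0 := by
      simp [dil]
    simp only [Fn, this, sub_self, smul_zero]
  let U : Ultrafilter ℕ := Filter.hyperfilter ℕ
  have hU : (U : Filter ℕ) ≤ Filter.atTop := Nat.hyperfilter_le_atTop
  have hlim : ∀ p : P, ∃ x : E, Filter.Tendsto (fun n => Fn n p) U (nhds x) := by
    intro p
    have hbd : ∀ᶠ n in (U : Filter ℕ), Fn n p ∈ Metric.closedBall (0 : E) (C * rho 0 p ^ ep) := by
      filter_upwards [hU (hev 0 p)] with n hn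
      rw [mem_closedBall_zero_iff]
      have h := hn.2
      rwa [hFn0, sub_zero] at h
    obtain ⟨x, _, hx⟩ := (isCompact_closedBall (0 : E) (C * rho 0 p ^ ep)).ultrafilter_le_nhds
      (U.map (fun n => Fn n p)) (by
        rw [Filter.le_principal_iff]
        exact hbd)
    exact ⟨x, hx⟩
  choose F' hF' using hlim
  refine ⟨F', fun p q => ?_⟩
  have ht : Filter.Tendsto (fun n => ‖Fn n q - Fn n p‖) U (nhds ‖F' q - F' p‖) :=
    ((hF' q).sub (hF' p)).norm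
  have he : ∀ᶠ n in (U : Filter ℕ),
      C⁻¹ * rho p q ^ ep ≤ ‖Fn n q - Fn n p‖ ∧ ‖Fn n q - Fn n p‖ ≤ C * rho p q ^ ep := hU (hev p q)
  exact ⟨ge_of_tendsto ht (he.mono fun n h => h.1), le_of_tendsto ht (he.mono fun n h => h.2)⟩

end Pool.Agent.Helper962.Heis
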