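import Pool.Agent.Helper962.Heis.Orth

set_option autoImplicit false

noncomputable section

namespace Pool.Agent.Helper962.Heis

namespace Par
variable (a : Par)

theorem one_le_mu (h : a.Good) (m : ℕ) : 1 ≤ a.mu m := by
  unfold mu R
  have h1 := h.kK
  exact one_le_pow₀ (one_le_pow₀ (by linarith))
theorem mu_succ (m : ℕ) : a.mu (m + 1) = a.K ^ 4 * a.mu m := by
  unfold mu R
  rw [pow_succ]
  ring
theorem Gam_bounds (h : a.Good) : 1 < a.Gam ∧ a.Gam ^ 2 = 1 + a.be ^ 2 ∧ a.Gam ≤ 101 / 100 := by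
  have h0 := h.be0
  have h1 := h.be1
  have hb : 0 < a.be ^ 2 := by positivity
  have hb' : a.be ^ 2 ≤ 1 / 10000 := by nlinarith
  refine ⟨?_, ?_, ?_⟩
  · unfold Gam
    rw [Real.lt_sqrt (by norm_num)]
    linarith
  · unfold Gam
    rw [Real.sq_sqrt (by positivity)]
  · unfold Gam
    rw [Real.sqrt_le_left (by norm_num)]
    norm_num
    linarith
theorem one_le_G (h : a.Good) (m : ℕ) : 1 ≤ a.G m := by
  unfold G
  exact one_le_pow₀ (Gam_bounds a h).1.le
theorem G_succ (m : ℕ) : a.G (m + 1) = a.Gam * a.G m := by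
  unfold G
  rw [pow_succ]
  ring
theorem eight_le_CQ : 8 ≤ a.CQ := by
  unfold CQ
  have h1 := a.hC
  have h2 := a.hcs
  have h3 := a.hcs1
  rw [le_div_iff₀ h2]
  linarith

end Par

end Pool.Agent.Helper962.Heis
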