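import Pool.Agent.Helper962.Heis.Speed
import Pool.Agent.Helper962.Heis.Pos

set_option autoImplicit false

noncomputable section

namespace Pool.Agent.Helper962.Heis

theorem good_aux (c d K : ℝ) (hd : 0 < d) (h : c / d ≤ K) : c ≤ d * K := by
  rwa [div_le_iff₀' hd] at h

theorem good_aux' (c d K : ℝ) (hd : 0 < d) (h : K ≤ c / d) : d * K ≤ c := by
  rwa [le_div_iff₀' hd] at h

theorem exists_good (b : Base) : ∃ a : Par, a.toBase = b ∧ a.Good := by
  obtain ⟨be, hbe⟩ : ∃ be : ℝ, be = b.cs * b.tau / (800 * b.C) := ⟨_, rfl⟩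
  obtain ⟨Gam, hGam⟩ : ∃ G : ℝ, G = Real.sqrt (1 + be ^ 2) := ⟨_, rfl⟩
  obtain ⟨eta, heta⟩ : ∃ e : ℝ, e = b.cs / 200 := ⟨_, rfl⟩
  obtain ⟨th, hth⟩ : ∃ e : ℝ, e = eta * (Gam - 1) / 4 := ⟨_, rfl⟩
  obtain ⟨bT, hbT⟩ : ∃ e : ℝ, e = th / (64 * b.C) := ⟨_, rfl⟩
  obtain ⟨CQ, hCQ⟩ : ∃ e : ℝ, e = 8 * b.C / b.cs := ⟨_, rfl⟩
  have hC := b.hC
  have hcs := b.hcs
  have hcs1 := b.hcs1
  have hc0 := b.hc0
  have htau := b.htau
  have htau1 := b.htau1
  have hC0 : 0 < b.C := by linarith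
  have hbe0 : 0 < be := by rw [hbe]; positivity
  have hbe1 : be ≤ 1 / 800 := by
    rw [hbe, div_le_div_iff₀ (by positivity) (by norm_num)]
    have : b.cs * b.tau ≤ 1 := by nlinarith
    nlinarith
  have hG1 : 1 < Gam := by
    rw [hGam]
    apply Real.lt_sqrt_of_sq_lt
    nlinarith [sq_nonneg be, pow_pos hbe0 2]
  have hG2 : Gam ≤ 2 := by
    rw [hGam, Real.sqrt_le_left (by norm_num)]
    nlinarith
  have heta0 : 0 < eta := by rw [heta]; positivity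
  have heta1 : eta ≤ 1 := by rw [heta]; linarith
  have hth0 : 0 < th := by
    rw [hth]
    have : 0 < Gam - 1 := by linarith
    positivity
  have hth1 : th ≤ eta := by
    rw [hth]
    nlinarith
  have hbT0 : 0 < bT := by rw [hbT]; positivity
  have hbT1 : 64 * b.C * bT = th := by
    rw [hbT]; field_simp
  have hCQ0 : 0 < CQ := by rw [hCQ]; positivity
  obtain ⟨sig, hsig⟩ : ∃ e : ℝ, e = min (eta / (4 * CQ)) (min (b.c0 * eta / (16 * b.C * CQ))
    (bT * b.c0 * eta / ((1 + 16 * b.C) * (128 * CQ)))) := ⟨_, rfl⟩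
  have hsig0 : 0 < sig := by
    rw [hsig]
    refine lt_min (by positivity) (lt_min (by positivity) (by positivity))
  have hs1 : sig ≤ eta / (4 * CQ) := by rw [hsig]; exact min_le_left _ _
  have hs2 : sig ≤ b.c0 * eta / (16 * b.C * CQ) := by
    rw [hsig]; exact (min_le_right _ _).trans (min_le_left _ _)
  have hs3 : sig ≤ bT * b.c0 * eta / ((1 + 16 * b.C) * (128 * CQ)) := by
    rw [hsig]; exact (min_le_right _ _).trans (min_le_right _ _)
  obtain ⟨kA, hkA⟩ : ∃ e : ℝ, e = 2 * (1 + 2 * b.C + 4 * b.C * CQ) / eta := ⟨_, rfl⟩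
  obtain ⟨kB, hkB⟩ : ∃ e : ℝ, e = 8 * CQ / (eta * bT) := ⟨_, rfl⟩
  obtain ⟨kC, hkC⟩ : ∃ e : ℝ, e = (2 * CQ + 4) / th := ⟨_, rfl⟩
  obtain ⟨kD, hkD⟩ : ∃ e : ℝ, e = 1000 / eta := ⟨_, rfl⟩
  obtain ⟨kE, hkE⟩ : ∃ e : ℝ, e = 100 * CQ / (b.cs * bT * eta) := ⟨_, rfl⟩
  obtain ⟨kF, hkF⟩ : ∃ e : ℝ, e = 8 / sig := ⟨_, rfl⟩
  obtain ⟨kG, hkG⟩ : ∃ e : ℝ, e = (2 + 8 * b.C * CQ) * (128 * CQ) / (bT * b.c0 * eta) := ⟨_, rfl⟩
  obtain ⟨kH, hkH⟩ : ∃ e : ℝ, e = 64 * CQ / (b.c0 * eta) := ⟨_, rfl⟩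
  obtain ⟨kI, hkI⟩ : ∃ e : ℝ, e = 16 / (b.cs * b.tau * bT) := ⟨_, rfl⟩
  have hkA0 : 0 ≤ kA := by rw [hkA]; positivity
  have hkB0 : 0 ≤ kB := by rw [hkB]; positivity
  have hkC0 : 0 ≤ kC := by rw [hkC]; positivity
  have hkD0 : 0 ≤ kD := by rw [hkD]; positivity
  have hkE0 : 0 ≤ kE := by rw [hkE]; positivity
  have hkF0 : 0 ≤ kF := by rw [hkF]; positivity
  have hkG0 : 0 ≤ kG := by rw [hkG]; positivity
  have hkH0 : 0 ≤ kH := by rw [hkH]; positivity
  have hkI0 : 0 ≤ kI := by rw [hkI]; positivity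
  obtain ⟨K, hK⟩ : ∃ e : ℝ, e = kA + kB + kC + kD + kE + kF + kG + kH + kI + CQ + 100 := ⟨_, rfl⟩
  refine ⟨Par.mk b be K bT eta eta th sig, rfl, ?_⟩
  have hCQ' : (Par.mk b be K bT eta eta th sig).CQ = CQ := hCQ.symm
  have hGam' : (Par.mk b be K bT eta eta th sig).Gam = Gam := hGam.symm
  constructor
  · exact hbe0
  · exact hbe1.trans (by norm_num)
  · change 768 * be * b.C ≤ b.cs * b.tau
    have : be * b.C = b.cs * b.tau / 800 := by rw [hbe]; field_simp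
    have h2 : 0 < b.cs * b.tau := by positivity
    nlinarith
  · exact heta0
  · exact heta0
  · change 2 * eta + eta ≤ b.cs / 48
    rw [heta]; linarith
  · exact hth0
  · rw [hGam']
    change eta + 4 * th ≤ eta * Gam
    rw [hth]; linarith
  · exact hbT0
  · change bT ≤ eta
    have : bT ≤ th := by nlinarith
    linarith
  · change 20 * b.C * bT ≤ th
    nlinarith [mul_pos hC0 hbT0]
  · change 64 * b.C * bT ≤ 1
    rw [hbT1]; linarith
  · exact hsig0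
  · rw [hCQ']
    exact good_aux' _ _ _ (by positivity) hs1
  · rw [hCQ']
    exact good_aux' _ _ _ (by positivity) hs2
  · rw [hCQ']
    change (1 + 16 * b.C) * sig * (128 * CQ) ≤ bT * b.c0 * eta
    have := good_aux' _ _ _ (by positivity) hs3
    linarith
  · rw [hCQ']
    exact good_aux _ _ _ (by positivity) (show _ ≤ K by rw [← hkA, hK]; linarith)
  · rw [hCQ']
    exact good_aux _ _ _ (by positivity) (show _ ≤ K by rw [← hkB, hK]; linarith)
  · rw [hCQ']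
    exact good_aux _ _ _ (by positivity) (show _ ≤ K by rw [← hkC, hK]; linarith)
  · exact good_aux _ _ _ (by positivity) (show _ ≤ K by rw [← hkD, hK]; linarith)
  · rw [hCQ']
    exact good_aux _ _ _ (by positivity) (show _ ≤ K by rw [← hkE, hK]; linarith)
  · exact good_aux _ _ _ (by positivity) (show _ ≤ K by rw [← hkF, hK]; linarith)
  · rw [hCQ']
    exact good_aux _ _ _ (by positivity) (show _ ≤ K by rw [← hkG, hK]; linarith)
  · rw [hCQ']
    exact good_aux _ _ _ (by positivity) (show _ ≤ K by rw [← hkH, hK]; linarith)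
  · exact good_aux _ _ _ (by positivity) (show _ ≤ K by rw [← hkI, hK]; linarith)
  · rw [hCQ']
    change CQ ≤ K
    rw [hK]; linarith
  · change 100 ≤ K
    rw [hK]; linarith

end Pool.Agent.Helper962.Heis
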