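import Pool.Agent.Helper962.Heis.Upall
import Pool.Agent.Helper962.Heis.Good

set_option autoImplicit false

noncomputable section

namespace Pool.Agent.Helper962.Heis

theorem Par.loc_G (a : Par) (h : a.Good) : ∃ s : ℝ, 0 < s ∧ s < 1 ∧
    ∀ m : ℕ, a.G m / a.mu m = (a.mu m) ^ (-(1 - s)) := by
  obtain ⟨hG1, -, hG2⟩ := Par.Gam_bounds a h
  have hK := h.kK
  have hX : 100 < a.K ^ 4 := by
    have : (100 : ℝ) ^ 4 ≤ a.K ^ 4 := by gcongr
    norm_num at this
    linarith
  have hL : 0 < Real.log (a.K ^ 4) := Real.log_pos (by linarith)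
  have hg : 0 < Real.log a.Gam := Real.log_pos hG1
  have hlt : Real.log a.Gam < Real.log (a.K ^ 4) := Real.log_lt_log (by linarith) (by linarith)
  refine ⟨Real.log a.Gam / Real.log (a.K ^ 4), div_pos hg hL, (div_lt_one hL).mpr hlt, ?_⟩
  intro m
  obtain ⟨s, hs⟩ : ∃ s, s = Real.log a.Gam / Real.log (a.K ^ 4) := ⟨_, rfl⟩
  rw [← hs]
  have hX0 : 0 < a.K ^ 4 := by linarith
  have hGam : a.Gam = (a.K ^ 4) ^ s := by
    rw [Real.rpow_def_of_pos hX0, hs, mul_div_cancel₀ _ hL.ne', Real.exp_log (by linarith)]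
  have hmu : 0 < a.mu m := by have := Par.one_le_mu a h m; linarith
  have hGm : a.G m = (a.mu m) ^ s := by
    unfold Par.G Par.mu Par.R
    rw [hGam, ← Real.rpow_natCast ((a.K ^ 4) ^ s) m, ← Real.rpow_mul hX0.le, mul_comm s,
      Real.rpow_mul hX0.le, Real.rpow_natCast]
  rw [hGm, ← Real.rpow_sub_one hmu.ne']
  congr 1
  ring

theorem Par.local_holder (a : Par) (h : a.Good) : ∃ (F : P → E) (ep C r0 : ℝ),
    0 < ep ∧ ep < 1 ∧ 0 < C ∧ 0 < r0 ∧ ∀ p q : P, |p.1| ≤ 1 → rho p q ≤ r0 →
      C⁻¹ * rho p q ^ ep ≤ ‖F q - F p‖ ∧ ‖F q - F p‖ ≤ C * rho p q ^ ep := by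
  classical
  obtain ⟨F, hF⟩ := Par.exists_limit a h
  obtain ⟨s, hs0, hs1, hGmu⟩ := Par.loc_G a h
  obtain ⟨ep, hep⟩ : ∃ ep, ep = 1 - s := ⟨_, rfl⟩
  have hep0 : 0 < ep := by linarith
  have hep1 : ep < 1 := by linarith
  rw [← hep] at hGmu
  have hK : 100 ≤ a.K := h.kK
  have hK0 : 0 < a.K := by linarith
  have hCQ : 8 ≤ a.CQ := Par.eight_le_CQ a
  have hCQ0 : 0 < a.CQ := by linarith
  have hC : 1 ≤ a.C := a.hC
  have hC0 : 0 < a.C := by linarith
  have hX : 1 < a.K ^ 4 := by
    have : (100 : ℝ) ^ 4 ≤ a.K ^ 4 := by gcongr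
    norm_num at this
    linarith
  have hmupos : ∀ m, 0 < a.mu m := fun m => lt_of_lt_of_le one_pos (Par.one_le_mu a h m)
  have hmuX : ∀ m, a.mu m = (a.K ^ 4) ^ m := fun m => rfl
  have hmus : ∀ m, a.mu (m + 1) = a.K ^ 4 * a.mu m := fun m => Par.mu_succ a m
  obtain ⟨X, hXdef⟩ : ∃ X, X = a.K ^ 4 := ⟨_, rfl⟩
  simp only [← hXdef] at hX hmuX hmus
  have hX0 : 0 < X := by linarith
  obtain ⟨A1, hA1⟩ : ∃ A1, A1 = 20 * (a.K ^ 2 + a.CQ + a.C) := ⟨_, rfl⟩
  have hA1pos : 0 < A1 := by rw [hA1]; positivity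
  have hlowpos : 0 < a.low := by
    unfold Par.low
    have h1 := a.hcs
    have h2 := a.htau
    have h3 := h.bT0
    positivity
  obtain ⟨c1, hc1⟩ : ∃ c1, c1 = a.low * X⁻¹ * (1 / 2 : ℝ) ^ ep := ⟨_, rfl⟩
  have hc1pos : 0 < c1 := by
    rw [hc1]
    have : 0 < (1 / 2 : ℝ) ^ ep := Real.rpow_pos_of_pos (by norm_num) _
    positivity
  have hd : 0 < 6 * a.K ^ 2 + 2 * a.CQ := by positivity
  have hXep : 0 < X ^ ep := Real.rpow_pos_of_pos hX0 _
  refine ⟨F, ep, max c1⁻¹ (A1 * X ^ ep), min 1 (a.del / (6 * a.K ^ 2 + 2 * a.CQ)), hep0, hep1,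
    ?_, ?_, ?_⟩
  · exact lt_max_of_lt_left (inv_pos.mpr hc1pos)
  · exact lt_min one_pos (div_pos h.del0 hd)
  intro p q hp hr
  have hds : 0 ≤ ds p q := ds_nonneg p q
  have hsq : 0 ≤ Real.sqrt |dc p q| := Real.sqrt_nonneg _
  have hr0 : 0 ≤ rho p q := add_nonneg hds hsq
  rcases hr0.eq_or_lt with hz | hpos
  · have h1 : ds p q = 0 := by unfold rho at hz; linarith
    have h2 : Real.sqrt |dc p q| = 0 := by unfold rho at hz; linarith
    have hpq : p = q := by
      unfold ds at h1
      have t1 := abs_nonneg (q.1 - p.1)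
      have t2 := abs_nonneg (q.2.1 - p.2.1)
      have e1 : q.1 - p.1 = 0 := abs_eq_zero.mp (by linarith)
      have e2 : q.2.1 - p.2.1 = 0 := abs_eq_zero.mp (by linarith)
      have e3 : dc p q = 0 := by
        rw [Real.sqrt_eq_zero (abs_nonneg _)] at h2
        exact abs_eq_zero.mp h2
      unfold dc at e3
      rw [e2] at e3
      exact Prod.ext (by linarith) (Prod.ext (by linarith) (by linarith))
    rw [← hz, Real.zero_rpow hep0.ne', hpq]
    simp
  · have hr1 : rho p q ≤ 1 := hr.trans (min_le_left _ _)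
    have hr2 : rho p q * (6 * a.K ^ 2 + 2 * a.CQ) ≤ a.del := by
      rw [← le_div_iff₀ hd]
      exact hr.trans (min_le_right _ _)
    have hrep : 0 < rho p q ^ ep := Real.rpow_pos_of_pos hpos _
    have hm0 : a.mu 0 = 1 := by rw [hmuX]; simp
    constructor
    · have hex : ∃ m, a.del < a.ES m p q := by
        have hsum : 0 < ds p q + |dc p q| := by
          rcases hds.eq_or_lt with h1 | h1
          · have h2 : 0 < Real.sqrt |dc p q| := by unfold rho at hpos; linarith
            have h3 := Real.sqrt_pos.mp h2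
            linarith
          · have := abs_nonneg (dc p q)
            linarith
        obtain ⟨m, hm⟩ := pow_unbounded_of_one_lt (a.del / (ds p q + |dc p q|)) hX
        refine ⟨m, ?_⟩
        rw [div_lt_iff₀ hsum, ← hmuX] at hm
        have h1 := Par.one_le_mu a h m
        have hmp := hmupos m
        unfold Par.ES
        have e1 : a.mu m * ds p q ≤ 6 * a.K ^ 2 * a.mu m * ds p q := by
          have h3 : 1 ≤ 6 * a.K ^ 2 := by nlinarith
          have h0 : 0 ≤ a.mu m * ds p q := by positivity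
          calc a.mu m * ds p q = 1 * (a.mu m * ds p q) := by ring
            _ ≤ 6 * a.K ^ 2 * (a.mu m * ds p q) := mul_le_mul_of_nonneg_right h3 h0
            _ = _ := by ring
        have e2 : a.mu m * |dc p q| ≤ 2 * a.CQ * a.mu m ^ 2 * |dc p q| := by
          have h0 : 0 ≤ a.mu m * |dc p q| := by positivity
          have h3 : 1 ≤ 2 * a.CQ * a.mu m := by nlinarith
          calc a.mu m * |dc p q| = 1 * (a.mu m * |dc p q|) := by ring
            _ ≤ 2 * a.CQ * a.mu m * (a.mu m * |dc p q|) := mul_le_mul_of_nonneg_right h3 h0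
            _ = _ := by ring
        rw [mul_add] at hm
        linarith
      have hES0 : ¬ a.del < a.ES 0 p q := by
        unfold Par.ES
        rw [hm0]
        have e1 : ds p q ≤ rho p q := by unfold rho; linarith
        have e2 : |dc p q| ≤ rho p q := by
          have h2 : |dc p q| = Real.sqrt |dc p q| * Real.sqrt |dc p q| :=
            (Real.mul_self_sqrt (abs_nonneg _)).symm
          have h3 : Real.sqrt |dc p q| ≤ rho p q := by unfold rho; linarith
          nlinarith
        have f1 : 6 * a.K ^ 2 * ds p q ≤ 6 * a.K ^ 2 * rho p q :=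
          mul_le_mul_of_nonneg_left e1 (by positivity)
        have f2 : 2 * a.CQ * |dc p q| ≤ 2 * a.CQ * rho p q :=
          mul_le_mul_of_nonneg_left e2 (by positivity)
        intro hcon
        linarith
      have hN : Nat.find hex ≠ 0 := by
        intro h0
        have h1 := Nat.find_spec hex
        rw [h0] at h1
        exact hES0 h1
      obtain ⟨m, hm⟩ := Nat.exists_eq_succ_of_ne_zero hN
      have hm1 : a.ES m p q ≤ a.del := not_lt.mp (Nat.find_min hex (by omega))
      have hm2 : a.del < a.ES (m + 1) p q := by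
        have h1 := Nat.find_spec hex
        rw [hm] at h1
        exact h1
      have hlow := Par.lower_all a h F hF m p q hp hm1 hm2
      have hdel : a.del ≤ 1 := by
        have t1 := h.etadel
        have t2 := h.eta0
        have t3 := a.hcs1
        linarith
      have hmp := hmupos m
      have hmr : a.mu m * rho p q ≤ 2 := by
        unfold Par.ES at hm1
        have n1 : 0 ≤ a.mu m * ds p q := by positivity
        have n2 : 0 ≤ a.mu m ^ 2 * |dc p q| := by positivity
        have k1 : 1 ≤ 6 * a.K ^ 2 := by nlinarith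
        have m1 : a.mu m * ds p q ≤ 6 * a.K ^ 2 * (a.mu m * ds p q) := by
          nlinarith
        have m2 : a.mu m ^ 2 * |dc p q| ≤ 2 * a.CQ * (a.mu m ^ 2 * |dc p q|) := by
          nlinarith
        have e1 : a.mu m * ds p q ≤ 1 := by
          nlinarith
        have e2 : a.mu m ^ 2 * |dc p q| ≤ 1 := by
          nlinarith
        have e3 : a.mu m * Real.sqrt |dc p q| ≤ 1 := by
          have h5 : (a.mu m * Real.sqrt |dc p q|) ^ 2 ≤ 1 := by
            rw [mul_pow, Real.sq_sqrt (abs_nonneg _)]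
            exact e2
          have h6 : 0 ≤ a.mu m * Real.sqrt |dc p q| := by positivity
          nlinarith
        unfold rho
        linarith
      have hq : (rho p q / 2) ^ ep ≤ (a.mu m) ^ (-ep) := by
        rw [Real.rpow_neg hmp.le, ← Real.inv_rpow hmp.le]
        apply Real.rpow_le_rpow (by positivity) _ hep0.le
        rw [le_inv_comm₀ (by positivity) hmp, inv_div, le_div_iff₀ hpos]
        exact hmr
      have hCinv : (max c1⁻¹ (A1 * X ^ ep))⁻¹ ≤ c1 := by
        apply inv_le_of_inv_le₀ hc1pos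
        exact le_max_left _ _
      calc (max c1⁻¹ (A1 * X ^ ep))⁻¹ * rho p q ^ ep ≤ c1 * rho p q ^ ep :=
            mul_le_mul_of_nonneg_right hCinv hrep.le
        _ = a.low * X⁻¹ * (rho p q / 2) ^ ep := by
            rw [hc1, div_eq_mul_one_div (rho p q) 2, Real.mul_rpow hr0 (by norm_num)]
            ring
        _ ≤ a.low * X⁻¹ * (a.mu m) ^ (-ep) := by
            apply mul_le_mul_of_nonneg_left hq
            positivity
        _ = a.low * (a.G m / a.mu (m + 1)) := by
            rw [← hGmu, hmus]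
            field_simp
        _ ≤ _ := hlow
    · have hex : ∃ m, 1 < a.mu m * rho p q := by
        obtain ⟨m, hm⟩ := pow_unbounded_of_one_lt (1 / rho p q) hX
        refine ⟨m, ?_⟩
        rw [div_lt_iff₀ hpos, ← hmuX] at hm
        exact hm
      have hN : Nat.find hex ≠ 0 := by
        intro h0
        have h1 := Nat.find_spec hex
        rw [h0, hm0] at h1
        linarith
      obtain ⟨m, hm⟩ := Nat.exists_eq_succ_of_ne_zero hN
      have hm1 : a.mu m * rho p q ≤ 1 := not_lt.mp (Nat.find_min hex (by omega))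
      have hm2 : 1 < a.mu (m + 1) * rho p q := by
        have h1 := Nat.find_spec hex
        rw [hm] at h1
        exact h1
      have hup := Par.upper_all a h F hF m p q hp hm1
      have hmp := hmupos m
      have hq : (a.mu m) ^ (-ep) ≤ X ^ ep * rho p q ^ ep := by
        rw [Real.rpow_neg hmp.le, ← Real.inv_rpow hmp.le, ← Real.mul_rpow hX0.le hr0]
        apply Real.rpow_le_rpow (by positivity) _ hep0.le
        rw [inv_le_iff_one_le_mul₀ hmp]
        rw [hmus] at hm2
        nlinarith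
      calc ‖F q - F p‖ ≤ A1 * (a.G m / a.mu m) := by rw [hA1]; exact hup
        _ = A1 * (a.mu m) ^ (-ep) := by rw [hGmu]
        _ ≤ A1 * (X ^ ep * rho p q ^ ep) := mul_le_mul_of_nonneg_left hq hA1pos.le
        _ = (A1 * X ^ ep) * rho p q ^ ep := by ring
        _ ≤ _ := mul_le_mul_of_nonneg_right (le_max_right _ _) hrep.le


end Pool.Agent.Helper962.Heis
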