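import Pool.Agent.Helper962.Heis.Base
import Pool.Agent.Helper962.Heis.Good
import Pool.Agent.Helper962.Heis.Loc
import Pool.Agent.Helper962.Heis.Glob
import Pool.Agent.Helper962.Heis.Coord

set_option autoImplicit false

namespace Pool.Agent.Helper962.Heis

/-- the snowflake embedding of the Heisenberg group into five dimensional Euclidean space -/
theorem snowflake_embedding :
    ∃ ε : ℝ, 0 < ε ∧ ε < 1 ∧
      ∃ f : ℝ × ℝ × ℝ → EuclideanSpace ℝ (Fin 5), ∃ C : ℝ, 0 < C ∧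
        ∀ p q : ℝ × ℝ × ℝ,
          C⁻¹ * (((q.1 - p.1) ^ 2 + (q.2.1 - p.2.1) ^ 2) ^ 2
                + (q.2.2 - p.2.2 - 2 * (p.1 * q.2.1 - p.2.1 * q.1)) ^ 2) ^ (ε / 4)
              ≤ dist (f p) (f q) ∧
          dist (f p) (f q) ≤
            C * (((q.1 - p.1) ^ 2 + (q.2.1 - p.2.1) ^ 2) ^ 2
                + (q.2.2 - p.2.2 - 2 * (p.1 * q.2.1 - p.2.1 * q.1)) ^ 2) ^ (ε / 4) := by
  obtain ⟨b⟩ := exists_base
  obtain ⟨a, -, ha⟩ := exists_good b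
  obtain ⟨F, ep, C, r0, h0, h1, hC, hr, hF⟩ := a.local_holder ha
  obtain ⟨F', hF'⟩ := globalize F ep C r0 h0 h1 hC hr hF
  exact ⟨ep, h0, h1, to_symmetric F' ep C h0 h1 hC hF'⟩

end Pool.Agent.Helper962.Heis
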