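import Pool.Agent.Helper962.Heis.Qnorm

set_option autoImplicit false

noncomputable section

namespace Pool.Agent.Helper962.Heis

namespace Par
variable (a : Par)

theorem Qlip_r (x y x' y' r r' : ℝ) (hr : 0 < r) (hr' : 0 < r') (h : r ^ 2 = x ^ 2 + y ^ 2)
    (h' : r' ^ 2 = x' ^ 2 + y' ^ 2) : |r - r'| ≤ |x - x'| + |y - y'| := by
  have hx : |x| ≤ r := abs_le_of_sq_le_sq (by nlinarith [sq_nonneg y]) hr.le
  have hy : |y| ≤ r := abs_le_of_sq_le_sq (by nlinarith [sq_nonneg x]) hr.le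
  have hx' : |x'| ≤ r' := abs_le_of_sq_le_sq (by nlinarith [sq_nonneg y']) hr'.le
  have hy' : |y'| ≤ r' := abs_le_of_sq_le_sq (by nlinarith [sq_nonneg x']) hr'.le
  have hsum : 0 < r + r' := by linarith
  have h1 : |r - r'| * (r + r') ≤ (|x - x'| + |y - y'|) * (r + r') := by
    have e1 : |r - r'| * (r + r') = |(x - x') * (x + x') + (y - y') * (y + y')| := by
      rw [← abs_of_pos hsum]
      rw [← abs_mul]
      congr 1
      nlinarith
    rw [e1]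
    calc |(x - x') * (x + x') + (y - y') * (y + y')|
        ≤ |(x - x') * (x + x')| + |(y - y') * (y + y')| := abs_add_le _ _
      _ = |x - x'| * |x + x'| + |y - y'| * |y + y'| := by rw [abs_mul, abs_mul]
      _ ≤ |x - x'| * (r + r') + |y - y'| * (r + r') := by
          have g1 : |x + x'| ≤ r + r' := (abs_add_le _ _).trans (add_le_add hx hx')
          have g2 : |y + y'| ≤ r + r' := (abs_add_le _ _).trans (add_le_add hy hy')
          exact add_le_add (mul_le_mul_of_nonneg_left g1 (abs_nonneg _))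
            (mul_le_mul_of_nonneg_left g2 (abs_nonneg _))
      _ = _ := by ring
  exact le_of_mul_le_mul_right h1 hsum

theorem Qlip_ratio (x y x' y' r r' c : ℝ) (hc : 0 < c) (hcr : c ≤ r) (hcr' : c ≤ r')
    (h : r ^ 2 = x ^ 2 + y ^ 2) (h' : r' ^ 2 = x' ^ 2 + y' ^ 2) :
    |x / r - x' / r'| ≤ (2 * |x - x'| + |y - y'|) / c := by
  have hr : 0 < r := lt_of_lt_of_le hc hcr
  have hr' : 0 < r' := lt_of_lt_of_le hc hcr'
  have hx : |x| ≤ r := abs_le_of_sq_le_sq (by nlinarith [sq_nonneg y]) hr.le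
  have h0 := Qlip_r x y x' y' r r' hr hr' h h'
  have e1 : x / r - x' / r' = (x * (r' - r) + r * (x - x')) / (r * r') := by
    field_simp
    ring
  rw [e1, abs_div, abs_of_pos (mul_pos hr hr')]
  have h2 : |x * (r' - r) + r * (x - x')| ≤ r * (2 * |x - x'| + |y - y'|) := by
    calc |x * (r' - r) + r * (x - x')| ≤ |x * (r' - r)| + |r * (x - x')| := abs_add_le _ _
      _ = |x| * |r - r'| + r * |x - x'| := by
          rw [abs_mul, abs_mul, abs_of_pos hr, abs_sub_comm r' r]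
      _ ≤ r * (|x - x'| + |y - y'|) + r * |x - x'| := by
          have := mul_le_mul hx h0 (abs_nonneg _) hr.le
          linarith
      _ = _ := by ring
  have hn : 0 ≤ 2 * |x - x'| + |y - y'| := by positivity
  calc |x * (r' - r) + r * (x - x')| / (r * r') ≤ r * (2 * |x - x'| + |y - y'|) / (r * r') := by
        gcongr
    _ = (2 * |x - x'| + |y - y'|) / r' := by
        field_simp
    _ ≤ _ := by gcongr

theorem Qlip_gen (i : Fin 5) (hi : i ≠ 4) (Γ β : ℝ) (hΓ : (1 / Γ) ^ 2 + (β / Γ) ^ 2 = 1)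
    (x y : ℝ) (v : E) :
    ‖rotL 3 4 (Real.cos y) (Real.sin y) (rotL i 4 (1 / Γ) (β / Γ)
        (rotL 3 4 (Real.cos y) (-Real.sin y) v)) -
      rotL 3 4 (Real.cos x) (Real.sin x) (rotL i 4 (1 / Γ) (β / Γ)
        (rotL 3 4 (Real.cos x) (-Real.sin x) v))‖ ≤ 4 * |y - x| * ‖v‖ := by
  have h34 : (3 : Fin 5) ≠ 4 := by decide
  have hcos : |Real.cos y - Real.cos x| ≤ |y - x| := by
    have := Real.lipschitzWith_cos.dist_le_mul y x
    simpa [Real.dist_eq] using this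
  have hsin : |Real.sin y - Real.sin x| ≤ |y - x| := by
    have := Real.lipschitzWith_sin.dist_le_mul y x
    simpa [Real.dist_eq] using this
  set uy := rotL 3 4 (Real.cos y) (-Real.sin y) v with huy
  set ux := rotL 3 4 (Real.cos x) (-Real.sin x) v with hux
  set B := rotL i 4 (1 / Γ) (β / Γ) with hB
  have nuy : ‖uy‖ = ‖v‖ := rotL_norm 3 4 h34 _ _ (by rw [neg_sq]; exact Real.cos_sq_add_sin_sq y) v
  have nB : ∀ w, ‖B w‖ = ‖w‖ := fun w => rotL_norm i 4 hi _ _ hΓ w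
  have e1 : rotL 3 4 (Real.cos y) (Real.sin y) (B uy) - rotL 3 4 (Real.cos x) (Real.sin x) (B ux)
      = (rotL 3 4 (Real.cos y) (Real.sin y) (B uy) - rotL 3 4 (Real.cos x) (Real.sin x) (B uy))
        + rotL 3 4 (Real.cos x) (Real.sin x) (B (uy - ux)) := by
    rw [map_sub, map_sub]; abel
  rw [e1]
  have b1 := rotL_lip 3 4 h34 (Real.cos y) (Real.sin y) (Real.cos x) (Real.sin x) (B uy)
  rw [nB, nuy] at b1
  have b2 : ‖rotL 3 4 (Real.cos x) (Real.sin x) (B (uy - ux))‖ = ‖uy - ux‖ := by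
    rw [rotL_norm 3 4 h34 _ _ (Real.cos_sq_add_sin_sq x), nB]
  have b3 := rotL_lip 3 4 h34 (Real.cos y) (-Real.sin y) (Real.cos x) (-Real.sin x) v
  have b4 : |-Real.sin y - -Real.sin x| = |Real.sin y - Real.sin x| := by
    rw [← abs_neg]; congr 1; ring
  rw [b4] at b3
  have hv := norm_nonneg v
  calc _ ≤ _ := norm_add_le _ _
    _ ≤ (|Real.cos y - Real.cos x| + |Real.sin y - Real.sin x|) * ‖v‖ +
        (|Real.cos y - Real.cos x| + |Real.sin y - Real.sin x|) * ‖v‖ := by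
        rw [b2]; exact add_le_add b1 b3
    _ ≤ (|y - x| + |y - x|) * ‖v‖ + (|y - x| + |y - x|) * ‖v‖ := by gcongr
    _ = _ := by ring

theorem Qlip_near (i : Fin 5) (hi : i ≠ 4) (Γ β : ℝ) (hΓ1 : 1 < Γ) (hβ : 0 < β)
    (hΓ2 : Γ ^ 2 = 1 + β ^ 2) (x : ℝ) (v : E) :
    ‖rotL 3 4 (Real.cos x) (Real.sin x) (rotL i 4 (1 / Γ) (β / Γ)
        (rotL 3 4 (Real.cos x) (-Real.sin x) v)) - v‖ ≤ 2 * β * ‖v‖ := by
  have h34 : (3 : Fin 5) ≠ 4 := by decide
  have hcs := Real.cos_sq_add_sin_sq x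
  set c := Real.cos x
  set s := Real.sin x
  set w := rotL 3 4 c (-s) v with hw
  have nw : ‖w‖ = ‖v‖ := rotL_norm 3 4 h34 _ _ (by rw [neg_sq]; exact hcs) v
  have hinv : rotL 3 4 c s w = v := by
    ext k
    have w3 : w 3 = c * v 3 - (-s) * v 4 := rotL_coord_i 3 4 h34 _ _ _
    have w4 : w 4 = (-s) * v 3 + c * v 4 := rotL_coord_j 3 4 h34 _ _ _
    by_cases hk3 : k = 3
    · subst hk3
      rw [rotL_coord_i 3 4 h34, w3, w4]
      linear_combination (v 3) * hcs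
    · by_cases hk4 : k = 4
      · subst hk4
        rw [rotL_coord_j 3 4 h34, w3, w4]
        linear_combination (v 4) * hcs
      · rw [rotL_coord_k 3 4 k hk3 hk4, hw, rotL_coord_k 3 4 k hk3 hk4]
  have hid : rotL i 4 1 0 w = w := by
    ext k
    by_cases hk3 : k = i
    · subst hk3
      rw [rotL_coord_i k 4 hi]; ring
    · by_cases hk4 : k = 4
      · subst hk4
        rw [rotL_coord_j i 4 hi]; ring
      · rw [rotL_coord_k i 4 k hk3 hk4]
  have e1 : rotL 3 4 c s (rotL i 4 (1 / Γ) (β / Γ) w) - v =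
      rotL 3 4 c s (rotL i 4 (1 / Γ) (β / Γ) w - rotL i 4 1 0 w) := by
    rw [map_sub, hid, hinv]
  rw [e1, rotL_norm 3 4 h34 _ _ hcs]
  have b1 := rotL_lip i 4 hi (1 / Γ) (β / Γ) 1 0 w
  rw [nw] at b1
  have hG0 : 0 < Γ := by linarith
  have hG3 : Γ ≤ 1 + β := by nlinarith
  have c1 : |1 / Γ - 1| ≤ β := by
    rw [abs_le]
    constructor
    · have : 1 - β ≤ 1 / Γ := by
        rw [le_div_iff₀ hG0]
        nlinarith
      linarith
    · have : 1 / Γ ≤ 1 := by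
        rw [div_le_one hG0]; linarith
      linarith
  have c2 : |β / Γ - 0| ≤ β := by
    rw [sub_zero, abs_of_pos (div_pos hβ hG0), div_le_iff₀ hG0]
    nlinarith
  calc _ ≤ _ := b1
    _ ≤ (β + β) * ‖v‖ := by gcongr
    _ = _ := by ring

theorem QV_lip (h : a.Good) (m : ℕ) (p q : P) (v : E) : ‖a.QV m q v - a.QV m p v‖ ≤
    a.CQ * (a.mu (m + 1) * ds p q + a.mu (m + 1) ^ 2 * |dc p q|) * ‖v‖ := by
  have h34 : (3 : Fin 5) ≠ 4 := by decide
  have h23 : (2 : Fin 5) ≠ 3 := by decide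
  have hmu : 1 ≤ a.mu (m + 1) := a.one_le_mu h (m + 1)
  set μ := a.mu (m + 1) with hμ
  set P' := dil μ p with hP'
  set Q' := dil μ q with hQ'
  have nw : ‖rotL 2 3 0 1 v‖ = ‖v‖ := rotL_norm 2 3 h23 _ _ (by norm_num) v
  have b1 := rotL_lip 3 4 h34 (a.g1 Q' / a.r Q') (a.g2 Q' / a.r Q') (a.g1 P' / a.r P')
    (a.g2 P' / a.r P') (rotL 2 3 0 1 v)
  rw [nw] at b1
  have hrQ : a.r Q' ^ 2 = a.g1 Q' ^ 2 + a.g2 Q' ^ 2 := by
    unfold r; exact Real.sq_sqrt (by positivity)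
  have hrP : a.r P' ^ 2 = a.g1 P' ^ 2 + a.g2 P' ^ 2 := by
    unfold r; exact Real.sq_sqrt (by positivity)
  have r1 := Qlip_ratio (a.g1 Q') (a.g2 Q') (a.g1 P') (a.g2 P') (a.r Q') (a.r P') a.cs a.hcs
    (a.cs_le_r Q') (a.cs_le_r P') hrQ hrP
  have r2 := Qlip_ratio (a.g2 Q') (a.g1 Q') (a.g2 P') (a.g1 P') (a.r Q') (a.r P') a.cs a.hcs
    (a.cs_le_r Q') (a.cs_le_r P') (by rw [hrQ]; ring) (by rw [hrP]; ring)
  have l1 := a.lg1 P' Q'
  have l2 := a.lg2 P' Q'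
  have hds : ds P' Q' = μ * ds p q := ds_dil μ (by linarith) p q
  have hdc : |dc P' Q'| = μ ^ 2 * |dc p q| := by
    rw [hP', hQ', dc_dil, abs_mul, abs_of_nonneg (sq_nonneg μ)]
  rw [hds, hdc] at l1 l2
  have hT0 : 0 ≤ μ * ds p q + μ ^ 2 * |dc p q| := by
    have := ds_nonneg p q
    positivity
  set T := μ * ds p q + μ ^ 2 * |dc p q| with hT
  have hsum : |a.g1 Q' / a.r Q' - a.g1 P' / a.r P'| + |a.g2 Q' / a.r Q' - a.g2 P' / a.r P'| ≤
      a.CQ * T := by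
    have hcs := a.hcs
    have hC : 0 ≤ a.C := by linarith [a.hC]
    calc _ ≤ (2 * |a.g1 Q' - a.g1 P'| + |a.g2 Q' - a.g2 P'|) / a.cs +
          (2 * |a.g2 Q' - a.g2 P'| + |a.g1 Q' - a.g1 P'|) / a.cs := add_le_add r1 r2
      _ ≤ (2 * (a.C * T) + a.C * T) / a.cs + (2 * (a.C * T) + a.C * T) / a.cs := by gcongr
      _ = 6 * (a.C * T) / a.cs := by ring
      _ ≤ 8 * (a.C * T) / a.cs := by
          have : 0 ≤ a.C * T := mul_nonneg hC hT0
          gcongr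
          norm_num
      _ = _ := by unfold CQ; ring
  calc ‖a.QV m q v - a.QV m p v‖ ≤ _ := b1
    _ ≤ a.CQ * T * ‖v‖ := by gcongr

theorem Qlip_NX (h : a.Good) (m : ℕ) : 0 ≤ a.NX m := by
  have h1 := a.one_le_mu h (m + 1)
  have h2 := h.kK
  unfold NX
  have : 0 ≤ a.K := by linarith
  positivity
theorem Qlip_NY (h : a.Good) (m : ℕ) : 0 ≤ a.NY m := by
  have h1 := a.one_le_mu h (m + 1)
  unfold NY
  positivity
theorem Qlip_G (h : a.Good) : (1 / a.Gam) ^ 2 + (a.be / a.Gam) ^ 2 = 1 := by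
  obtain ⟨h1, h2, _⟩ := a.Gam_bounds h
  have : a.Gam ^ 2 ≠ 0 := by positivity
  rw [div_pow, div_pow, ← add_div, div_eq_one_iff_eq this, h2]
  norm_num
theorem QX_lip (h : a.Good) (m : ℕ) (p q : P) (v : E) : ‖a.QX m q v - a.QX m p v‖ ≤
    4 * a.NX m * |q.1 - p.1| * ‖v‖ := by
  have h1 := Qlip_gen 0 (by decide) a.Gam a.be (a.Qlip_G h) (a.NX m * p.1) (a.NX m * q.1) v
  have h2 : |a.NX m * q.1 - a.NX m * p.1| = a.NX m * |q.1 - p.1| := by
    rw [← mul_sub, abs_mul, abs_of_nonneg (a.Qlip_NX h m)]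
  rw [h2] at h1
  calc _ ≤ _ := h1
    _ = _ := by ring
theorem QY_lip (h : a.Good) (m : ℕ) (p q : P) (v : E) : ‖a.QY m q v - a.QY m p v‖ ≤
    4 * a.NY m * |q.2.1 - p.2.1| * ‖v‖ := by
  have h1 := Qlip_gen 1 (by decide) a.Gam a.be (a.Qlip_G h) (a.NY m * p.2.1) (a.NY m * q.2.1) v
  have h2 : |a.NY m * q.2.1 - a.NY m * p.2.1| = a.NY m * |q.2.1 - p.2.1| := by
    rw [← mul_sub, abs_mul, abs_of_nonneg (a.Qlip_NY h m)]
  rw [h2] at h1
  calc _ ≤ _ := h1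
    _ = _ := by ring
theorem QX_near (h : a.Good) (m : ℕ) (p : P) (v : E) : ‖a.QX m p v - v‖ ≤ 2 * a.be * ‖v‖ := by
  obtain ⟨h1, h2, _⟩ := a.Gam_bounds h
  exact Qlip_near 0 (by decide) a.Gam a.be h1 h.be0 h2 (a.NX m * p.1) v
theorem QY_near (h : a.Good) (m : ℕ) (p : P) (v : E) : ‖a.QY m p v - v‖ ≤ 2 * a.be * ‖v‖ := by
  obtain ⟨h1, h2, _⟩ := a.Gam_bounds h
  exact Qlip_near 1 (by decide) a.Gam a.be h1 h.be0 h2 (a.NY m * p.2.1) v

end Par

end Pool.Agent.Helper962.Heis
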