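import Pool.Agent.Helper962.Heis.Fnorm
import Pool.Agent.Helper962.Heis.Qlip

set_option autoImplicit false

noncomputable section

namespace Pool.Agent.Helper962.Heis

namespace Par
variable (a : Par)

theorem Flip_dx (p q : P) : |q.1 - p.1| ≤ ds p q := by
  unfold ds
  have := abs_nonneg (q.2.1 - p.2.1)
  linarith

theorem Flip_dy (p q : P) : |q.2.1 - p.2.1| ≤ ds p q := by
  unfold ds
  have := abs_nonneg (q.1 - p.1)
  linarith

theorem Flip_ES_nonneg (h : a.Good) (m : ℕ) (p q : P) : 0 ≤ a.ES m p q := by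
  unfold ES
  have h1 := a.one_le_mu h m
  have h2 := ds_nonneg p q
  have h3 := a.eight_le_CQ
  have h4 := abs_nonneg (dc p q)
  have h5 := h.kK
  positivity

theorem Flip_EV_nonneg (h : a.Good) (m : ℕ) (p q : P) : 0 ≤ a.EV m p q := by
  unfold EV
  have h1 := a.one_le_mu h (m + 1)
  have h2 := ds_nonneg p q
  have h3 := a.eight_le_CQ
  have h4 := abs_nonneg (dc p q)
  positivity

theorem Flip_EX_nonneg (h : a.Good) (m : ℕ) (p q : P) : 0 ≤ a.EX m p q := by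
  unfold EX
  have h1 := a.one_le_mu h (m + 1)
  have h2 := ds_nonneg p q
  have h3 := a.eight_le_CQ
  have h4 := abs_nonneg (dc p q)
  have h5 := h.kK
  positivity

theorem Flip_SV (h : a.Good) (m : ℕ) (p q : P) :
    a.ES m p q + a.CQ * (a.mu (m + 1) * ds p q + a.mu (m + 1) ^ 2 * |dc p q|) ≤ a.EV m p q := by
  have h1 := a.one_le_mu h m
  have h2 := ds_nonneg p q
  have h3 := a.eight_le_CQ
  have h4 := abs_nonneg (dc p q)
  have h5 := h.kK
  unfold ES EV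
  rw [mu_succ]
  have hK2 : (1:ℝ) ≤ a.K ^ 2 := by nlinarith
  have hK4 : 6 * a.K ^ 2 ≤ a.CQ * a.K ^ 4 := by
    have e : a.CQ * a.K ^ 4 = (a.CQ * a.K ^ 2) * a.K ^ 2 := by ring
    rw [e]
    apply mul_le_mul_of_nonneg_right _ (by positivity)
    nlinarith
  have hK8 : 2 * a.CQ * a.mu m ^ 2 ≤ a.CQ * (a.K ^ 4 * a.mu m) ^ 2 := by
    have e : a.CQ * (a.K ^ 4 * a.mu m) ^ 2 = (a.CQ * a.mu m ^ 2) * (a.K ^ 4 * a.K ^ 4) := by ring
    have e1 : (2:ℝ) ≤ a.K ^ 4 := by nlinarith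
    have e2 : (2:ℝ) ≤ a.K ^ 4 * a.K ^ 4 := by nlinarith
    rw [e]
    have e3 : 0 ≤ a.CQ * a.mu m ^ 2 := by positivity
    nlinarith
  have t1 : 6 * a.K ^ 2 * a.mu m * ds p q ≤ a.CQ * a.K ^ 4 * a.mu m * ds p q := by
    have e3 : 0 ≤ a.mu m * ds p q := by positivity
    have := mul_le_mul_of_nonneg_right hK4 e3
    linarith
  have t2 := mul_le_mul_of_nonneg_right hK8 h4
  linarith

theorem Flip_VX (h : a.Good) (m : ℕ) (p q : P) :
    a.EV m p q + 4 * a.NX m * |q.1 - p.1| ≤ a.EX m p q := by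
  have h1 := a.one_le_mu h (m + 1)
  have h2 := ds_nonneg p q
  have h3 := a.eight_le_CQ
  have h5 := h.kK
  have h6 := Flip_dx p q
  have h7 := h.kJ
  unfold EV EX NX
  have t1 : a.CQ * (a.mu (m + 1) * ds p q) ≤ a.K * (a.mu (m + 1) * ds p q) :=
    mul_le_mul_of_nonneg_right h7 (by positivity)
  have t2 : (a.K * a.mu (m + 1)) * |q.1 - p.1| ≤ (a.K * a.mu (m + 1)) * ds p q :=
    mul_le_mul_of_nonneg_left h6 (by positivity)
  linarith

theorem Flip_XS (h : a.Good) (m : ℕ) (p q : P) :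
    a.EX m p q + 4 * a.NY m * |q.2.1 - p.2.1| ≤ a.ES (m + 1) p q := by
  have h1 := a.one_le_mu h (m + 1)
  have h2 := ds_nonneg p q
  have h3 := a.eight_le_CQ
  have h5 := h.kK
  have h6 := Flip_dy p q
  unfold EX ES NY
  have hk : 6 * a.K ≤ 2 * a.K ^ 2 := by nlinarith
  have t1 : 6 * a.K * (a.mu (m + 1) * ds p q) ≤ 2 * a.K ^ 2 * (a.mu (m + 1) * ds p q) :=
    mul_le_mul_of_nonneg_right hk (by positivity)
  have t2 : (a.K ^ 2 * a.mu (m + 1)) * |q.2.1 - p.2.1| ≤ (a.K ^ 2 * a.mu (m + 1)) * ds p q :=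
    mul_le_mul_of_nonneg_left h6 (by positivity)
  linarith

theorem Flip_V (h : a.Good) (m : ℕ) (p q : P)
    (hS : ∀ v, ‖a.FS m q v - a.FS m p v‖ ≤ a.ES m p q * ‖v‖) (v : E) :
    ‖a.FV m q v - a.FV m p v‖ ≤ a.EV m p q * ‖v‖ := by
  have h1 := frame_lip (a.FS m p) (a.FS m q) (a.QV m p) (a.QV m q) (a.ES m p q)
    (a.CQ * (a.mu (m + 1) * ds p q + a.mu (m + 1) ^ 2 * |dc p q|)) (a.Flip_ES_nonneg h m p q)
    (a.FS_norm m p) (a.QV_norm m q) hS (a.QV_lip h m p q) v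
  exact h1.trans (mul_le_mul_of_nonneg_right (a.Flip_SV h m p q) (norm_nonneg v))

theorem Flip_X (h : a.Good) (m : ℕ) (p q : P)
    (hV : ∀ v, ‖a.FV m q v - a.FV m p v‖ ≤ a.EV m p q * ‖v‖) (v : E) :
    ‖a.FX m q v - a.FX m p v‖ ≤ a.EX m p q * ‖v‖ := by
  have h1 := frame_lip (a.FV m p) (a.FV m q) (a.QX m p) (a.QX m q) (a.EV m p q)
    (4 * a.NX m * |q.1 - p.1|) (a.Flip_EV_nonneg h m p q)
    (a.FV_norm m p) (a.QX_norm m q) hV (a.QX_lip h m p q) v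
  exact h1.trans (mul_le_mul_of_nonneg_right (a.Flip_VX h m p q) (norm_nonneg v))

theorem FS_lip (h : a.Good) (m : ℕ) (p q : P) (v : E) :
    ‖a.FS m q v - a.FS m p v‖ ≤ a.ES m p q * ‖v‖ := by
  induction m generalizing v with
  | zero =>
    have e : a.FS 0 q v - a.FS 0 p v = 0 := by
      show (LinearMap.id : E →ₗ[ℝ] E) v - (LinearMap.id : E →ₗ[ℝ] E) v = 0
      rw [sub_self]
    rw [e, norm_zero]
    exact mul_nonneg (a.Flip_ES_nonneg h 0 p q) (norm_nonneg v)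
  | succ m ih =>
    have hX := a.Flip_X h m p q (a.Flip_V h m p q ih)
    have h1 := frame_lip (a.FX m p) (a.FX m q) (a.QY m p) (a.QY m q) (a.EX m p q)
      (4 * a.NY m * |q.2.1 - p.2.1|) (a.Flip_EX_nonneg h m p q)
      (a.FX_norm m p) (a.QY_norm m q) hX (a.QY_lip h m p q) v
    rw [FS_succ, FS_succ, LinearMap.comp_apply, LinearMap.comp_apply]
    exact h1.trans (mul_le_mul_of_nonneg_right (a.Flip_XS h m p q) (norm_nonneg v))

theorem FV_lip (h : a.Good) (m : ℕ) (p q : P) (v : E) :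
    ‖a.FV m q v - a.FV m p v‖ ≤ a.EV m p q * ‖v‖ :=
  a.Flip_V h m p q (a.FS_lip h m p q) v

theorem FX_lip (h : a.Good) (m : ℕ) (p q : P) (v : E) :
    ‖a.FX m q v - a.FX m p v‖ ≤ a.EX m p q * ‖v‖ :=
  a.Flip_X h m p q (a.FV_lip h m p q) v

end Par

end Pool.Agent.Helper962.Heis
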