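import Pool.Agent.Helper962.Heis.Qnorm

set_option autoImplicit false

noncomputable section

namespace Pool.Agent.Helper962.Heis

namespace Par
variable (a : Par)

theorem FS_norm (m : ℕ) (p : P) (v : E) : ‖a.FS m p v‖ = ‖v‖ := by
  induction m generalizing v with
  | zero => rfl
  | succ m ih =>
    have h1 : a.FS (m + 1) p v = a.FS m p (a.QV m p (a.QX m p (a.QY m p v))) := rfl
    rw [h1, ih, a.QV_norm, a.QX_norm, a.QY_norm]
theorem FV_norm (m : ℕ) (p : P) (v : E) : ‖a.FV m p v‖ = ‖v‖ := by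
  have h1 : a.FV m p v = a.FS m p (a.QV m p v) := rfl
  rw [h1, FS_norm, a.QV_norm]
theorem FX_norm (m : ℕ) (p : P) (v : E) : ‖a.FX m p v‖ = ‖v‖ := by
  have h1 : a.FX m p v = a.FV m p (a.QX m p v) := rfl
  rw [h1, FV_norm, a.QX_norm]
theorem FS_succ (m : ℕ) (p : P) : a.FS (m + 1) p = a.FX m p ∘ₗ a.QY m p :=
  LinearMap.ext fun _ => rfl
theorem fS_succ (m : ℕ) (p : P) : a.fS (m + 1) p = a.fX m p + a.AY m • a.FX m p (a.phY m p) := rfl

end Par

end Pool.Agent.Helper962.Heis
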