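import Pool.Agent.Helper962.Heis.Qnorm

set_option autoImplicit false

noncomputable section

namespace Pool.Agent.Helper962.Heis

namespace Par
variable (a : Par)


theorem ph_norm_e (i : Fin 5) : ‖e i‖ = 1 := by
  unfold e
  rw [EuclideanSpace.norm_single]
  simp

theorem ph_pair (x y : ℝ) : ‖x • e 3 + y • e 4‖ ≤ |x| + |y| := by
  calc ‖x • e 3 + y • e 4‖ ≤ ‖x • e 3‖ + ‖y • e 4‖ := norm_add_le _ _
    _ = |x| + |y| := by
        rw [norm_smul, norm_smul, ph_norm_e, ph_norm_e, mul_one, mul_one, Real.norm_eq_abs,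
          Real.norm_eq_abs]

theorem ph_pair_sq (x y : ℝ) : ‖x • e 3 + y • e 4‖ ^ 2 = x ^ 2 + y ^ 2 := by
  rw [EuclideanSpace.norm_eq, Real.sq_sqrt (Finset.sum_nonneg fun i _ => sq_nonneg _),
    Fin.sum_univ_five]
  simp [e]

theorem ph_pair_exact (x y z : ℝ) (hz : 0 ≤ z) (h : x ^ 2 + y ^ 2 ≤ z ^ 2) :
    ‖x • e 3 + y • e 4‖ ≤ z := by
  have h1 := ph_pair_sq x y
  have h2 : ‖x • e 3 + y • e 4‖ ^ 2 ≤ z ^ 2 := by rw [h1]; exact h
  exact abs_le_of_sq_le_sq' h2 hz |>.2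

theorem ph_sin_sub (h : ℝ) : |Real.sin h - h| ≤ h ^ 2 / 2 := by
  have key : ∀ x : ℝ, 0 ≤ x → x - Real.sin x ≤ x ^ 2 / 2 := by
    intro x hx
    have hmono : MonotoneOn (fun y : ℝ => y ^ 2 / 2 - y + Real.sin y) (Set.Ici 0) := by
      apply monotoneOn_of_deriv_nonneg (convex_Ici 0)
      · fun_prop
      · fun_prop
      · intro y hy
        rw [interior_Ici] at hy
        have hy0 : 0 < y := hy
        have hd : HasDerivAt (fun y : ℝ => y ^ 2 / 2 - y + Real.sin y) (y - 1 + Real.cos y) y := by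
          have h1 : HasDerivAt (fun y : ℝ => y ^ 2 / 2) y y := by
            have h0 := (hasDerivAt_pow 2 y).div_const 2
            have h00 : ((2 : ℕ) : ℝ) * y ^ (2 - 1) / 2 = y := by
              norm_num
            rw [h00] at h0
            exact h0
          exact (h1.sub (hasDerivAt_id y)).add (Real.hasDerivAt_sin y)
        rw [hd.deriv]
        rcases le_or_gt y 2 with h2 | h2
        · have := Real.one_sub_sq_div_two_le_cos (x := y)
          nlinarith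
        · have := Real.neg_one_le_cos y
          linarith
    have := hmono (Set.mem_Ici.mpr le_rfl) (Set.mem_Ici.mpr hx) hx
    simp only [Real.sin_zero] at this
    nlinarith
  rcases le_total 0 h with hh | hh
  · have h1 := key h hh
    have h2 := Real.sin_le hh
    rw [abs_le]; constructor <;> linarith
  · have h1 := key (-h) (by linarith)
    have h2 := Real.sin_le (show 0 ≤ -h by linarith)
    rw [Real.sin_neg] at h1 h2
    rw [abs_le]; constructor <;> nlinarith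

theorem ph_circ_snd (a h : ℝ) :
    ‖(Real.cos (a + h) - Real.cos a + h * Real.sin a) • e 3
      + (Real.sin (a + h) - Real.sin a - h * Real.cos a) • e 4‖ ≤ h ^ 2 := by
  apply ph_pair_exact _ _ _ (sq_nonneg h)
  rw [Real.cos_add, Real.sin_add]
  have h1 : (Real.cos a * Real.cos h - Real.sin a * Real.sin h - Real.cos a + h * Real.sin a) ^ 2
      + (Real.sin a * Real.cos h + Real.cos a * Real.sin h - Real.sin a - h * Real.cos a) ^ 2
      = (Real.cos h - 1) ^ 2 + (Real.sin h - h) ^ 2 := by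
    have hcs := Real.sin_sq_add_cos_sq a
    have : (Real.cos a * Real.cos h - Real.sin a * Real.sin h - Real.cos a + h * Real.sin a) ^ 2
      + (Real.sin a * Real.cos h + Real.cos a * Real.sin h - Real.sin a - h * Real.cos a) ^ 2
      = (Real.sin a ^ 2 + Real.cos a ^ 2) * ((Real.cos h - 1) ^ 2 + (Real.sin h - h) ^ 2) := by
      ring
    rw [this, hcs, one_mul]
  rw [h1]
  have hA := Real.one_sub_sq_div_two_le_cos (x := h)
  have hA' := Real.cos_le_one h
  have hB := ph_sin_sub h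
  have e1 : (Real.cos h - 1) ^ 2 ≤ (h ^ 2 / 2) ^ 2 := by
    apply sq_le_sq'
    · linarith
    · nlinarith [sq_nonneg h]
  have e2 : (Real.sin h - h) ^ 2 ≤ (h ^ 2 / 2) ^ 2 := by
    rw [← sq_abs (Real.sin h - h)]
    exact pow_le_pow_left₀ (abs_nonneg _) hB 2
  nlinarith [sq_nonneg (h ^ 2)]

theorem ph_circ_lip (a b : ℝ) :
    ‖(Real.cos b - Real.cos a) • e 3 + (Real.sin b - Real.sin a) • e 4‖ ≤ 2 * |b - a| := by
  refine (ph_pair _ _).trans ?_
  have h1 := Real.abs_cos_sub_cos_le b a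
  have h2 := Real.abs_sin_sub_sin_le b a
  linarith

theorem phV_norm (m : ℕ) (p : P) : ‖a.phV m p‖ ≤ 2 * a.C := by
  unfold phV
  refine (ph_pair _ _).trans ?_
  have h1 := a.bphi1 (dil (a.mu (m + 1)) p)
  have h2 := a.bphi2 (dil (a.mu (m + 1)) p)
  have h3 := a.hkapC
  linarith

theorem phV_lip (h : a.Good) (m : ℕ) (p q : P) : ‖a.phV m q - a.phV m p‖ ≤
    2 * a.C * (a.mu (m + 1) * ds p q + a.mu (m + 1) ^ 2 * |dc p q|) := by
  have hmu := one_le_mu a h (m + 1)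
  have e1 : a.phV m q - a.phV m p =
      (a.phi1 (dil (a.mu (m + 1)) q) - a.phi1 (dil (a.mu (m + 1)) p)) • e 3 +
      (a.phi2 (dil (a.mu (m + 1)) q) - a.phi2 (dil (a.mu (m + 1)) p)) • e 4 := by
    unfold phV
    module
  rw [e1]
  refine (ph_pair _ _).trans ?_
  have h1 := a.lphi1 (dil (a.mu (m + 1)) p) (dil (a.mu (m + 1)) q)
  have h2 := a.lphi2 (dil (a.mu (m + 1)) p) (dil (a.mu (m + 1)) q)
  rw [ds_dil _ (by linarith), dc_dil, abs_mul, abs_of_nonneg (sq_nonneg (a.mu (m + 1)))] at h1 h2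
  linarith

theorem ph_aux (phi g : P → ℝ) (C : ℝ) (hC : 0 ≤ C)
    (lphi : ∀ p q, |phi q - phi p| ≤ C * (ds p q + |dc p q|))
    (dphi : ∀ x y t c : ℝ, |phi (x, y, t + c) - phi (x, y, t) - g (x, y, t) * c| ≤ C * c ^ 2)
    (p q : P) : |phi q - phi p - dc p q * g p| ≤ C * ds p q + C * dc p q ^ 2 := by
  obtain ⟨x, y, t⟩ := p
  have h1 := dphi x y t (dc (x, y, t) q)
  have h2 := lphi (x, y, t + dc (x, y, t) q) q
  have e1 : ds (x, y, t + dc (x, y, t) q) q = ds (x, y, t) q := rfl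
  have e2 : dc (x, y, t + dc (x, y, t) q) q = 0 := by
    unfold dc
    ring
  rw [e1, e2, abs_zero, add_zero] at h2
  rw [abs_le] at h1 h2 ⊢
  constructor
  · nlinarith [h1.1, h2.1]
  · nlinarith [h1.2, h2.2]

theorem phV_snd (h : a.Good) (m : ℕ) (p q : P) :
    ‖a.phV m q - a.phV m p - (a.mu (m + 1) ^ 2 * dc p q) •
      (a.g1 (dil (a.mu (m + 1)) p) • e 3 + a.g2 (dil (a.mu (m + 1)) p) • e 4)‖ ≤
    2 * a.C * (a.mu (m + 1) * ds p q) + 2 * a.C * (a.mu (m + 1) ^ 2 * dc p q) ^ 2 := by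
  have hmu := one_le_mu a h (m + 1)
  have hC : 0 ≤ a.C := by linarith [a.hC]
  have e1 : a.phV m q - a.phV m p - (a.mu (m + 1) ^ 2 * dc p q) •
      (a.g1 (dil (a.mu (m + 1)) p) • e 3 + a.g2 (dil (a.mu (m + 1)) p) • e 4) =
      (a.phi1 (dil (a.mu (m + 1)) q) - a.phi1 (dil (a.mu (m + 1)) p)
        - (a.mu (m + 1) ^ 2 * dc p q) * a.g1 (dil (a.mu (m + 1)) p)) • e 3 +
      (a.phi2 (dil (a.mu (m + 1)) q) - a.phi2 (dil (a.mu (m + 1)) p)
        - (a.mu (m + 1) ^ 2 * dc p q) * a.g2 (dil (a.mu (m + 1)) p)) • e 4 := by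
    unfold phV
    module
  rw [e1]
  refine (ph_pair _ _).trans ?_
  have h1 := ph_aux a.phi1 a.g1 a.C hC a.lphi1 a.dphi1 (dil (a.mu (m + 1)) p)
    (dil (a.mu (m + 1)) q)
  have h2 := ph_aux a.phi2 a.g2 a.C hC a.lphi2 a.dphi2 (dil (a.mu (m + 1)) p)
    (dil (a.mu (m + 1)) q)
  rw [ds_dil _ (by linarith), dc_dil] at h1 h2
  linarith

theorem phX_norm (m : ℕ) (p : P) : ‖a.phX m p‖ ≤ 1 := by
  unfold phX
  apply ph_pair_exact _ _ _ zero_le_one
  rw [add_comm, Real.sin_sq_add_cos_sq, one_pow]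

theorem phY_norm (m : ℕ) (p : P) : ‖a.phY m p‖ ≤ 1 := by
  unfold phY
  apply ph_pair_exact _ _ _ zero_le_one
  rw [add_comm, Real.sin_sq_add_cos_sq, one_pow]

theorem phX_lip (m : ℕ) (p q : P) : ‖a.phX m q - a.phX m p‖ ≤ 2 * |a.NX m * (q.1 - p.1)| := by
  have h := ph_circ_lip (a.NX m * p.1) (a.NX m * q.1)
  have e1 : a.phX m q - a.phX m p = (Real.cos (a.NX m * q.1) - Real.cos (a.NX m * p.1)) • e 3
      + (Real.sin (a.NX m * q.1) - Real.sin (a.NX m * p.1)) • e 4 := by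
    unfold phX
    module
  rw [e1, mul_sub]
  exact h

theorem phY_lip (m : ℕ) (p q : P) : ‖a.phY m q - a.phY m p‖ ≤ 2 * |a.NY m * (q.2.1 - p.2.1)| := by
  have h := ph_circ_lip (a.NY m * p.2.1) (a.NY m * q.2.1)
  have e1 : a.phY m q - a.phY m p = (Real.cos (a.NY m * q.2.1) - Real.cos (a.NY m * p.2.1)) • e 3
      + (Real.sin (a.NY m * q.2.1) - Real.sin (a.NY m * p.2.1)) • e 4 := by
    unfold phY
    module
  rw [e1, mul_sub]
  exact h

theorem phX_snd (m : ℕ) (p q : P) :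
    ‖a.phX m q - a.phX m p - (a.NX m * (q.1 - p.1)) •
      ((-Real.sin (a.NX m * p.1)) • e 3 + Real.cos (a.NX m * p.1) • e 4)‖ ≤
    (a.NX m * (q.1 - p.1)) ^ 2 := by
  have h := ph_circ_snd (a.NX m * p.1) (a.NX m * (q.1 - p.1))
  have e0 : a.NX m * p.1 + a.NX m * (q.1 - p.1) = a.NX m * q.1 := by ring
  rw [e0] at h
  have e1 : a.phX m q - a.phX m p - (a.NX m * (q.1 - p.1)) •
      ((-Real.sin (a.NX m * p.1)) • e 3 + Real.cos (a.NX m * p.1) • e 4) =
      (Real.cos (a.NX m * q.1) - Real.cos (a.NX m * p.1)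
        + a.NX m * (q.1 - p.1) * Real.sin (a.NX m * p.1)) • e 3
      + (Real.sin (a.NX m * q.1) - Real.sin (a.NX m * p.1)
        - a.NX m * (q.1 - p.1) * Real.cos (a.NX m * p.1)) • e 4 := by
    unfold phX
    module
  rw [e1]
  exact h

theorem phY_snd (m : ℕ) (p q : P) :
    ‖a.phY m q - a.phY m p - (a.NY m * (q.2.1 - p.2.1)) •
      ((-Real.sin (a.NY m * p.2.1)) • e 3 + Real.cos (a.NY m * p.2.1) • e 4)‖ ≤
    (a.NY m * (q.2.1 - p.2.1)) ^ 2 := by
  have h := ph_circ_snd (a.NY m * p.2.1) (a.NY m * (q.2.1 - p.2.1))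
  have e0 : a.NY m * p.2.1 + a.NY m * (q.2.1 - p.2.1) = a.NY m * q.2.1 := by ring
  rw [e0] at h
  have e1 : a.phY m q - a.phY m p - (a.NY m * (q.2.1 - p.2.1)) •
      ((-Real.sin (a.NY m * p.2.1)) • e 3 + Real.cos (a.NY m * p.2.1) • e 4) =
      (Real.cos (a.NY m * q.2.1) - Real.cos (a.NY m * p.2.1)
        + a.NY m * (q.2.1 - p.2.1) * Real.sin (a.NY m * p.2.1)) • e 3
      + (Real.sin (a.NY m * q.2.1) - Real.sin (a.NY m * p.2.1)
        - a.NY m * (q.2.1 - p.2.1) * Real.cos (a.NY m * p.2.1)) • e 4 := by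
    unfold phY
    module
  rw [e1]
  exact h

end Par

end Pool.Agent.Helper962.Heis
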