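import Pool.Agent.Helper962.Heis.Qnorm

set_option autoImplicit false

noncomputable section

namespace Pool.Agent.Helper962.Heis

namespace Par
variable (a : Par)

theorem QV_lin (m : ℕ) (p : P) (u v w : ℝ) :
    a.QV m p (u • e 0 + v • e 1 + (w * a.r (dil (a.mu (m + 1)) p)) • e 2) =
      u • e 0 + v • e 1 + w • (a.g1 (dil (a.mu (m + 1)) p) • e 3
        + a.g2 (dil (a.mu (m + 1)) p) • e 4) := by
  have hr : a.r (dil (a.mu (m + 1)) p) ≠ 0 := by
    have h1 := a.cs_le_r (dil (a.mu (m + 1)) p)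
    have h2 := a.hcs
    linarith
  unfold QV
  simp only [LinearMap.comp_apply, map_add, map_smul,
    rotL_e_k 2 3 0 (by decide) (by decide), rotL_e_k 2 3 1 (by decide) (by decide),
    rotL_e_i 2 3 (by decide), rotL_e_k 3 4 0 (by decide) (by decide),
    rotL_e_k 3 4 1 (by decide) (by decide), rotL_e_k 3 4 2 (by decide) (by decide),
    rotL_e_i 3 4 (by decide)]
  match_scalars <;> field_simp <;> ring
theorem QX_lin (h : a.Good) (m : ℕ) (p : P) (u v w : ℝ) :
    a.QX m p ((a.Gam * u) • e 0 + v • e 1 + w • e 2) = u • e 0 + v • e 1 + w • e 2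
      + (a.be * u) • ((-Real.sin (a.NX m * p.1)) • e 3 + Real.cos (a.NX m * p.1) • e 4) := by
  have hG : a.Gam ≠ 0 := by
    have h1 := (a.Gam_bounds h).1
    linarith
  unfold QX
  simp only [LinearMap.comp_apply, map_add, map_smul,
    rotL_e_k 3 4 0 (by decide) (by decide), rotL_e_k 3 4 1 (by decide) (by decide),
    rotL_e_k 3 4 2 (by decide) (by decide), rotL_e_i 0 4 (by decide),
    rotL_e_k 0 4 1 (by decide) (by decide), rotL_e_k 0 4 2 (by decide) (by decide),
    rotL_e_j 3 4 (by decide)]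
  match_scalars <;> field_simp
theorem QY_lin (h : a.Good) (m : ℕ) (p : P) (u v w : ℝ) :
    a.QY m p (u • e 0 + (a.Gam * v) • e 1 + w • e 2) = u • e 0 + v • e 1 + w • e 2
      + (a.be * v) • ((-Real.sin (a.NY m * p.2.1)) • e 3 + Real.cos (a.NY m * p.2.1) • e 4) := by
  have hG : a.Gam ≠ 0 := by
    have h1 := (a.Gam_bounds h).1
    linarith
  unfold QY
  simp only [LinearMap.comp_apply, map_add, map_smul,
    rotL_e_k 3 4 0 (by decide) (by decide), rotL_e_k 3 4 1 (by decide) (by decide),
    rotL_e_k 3 4 2 (by decide) (by decide), rotL_e_i 1 4 (by decide),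
    rotL_e_k 1 4 0 (by decide) (by decide), rotL_e_k 1 4 2 (by decide) (by decide),
    rotL_e_j 3 4 (by decide)]
  match_scalars <;> field_simp

end Par

end Pool.Agent.Helper962.Heis
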