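import Pool.Agent.Helper962.Heis.Flip
import Pool.Agent.Helper962.Heis.Qlin
import Pool.Agent.Helper962.Heis.Ph

set_option autoImplicit false

noncomputable section

namespace Pool.Agent.Helper962.Heis

namespace Par
variable (a : Par)

theorem inv_zero (h : a.Good) (p q : P) (hp : |p.1| ≤ 1) :
    ‖a.fS 0 q - a.fS 0 p - a.FS 0 p (lin (a.G 0) (a.G 0) (a.S 0 * a.rr 0 p) p q)‖
      ≤ a.errS 0 p q := by
  have hG : a.G 0 = 1 := by simp [G]
  have hmu : a.mu 0 = 1 := by simp [mu]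
  have hS : a.S 0 = a.bT := by simp [S, hG, hmu]
  have hrr : a.rr 0 p = 1 := rfl
  have hF : a.FS 0 p = LinearMap.id := rfl
  have hf : ∀ z : P, a.fS 0 z = z.1 • e 0 + z.2.1 • e 1 + (a.bT * z.2.2) • e 2 := fun z => rfl
  have hds := ds_nonneg p q
  have hbT := h.bT0
  have heta := h.eta0
  have hCQ := a.eight_le_CQ
  have e1 : a.fS 0 q - a.fS 0 p - a.FS 0 p (lin (a.G 0) (a.G 0) (a.S 0 * a.rr 0 p) p q) =
      (a.bT * (p.1 * (q.2.1 - p.2.1))) • e 2 := by
    rw [hF, hG, hS, hrr, hf, hf, LinearMap.id_apply, lin, dc]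
    module
  have hn : ‖(e 2 : E)‖ = 1 := by
    simp [e]
  rw [e1, norm_smul, hn, mul_one, Real.norm_eq_abs, abs_mul, abs_mul, abs_of_pos hbT]
  have h1 : |q.2.1 - p.2.1| ≤ ds p q := by
    unfold ds
    linarith [abs_nonneg (q.1 - p.1)]
  have h2 : |p.1| * |q.2.1 - p.2.1| ≤ ds p q := by
    calc |p.1| * |q.2.1 - p.2.1| ≤ 1 * |q.2.1 - p.2.1| :=
          mul_le_mul_of_nonneg_right hp (abs_nonneg _)
      _ ≤ ds p q := by rw [one_mul]; exact h1
  have h3 : a.bT * (|p.1| * |q.2.1 - p.2.1|) ≤ a.eta * ds p q :=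
    (mul_le_mul_of_nonneg_left h2 hbT.le).trans (mul_le_mul_of_nonneg_right h.bT1 hds)
  have hdc := abs_nonneg (dc p q)
  have hES : 0 ≤ a.ES 0 p q := by
    unfold ES
    rw [hmu]
    have : 0 ≤ a.CQ := by linarith
    positivity
  have h4 : 0 ≤ a.eta * a.bT * |dc p q| := by positivity
  have h5 : 0 ≤ a.ES 0 p q * (1 * ds p q + a.bT * |dc p q|) := by positivity
  unfold errS
  rw [hG, hS]
  linarith

end Par

end Pool.Agent.Helper962.Heis
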