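import Pool.Agent.Helper962.Heis.Flip
import Pool.Agent.Helper962.Heis.Qlin
import Pool.Agent.Helper962.Heis.Ph

set_option autoImplicit false

noncomputable section

namespace Pool.Agent.Helper962.Heis

namespace Par
variable (a : Par)

theorem invS_ineq (K mu G G' s c dy be eta th bT CQ : ℝ) (hK : 100 ≤ K) (hmu : 1 ≤ mu)
    (hG : 1 ≤ G) (hGG : G ≤ G') (hs : 0 ≤ s) (hc : 0 ≤ c) (hdy : |dy| ≤ s) (hbe : 0 < be)
    (hbe1 : be ≤ 1 / 100) (heta : 0 < eta) (hth : 0 < th) (hbT : 0 < bT) (hCQ : 8 ≤ CQ)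
    (hkB : 8 * CQ ≤ eta * bT * K) (hkC : 2 * CQ + 4 ≤ th * K)
    (hth1 : (eta + 4 * th) * G ≤ eta * G') :
    ((eta + 2 * th) * G * s + (3 / 4) * eta * (bT * G' * mu) * c +
      (6 * K * mu * s + 2 * CQ * mu ^ 2 * c) * (G * s + (bT * G' * mu) * c)) +
      (be * G / (K ^ 2 * mu)) * (K ^ 2 * mu * dy) ^ 2 +
      (be * G / (K ^ 2 * mu)) * ((6 * K * mu * s + 2 * CQ * mu ^ 2 * c) * 1) ≤
    eta * G' * s + eta * (bT * G' * mu) * c +
      (6 * K ^ 2 * mu * s + 2 * CQ * mu ^ 2 * c) * (G' * s + (bT * G' * mu) * c) := by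
  have hK0 : 0 < K := by linarith
  have hmu0 : 0 < mu := by linarith
  have hG0 : 0 < G := by linarith
  have hG'0 : 0 < G' := by linarith
  have e1 : (be * G / (K ^ 2 * mu)) * (K ^ 2 * mu * dy) ^ 2 = be * G * K ^ 2 * mu * dy ^ 2 := by
    field_simp
  have e2 : (be * G / (K ^ 2 * mu)) * ((6 * K * mu * s + 2 * CQ * mu ^ 2 * c) * 1) =
      6 * be * G * s / K + 2 * CQ * be * G * mu * c / K ^ 2 := by
    field_simp
  have hdy2 : dy ^ 2 ≤ s ^ 2 := by
    rw [← sq_abs dy]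
    exact pow_le_pow_left₀ (abs_nonneg _) hdy 2
  have hKK : be * K ^ 2 ≤ 6 * K ^ 2 - 6 * K := by nlinarith
  have i1 : be * G * K ^ 2 * mu * dy ^ 2 ≤ (6 * K ^ 2 - 6 * K) * mu * s * (G * s) := by
    have h1 : 0 ≤ be * G * K ^ 2 * mu := by positivity
    have h2 : 0 ≤ G * mu * s ^ 2 := by positivity
    have h3 := mul_le_mul_of_nonneg_left hdy2 h1
    have h4 := mul_le_mul_of_nonneg_right hKK h2
    calc be * G * K ^ 2 * mu * dy ^ 2 ≤ be * G * K ^ 2 * mu * s ^ 2 := h3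
      _ = (be * K ^ 2) * (G * mu * s ^ 2) := by ring
      _ ≤ (6 * K ^ 2 - 6 * K) * (G * mu * s ^ 2) := h4
      _ = (6 * K ^ 2 - 6 * K) * mu * s * (G * s) := by ring
  have i2 : 6 * be * G * s / K ≤ th * G * s := by
    rw [div_le_iff₀ hK0]
    have h1 : 6 * be ≤ th * K := by linarith
    have h2 : 0 ≤ G * s := by positivity
    have h3 := mul_le_mul_of_nonneg_right h1 h2
    linarith
  have i3 : 2 * CQ * be * G * mu * c / K ^ 2 ≤ (1 / 4) * eta * (bT * G' * mu) * c := by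
    rw [div_le_iff₀ (by positivity)]
    have h0 : 0 ≤ eta * bT * K := by positivity
    have h1 : 2 * CQ * be ≤ (1 / 4) * (eta * bT * K) * K := by
      have h5 : 2 * CQ * be ≤ 2 * CQ * 1 := by nlinarith
      have h6 : (1 / 4) * (eta * bT * K) * 1 ≤ (1 / 4) * (eta * bT * K) * K := by
        apply mul_le_mul_of_nonneg_left (by linarith)
        positivity
      linarith
    have h7 : 0 ≤ (1 / 4) * (eta * bT * K) * K := by positivity
    have h8 : 2 * CQ * be * G ≤ (1 / 4) * (eta * bT * K) * K * G' := by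
      calc 2 * CQ * be * G ≤ (1 / 4) * (eta * bT * K) * K * G :=
            mul_le_mul_of_nonneg_right h1 hG0.le
        _ ≤ (1 / 4) * (eta * bT * K) * K * G' := mul_le_mul_of_nonneg_left hGG h7
    have h9 : 0 ≤ mu * c := by positivity
    have h10 := mul_le_mul_of_nonneg_right h8 h9
    calc 2 * CQ * be * G * mu * c = 2 * CQ * be * G * (mu * c) := by ring
      _ ≤ (1 / 4) * (eta * bT * K) * K * G' * (mu * c) := h10
      _ = (1 / 4) * eta * (bT * G' * mu) * c * K ^ 2 := by ring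
  have i4 : (eta + 4 * th) * G * s ≤ eta * G' * s := mul_le_mul_of_nonneg_right hth1 hs
  have i5 : (6 * K ^ 2 * mu * s + 2 * CQ * mu ^ 2 * c) * (G * s + (bT * G' * mu) * c) ≤
      (6 * K ^ 2 * mu * s + 2 * CQ * mu ^ 2 * c) * (G' * s + (bT * G' * mu) * c) := by
    apply mul_le_mul_of_nonneg_left
    · have := mul_le_mul_of_nonneg_right hGG hs
      linarith
    · positivity
  have i6 : (6 * K * mu * s + 2 * CQ * mu ^ 2 * c) * (G * s + (bT * G' * mu) * c) +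
      (6 * K ^ 2 - 6 * K) * mu * s * (G * s) ≤
      (6 * K ^ 2 * mu * s + 2 * CQ * mu ^ 2 * c) * (G * s + (bT * G' * mu) * c) := by
    have h1 : 0 ≤ (6 * K ^ 2 - 6 * K) * mu * s * ((bT * G' * mu) * c) := by
      have h2 : 0 ≤ 6 * K ^ 2 - 6 * K := by nlinarith
      positivity
    linarith
  rw [e1, e2]
  have h20 : 0 ≤ th * G * s := by positivity
  linarith

theorem inv_S (h : a.Good) (m : ℕ) (p q : P)
    (hi : ‖a.fX m q - a.fX m p - a.FX m p
        (lin (a.Gam * a.G m) (a.G m) (a.S (m + 1) * a.rr (m + 1) p) p q)‖ ≤ a.errX m p q) :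
    ‖a.fS (m + 1) q - a.fS (m + 1) p - a.FS (m + 1) p
        (lin (a.G (m + 1)) (a.G (m + 1)) (a.S (m + 1) * a.rr (m + 1) p) p q)‖
      ≤ a.errS (m + 1) p q := by
  have hK : 100 ≤ a.K := h.kK
  have hK0 : 0 < a.K := by linarith
  have hmu := one_le_mu a h (m + 1)
  have hmu0 : 0 < a.mu (m + 1) := by linarith
  have hG := one_le_G a h m
  have hG0 : 0 < a.G m := by linarith
  obtain ⟨hGam1, _, _⟩ := Gam_bounds a h
  have hCQ := eight_le_CQ a
  have hs := ds_nonneg p q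
  have hGs : a.G (m + 1) = a.Gam * a.G m := G_succ a m
  have hA : 0 ≤ a.AY m := by
    unfold AY
    have := h.be0
    positivity
  have hE : 0 ≤ a.EX m p q := by
    unfold EX
    positivity
  have hAN : a.AY m * a.NY m = a.be * a.G m := by
    unfold AY NY
    field_simp
  obtain ⟨w, hw⟩ : ∃ w : ℝ, w = a.S (m + 1) * a.rr (m + 1) p := ⟨_, rfl⟩
  rw [← hw] at hi ⊢
  have hQ : a.QY m p (lin (a.G (m + 1)) (a.G (m + 1)) w p q) =
      lin (a.Gam * a.G m) (a.G m) w p q + a.AY m • ((a.NY m * (q.2.1 - p.2.1)) •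
        ((-Real.sin (a.NY m * p.2.1)) • e 3 + Real.cos (a.NY m * p.2.1) • e 4)) := by
    have h1 := QY_lin a h m p (a.G (m + 1) * (q.1 - p.1)) (a.G m * (q.2.1 - p.2.1)) (w * dc p q)
    unfold lin
    have h2 : a.G (m + 1) * (q.2.1 - p.2.1) = a.Gam * (a.G m * (q.2.1 - p.2.1)) := by
      rw [hGs]; ring
    rw [h2, h1, hGs, smul_smul (a.AY m)]
    have h3 : a.be * (a.G m * (q.2.1 - p.2.1)) = a.AY m * (a.NY m * (q.2.1 - p.2.1)) := by
      rw [← mul_assoc, ← hAN]; ring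
    rw [h3]
  have hst := step_err (a.FX m p) (a.FX m q) (a.QY m p) (a.fX m p) (a.fX m q) (a.phY m p)
    (a.phY m q) (lin (a.Gam * a.G m) (a.G m) w p q) (lin (a.G (m + 1)) (a.G (m + 1)) w p q)
    ((a.NY m * (q.2.1 - p.2.1)) •
        ((-Real.sin (a.NY m * p.2.1)) • e 3 + Real.cos (a.NY m * p.2.1) • e 4))
    (a.AY m) (a.EX m p q) 1 (a.errX m p q) ((a.NY m * (q.2.1 - p.2.1)) ^ 2)
    (FX_norm a m p) (FX_lip a h m p q) hA hE hi (phY_snd a m p q) (phY_norm a m q) hQ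
  rw [fS_succ, fS_succ, FS_succ, LinearMap.comp_apply]
  refine hst.trans ?_
  have hdy : |q.2.1 - p.2.1| ≤ ds p q := by
    unfold ds
    linarith [abs_nonneg (q.1 - p.1)]
  have hfin := invS_ineq a.K (a.mu (m + 1)) (a.G m) (a.G (m + 1)) (ds p q) |dc p q|
    (q.2.1 - p.2.1) a.be a.eta a.th a.bT a.CQ hK hmu hG (by rw [hGs]; nlinarith) hs (abs_nonneg _)
    hdy h.be0 h.be1 h.eta0 h.th0 h.bT0 hCQ h.kB h.kC (by
      rw [hGs, ← mul_assoc]
      exact mul_le_mul_of_nonneg_right h.th1 hG0.le)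
  unfold errX errS EX ES AY NY S
  exact hfin

end Par

end Pool.Agent.Helper962.Heis
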