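import Pool.Agent.Helper962.Heis.Flip
import Pool.Agent.Helper962.Heis.Qlin
import Pool.Agent.Helper962.Heis.Ph

set_option autoImplicit false

noncomputable section

namespace Pool.Agent.Helper962.Heis

namespace Par
variable (a : Par)

theorem invV_real833 (C CQ eta th bT K G g' M mu Sm S' AV s c rr : ℝ)
    (hC : 1 ≤ C) (hCQ : 8 * C ≤ CQ) (heta0 : 0 < eta) (heta1 : eta ≤ 1)
    (hth : 20 * C * bT ≤ th) (hbT : 0 < bT) (hK : 100 ≤ K)
    (hkA : 2 * (1 + 2 * C + 4 * C * CQ) ≤ eta * K) (hG : 1 ≤ G) (hg1 : G ≤ g') (hg2 : g' ≤ 2 * G)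
    (hM : 1 ≤ M) (hmu : mu = K ^ 4 * M) (hSm : Sm = bT * G * M) (hS' : S' = bT * g' * mu)
    (hAV : AV * mu = bT * g') (hAV0 : 0 < AV) (hs : 0 ≤ s) (hc : 0 ≤ c) (hrr : rr ≤ 2 * C) :
    (eta * G * s + eta * Sm * c + (6 * K ^ 2 * M * s + 2 * CQ * M ^ 2 * c) * (G * s + Sm * c)
      + Sm * rr * c) + AV * (2 * C * (mu * s) + 2 * C * (mu ^ 2 * c) ^ 2)
      + AV * ((6 * K ^ 2 * M * s + 2 * CQ * M ^ 2 * c) * (2 * C))
    ≤ (eta + th) * G * s + (1 / 2) * eta * S' * c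
      + (2 * CQ * mu * s + 2 * CQ * mu ^ 2 * c) * (G * s + S' * c) := by
  have hC0 : 0 < C := by linarith
  have hCQ0 : 0 < CQ := by linarith
  have hCQ8 : 8 ≤ CQ := by linarith
  have hK0 : 0 < K := by linarith
  have hM0 : 0 < M := by linarith
  have hG0 : 0 < G := by linarith
  have hg0 : 0 < g' := by linarith
  have hmu0 : 0 < mu := by rw [hmu]; positivity
  have hS0 : 0 < S' := by rw [hS']; positivity
  have hSm0 : 0 < Sm := by rw [hSm]; positivity
  have hK2 : 100 ≤ K ^ 2 := by nlinarith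
  have hK4 : K ^ 2 ≤ K ^ 4 := by
    have : K ^ 4 = K ^ 2 * K ^ 2 := by ring
    rw [this]; nlinarith
  have hK41 : K ≤ K ^ 4 := by nlinarith
  have hK8 : K ≤ K ^ 8 := by
    have h1 : K ^ 8 = K ^ 4 * K ^ 4 := by ring
    rw [h1]
    have h2 : 1 ≤ K ^ 4 := by linarith
    nlinarith
  have hSmK : Sm * K ^ 4 ≤ S' := by
    rw [hSm, hS', hmu]
    have : bT * G * M * K ^ 4 = bT * G * (K ^ 4 * M) := by ring
    rw [this]
    gcongr
  have hSmK1 : Sm * K ≤ S' := le_trans (mul_le_mul_of_nonneg_left hK41 hSm0.le) hSmK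
  have hSmS : Sm ≤ S' := by nlinarith
  have hAV2 : AV * mu ^ 2 = S' := by rw [hS', pow_two, ← mul_assoc, hAV]
  have hAV3 : AV * M ^ 2 * K ≤ S' := by
    rw [← hAV2, hmu]
    have : AV * (K ^ 4 * M) ^ 2 = AV * M ^ 2 * K ^ 8 := by ring
    rw [this]
    exact mul_le_mul_of_nonneg_left hK8 (by positivity)
  -- linear c
  have hlin : (eta + 2 * C) * Sm + 4 * C * CQ * (AV * M ^ 2) ≤ 1 / 2 * eta * S' := by
    have h1 : K * ((eta + 2 * C) * Sm + 4 * C * CQ * (AV * M ^ 2)) ≤ K * (1 / 2 * eta * S') := by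
      calc K * ((eta + 2 * C) * Sm + 4 * C * CQ * (AV * M ^ 2))
          = (eta + 2 * C) * (Sm * K) + 4 * C * CQ * (AV * M ^ 2 * K) := by ring
        _ ≤ (1 + 2 * C) * S' + 4 * C * CQ * S' := by
            gcongr
        _ = (1 + 2 * C + 4 * C * CQ) * S' := by ring
        _ ≤ (1 / 2 * (eta * K)) * S' := by
            apply mul_le_mul_of_nonneg_right _ hS0.le
            linarith
        _ = K * (1 / 2 * eta * S') := by ring
    exact le_of_mul_le_mul_left h1 hK0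
  have hlinc := mul_le_mul_of_nonneg_right hlin hc
  -- linear s
  have hAV4 : AV * (K ^ 2 * M) * 100 ≤ bT * g' := by
    rw [← hAV, hmu]
    have : AV * (K ^ 4 * M) = AV * (K ^ 2 * M) * K ^ 2 := by ring
    rw [this]
    exact mul_le_mul_of_nonneg_left hK2 (by positivity)
  have hls : AV * (2 * C * mu) + 12 * C * (AV * (K ^ 2 * M)) ≤ th * G := by
    have h1 : AV * (2 * C * mu) = 2 * C * (bT * g') := by rw [← hAV]; ring
    rw [h1]
    have h2 : AV * (K ^ 2 * M) ≤ bT * g' / 100 := by linarith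
    have h3 : bT * g' ≤ bT * (2 * G) := mul_le_mul_of_nonneg_left hg2 hbT.le
    calc 2 * C * (bT * g') + 12 * C * (AV * (K ^ 2 * M))
        ≤ 2 * C * (bT * g') + 12 * C * (bT * g' / 100) := by gcongr
      _ = (2 + 12 / 100) * C * (bT * g') := by ring
      _ ≤ (2 + 12 / 100) * C * (bT * (2 * G)) := by gcongr
      _ ≤ 20 * C * bT * G := by
          have h4 : 0 < C * bT * G := by positivity
          nlinarith
      _ ≤ th * G := mul_le_mul_of_nonneg_right hth hG0.le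
  have hlss := mul_le_mul_of_nonneg_right hls hs
  -- quadratic
  have hES : 6 * K ^ 2 * M * s + 2 * CQ * M ^ 2 * c ≤ CQ * mu * s + CQ * mu ^ 2 * c := by
    have h1 : 6 * K ^ 2 * M ≤ CQ * mu := by
      rw [hmu]
      calc 6 * K ^ 2 * M ≤ 8 * K ^ 4 * M := by gcongr <;> norm_num
        _ ≤ CQ * K ^ 4 * M := by gcongr
        _ = CQ * (K ^ 4 * M) := by ring
    have h2 : 2 * CQ * M ^ 2 ≤ CQ * mu ^ 2 := by
      rw [hmu]
      have h3 : (K ^ 4 * M) ^ 2 = K ^ 8 * M ^ 2 := by ring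
      rw [h3]
      have h4 : 2 ≤ K ^ 8 := by linarith
      calc 2 * CQ * M ^ 2 ≤ K ^ 8 * CQ * M ^ 2 := by gcongr
        _ = CQ * (K ^ 8 * M ^ 2) := by ring
    have h5 := mul_le_mul_of_nonneg_right h1 hs
    have h6 := mul_le_mul_of_nonneg_right h2 hc
    linarith
  have hES2 : (6 * K ^ 2 * M * s + 2 * CQ * M ^ 2 * c) * (G * s + Sm * c)
      ≤ (CQ * mu * s + CQ * mu ^ 2 * c) * (G * s + S' * c) := by
    gcongr
  have hq : AV * (2 * C * (mu ^ 2 * c) ^ 2) ≤ CQ * mu ^ 2 * c * (S' * c) := by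
    have h1 : AV * (2 * C * (mu ^ 2 * c) ^ 2) = 2 * C * ((AV * mu ^ 2) * (mu ^ 2 * c ^ 2)) := by
      ring
    rw [h1, hAV2]
    calc 2 * C * (S' * (mu ^ 2 * c ^ 2)) ≤ CQ * (S' * (mu ^ 2 * c ^ 2)) := by
          apply mul_le_mul_of_nonneg_right _ (by positivity)
          linarith
      _ = CQ * mu ^ 2 * c * (S' * c) := by ring
  have hrr2 : Sm * rr * c ≤ Sm * (2 * C) * c := by gcongr
  have hpos1 : 0 ≤ (CQ * mu * s) * (G * s + S' * c) := by positivity
  have hpos2 : 0 ≤ (CQ * mu ^ 2 * c) * (G * s) := by positivity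
  nlinarith

theorem inv_V (h : a.Good) (m : ℕ) (p q : P)
    (hi : ‖a.fS m q - a.fS m p - a.FS m p (lin (a.G m) (a.G m) (a.S m * a.rr m p) p q)‖
      ≤ a.errS m p q) :
    ‖a.fV m q - a.fV m p - a.FV m p (lin (a.G m) (a.G m) (a.S (m + 1) * a.rr (m + 1) p) p q)‖
      ≤ a.errV m p q := by
  have hmu1 := a.one_le_mu h (m + 1)
  have hmupos : 0 < a.mu (m + 1) := by linarith
  have hM := a.one_le_mu h m
  have hG := a.one_le_G h m
  have hG' := a.one_le_G h (m + 1)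
  obtain ⟨hGam1, _, hGam2⟩ := a.Gam_bounds h
  have hbT := h.bT0
  have hAVmu : a.AV m * a.mu (m + 1) = a.bT * a.G (m + 1) := by
    unfold AV
    field_simp
  have hAVmu2 : a.AV m * a.mu (m + 1) ^ 2 = a.S (m + 1) := by
    rw [pow_two, ← mul_assoc, hAVmu]
    rfl
  have hAV0 : 0 < a.AV m := by
    unfold AV
    positivity
  have hSm0 : 0 < a.S m := by
    unfold S
    have : 0 < a.G m := by linarith
    have : 0 < a.mu m := by linarith
    positivity
  have hcs := a.cs_le_rr m p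
  have hrr0 : 0 ≤ a.rr m p := le_trans a.hcs.le hcs
  have hrr := a.rr_le m p
  have hCQ8 := a.eight_le_CQ
  have hES0 : 0 ≤ a.ES m p q := by
    unfold ES
    have h1 := ds_nonneg p q
    have h2 : 0 ≤ a.mu m := by linarith
    have h3 : 0 ≤ a.CQ := by linarith
    positivity
  have he2 : ‖e 2‖ = 1 := by
    unfold e
    simp
  have h1 : ‖a.fS m q - a.fS m p - a.FS m p (lin (a.G m) (a.G m) 0 p q)‖
      ≤ a.errS m p q + a.S m * a.rr m p * |dc p q| := by
    have e1 : a.fS m q - a.fS m p - a.FS m p (lin (a.G m) (a.G m) 0 p q)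
        = (a.fS m q - a.fS m p - a.FS m p (lin (a.G m) (a.G m) (a.S m * a.rr m p) p q))
          + a.FS m p ((a.S m * a.rr m p * dc p q) • e 2) := by
      have e2 : lin (a.G m) (a.G m) (a.S m * a.rr m p) p q
          = lin (a.G m) (a.G m) 0 p q + (a.S m * a.rr m p * dc p q) • e 2 := by
        unfold lin
        rw [zero_mul, zero_smul, add_zero]
      rw [e2, map_add]
      abel
    rw [e1]
    refine (norm_add_le _ _).trans ?_
    rw [a.FS_norm, norm_smul, he2, mul_one, Real.norm_eq_abs, abs_mul,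
      abs_of_nonneg (mul_nonneg hSm0.le hrr0)]
    linarith
  have hQ : a.QV m p (lin (a.G m) (a.G m) (a.S (m + 1) * a.rr (m + 1) p) p q)
      = lin (a.G m) (a.G m) 0 p q + a.AV m • ((a.mu (m + 1) ^ 2 * dc p q) •
      (a.g1 (dil (a.mu (m + 1)) p) • e 3 + a.g2 (dil (a.mu (m + 1)) p) • e 4)) := by
    have h2 := a.QV_lin m p (a.G m * (q.1 - p.1)) (a.G m * (q.2.1 - p.2.1))
      (a.S (m + 1) * dc p q)
    have h3 : lin (a.G m) (a.G m) (a.S (m + 1) * a.rr (m + 1) p) p q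
        = (a.G m * (q.1 - p.1)) • e 0 + (a.G m * (q.2.1 - p.2.1)) • e 1
          + (a.S (m + 1) * dc p q * a.r (dil (a.mu (m + 1)) p)) • e 2 := by
      unfold lin
      congr 2
      show a.S (m + 1) * a.r (dil (a.mu (m + 1)) p) * dc p q = _
      ring
    rw [h3, h2]
    unfold lin
    rw [zero_mul, zero_smul, add_zero, smul_smul, ← mul_assoc, hAVmu2]
  have key := step_err (a.FS m p) (a.FS m q) (a.QV m p) (a.fS m p) (a.fS m q) (a.phV m p)
    (a.phV m q) (lin (a.G m) (a.G m) 0 p q)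
    (lin (a.G m) (a.G m) (a.S (m + 1) * a.rr (m + 1) p) p q)
    ((a.mu (m + 1) ^ 2 * dc p q) •
      (a.g1 (dil (a.mu (m + 1)) p) • e 3 + a.g2 (dil (a.mu (m + 1)) p) • e 4))
    (a.AV m) (a.ES m p q) (2 * a.C) _ _ (a.FS_norm m p) (a.FS_lip h m p q) hAV0.le hES0
    h1 (a.phV_snd h m p q) (a.phV_norm m q) hQ
  have hdefV : a.fV m q - a.fV m p - a.FV m p (lin (a.G m) (a.G m)
      (a.S (m + 1) * a.rr (m + 1) p) p q)
      = (a.fS m q + a.AV m • a.FS m q (a.phV m q)) - (a.fS m p + a.AV m • a.FS m p (a.phV m p))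
        - a.FS m p (a.QV m p (lin (a.G m) (a.G m) (a.S (m + 1) * a.rr (m + 1) p) p q)) := rfl
  rw [hdefV]
  refine key.trans ?_
  have hsq : (a.mu (m + 1) ^ 2 * dc p q) ^ 2 = (a.mu (m + 1) ^ 2 * |dc p q|) ^ 2 := by
    rw [mul_pow, mul_pow, sq_abs]
  rw [hsq]
  have hCQC : 8 * a.C ≤ a.CQ := by
    unfold CQ
    rw [le_div_iff₀ a.hcs]
    have := a.hcs1
    have := a.hC
    nlinarith
  have heta1 : a.eta ≤ 1 := by
    have h1 := h.etadel
    have h2 := h.del0
    have h3 := a.hcs1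
    linarith
  have hGS := a.G_succ m
  have hreal := invV_real833 a.C a.CQ a.eta a.th a.bT a.K (a.G m) (a.G (m + 1)) (a.mu m)
    (a.mu (m + 1)) (a.S m) (a.S (m + 1)) (a.AV m) (ds p q) |dc p q| (a.rr m p) a.hC hCQC h.eta0
    heta1 h.bT2 h.bT0 h.kK h.kA hG (by rw [hGS]; nlinarith) (by rw [hGS]; nlinarith) hM
    (a.mu_succ m) rfl rfl hAVmu hAV0 (ds_nonneg p q) (abs_nonneg _) hrr
  unfold errS errV ES EV
  linarith

end Par

end Pool.Agent.Helper962.Heis
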