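import Pool.Agent.Helper962.Heis.Flip
import Pool.Agent.Helper962.Heis.Qlin
import Pool.Agent.Helper962.Heis.Ph

set_option autoImplicit false

noncomputable section

namespace Pool.Agent.Helper962.Heis

namespace Par
variable (a : Par)

theorem invX_ineq (G K mu be th eta CQ bT Gam s dx c : ℝ)
    (hG : 1 ≤ G) (hK : 100 ≤ K) (hmu : 1 ≤ mu) (hbe : 0 < be) (hbe1 : be ≤ 1 / 100)
    (hth : 0 < th) (heta : 0 < eta) (hCQ : 8 ≤ CQ) (hbT : 0 < bT) (hGam : 1 ≤ Gam)
    (kB : 8 * CQ ≤ eta * bT * K) (kC : 2 * CQ + 4 ≤ th * K) (kJ : CQ ≤ K)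
    (hs : 0 ≤ s) (hc : 0 ≤ c) (hdx : |dx| ≤ s) :
    ((eta + th) * G * s + (1 / 2) * eta * (bT * (Gam * G) * mu) * c
      + (2 * CQ * mu * s + 2 * CQ * mu ^ 2 * c) * (G * s + (bT * (Gam * G) * mu) * c))
      + (be * G / (K * mu)) * (K * mu * dx) ^ 2
      + (be * G / (K * mu)) * ((2 * CQ * mu * s + 2 * CQ * mu ^ 2 * c) * 1) ≤
    (eta + 2 * th) * G * s + (3 / 4) * eta * (bT * (Gam * G) * mu) * c
      + (6 * K * mu * s + 2 * CQ * mu ^ 2 * c) * (G * s + (bT * (Gam * G) * mu) * c) := by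
  have hK0 : 0 < K := by linarith
  have hmu0 : 0 < mu := by linarith
  have hG0 : 0 < G := by linarith
  have hGam0 : 0 < Gam := by linarith
  have hCQ0 : 0 < CQ := by linarith
  -- quadratic term
  have e1 : (be * G / (K * mu)) * (K * mu * dx) ^ 2 = be * G * K * mu * dx ^ 2 := by
    field_simp
  have e2 : (be * G / (K * mu)) * ((2 * CQ * mu * s + 2 * CQ * mu ^ 2 * c) * 1)
      = 2 * CQ * be * G * s / K + 2 * CQ * be * G * mu * c / K := by
    field_simp
  have hdx2 : dx ^ 2 ≤ s ^ 2 := by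
    have := abs_nonneg dx
    rw [← sq_abs dx]
    exact pow_le_pow_left₀ this hdx 2
  have q1 : be * G * K * mu * dx ^ 2 ≤ (6 * K - 2 * CQ) * mu * s * (G * s) := by
    have t1 : be * G * K * mu * dx ^ 2 ≤ be * G * K * mu * s ^ 2 :=
      mul_le_mul_of_nonneg_left hdx2 (by positivity)
    have t2 : be * K ≤ 6 * K - 2 * CQ := by nlinarith
    have t3 : be * K * (G * mu * s ^ 2) ≤ (6 * K - 2 * CQ) * (G * mu * s ^ 2) :=
      mul_le_mul_of_nonneg_right t2 (by positivity)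
    calc be * G * K * mu * dx ^ 2 ≤ be * G * K * mu * s ^ 2 := t1
      _ = be * K * (G * mu * s ^ 2) := by ring
      _ ≤ (6 * K - 2 * CQ) * (G * mu * s ^ 2) := t3
      _ = (6 * K - 2 * CQ) * mu * s * (G * s) := by ring
  have q2 : 0 ≤ (6 * K - 2 * CQ) * mu * s * ((bT * (Gam * G) * mu) * c) := by
    have : 0 ≤ 6 * K - 2 * CQ := by linarith
    positivity
  have q3 : 2 * CQ * be * G * s / K ≤ th * G * s := by
    rw [div_le_iff₀ hK0]
    have t1 : 2 * CQ * be ≤ th * K := by nlinarith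
    calc 2 * CQ * be * G * s = 2 * CQ * be * (G * s) := by ring
      _ ≤ th * K * (G * s) := mul_le_mul_of_nonneg_right t1 (by positivity)
      _ = th * G * s * K := by ring
  have q4 : 2 * CQ * be * G * mu * c / K ≤ (1 / 4) * eta * (bT * (Gam * G) * mu) * c := by
    rw [div_le_iff₀ hK0]
    have t1 : 2 * CQ * be ≤ (1 / 4) * (eta * bT * K) := by nlinarith
    have t2 : (1 / 4) * (eta * bT * K) * 1 ≤ (1 / 4) * (eta * bT * K) * Gam :=
      mul_le_mul_of_nonneg_left hGam (by positivity)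
    calc 2 * CQ * be * G * mu * c = 2 * CQ * be * (G * mu * c) := by ring
      _ ≤ (1 / 4) * (eta * bT * K) * Gam * (G * mu * c) :=
        mul_le_mul_of_nonneg_right (by linarith) (by positivity)
      _ = (1 / 4) * eta * (bT * (Gam * G) * mu) * c * K := by ring
  rw [e1, e2]
  nlinarith [q1, q2, q3, q4]

theorem inv_X (h : a.Good) (m : ℕ) (p q : P)
    (hi : ‖a.fV m q - a.fV m p - a.FV m p
        (lin (a.G m) (a.G m) (a.S (m + 1) * a.rr (m + 1) p) p q)‖ ≤ a.errV m p q) :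
    ‖a.fX m q - a.fX m p - a.FX m p
        (lin (a.Gam * a.G m) (a.G m) (a.S (m + 1) * a.rr (m + 1) p) p q)‖ ≤ a.errX m p q := by
  have hK : 100 ≤ a.K := h.kK
  have hK0 : 0 < a.K := by linarith
  have hmu : 1 ≤ a.mu (m + 1) := a.one_le_mu h (m + 1)
  have hmu0 : 0 < a.mu (m + 1) := by linarith
  have hG : 1 ≤ a.G m := a.one_le_G h m
  have hG0 : 0 < a.G m := by linarith
  have hbe := h.be0
  have hGam := (a.Gam_bounds h).1
  have hCQ : 8 ≤ a.CQ := a.eight_le_CQ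
  have hds := ds_nonneg p q
  have hA : 0 ≤ a.AX m := by unfold AX; positivity
  have hE : 0 ≤ a.EV m p q := by
    have : 0 < a.CQ := by linarith
    unfold EV; positivity
  have hAN : a.AX m * a.NX m = a.be * a.G m := by
    unfold AX NX; field_simp
  have hQ : a.QX m p (lin (a.Gam * a.G m) (a.G m) (a.S (m + 1) * a.rr (m + 1) p) p q) =
      lin (a.G m) (a.G m) (a.S (m + 1) * a.rr (m + 1) p) p q
        + a.AX m • ((a.NX m * (q.1 - p.1)) •
          ((-Real.sin (a.NX m * p.1)) • e 3 + Real.cos (a.NX m * p.1) • e 4)) := by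
    have := a.QX_lin h m p (a.G m * (q.1 - p.1)) (a.G m * (q.2.1 - p.2.1))
      (a.S (m + 1) * a.rr (m + 1) p * dc p q)
    unfold lin
    rw [mul_assoc a.Gam, this, smul_smul, ← mul_assoc (a.AX m), hAN, mul_assoc a.be]
  have key := step_err (a.FV m p) (a.FV m q) (a.QX m p) (a.fV m p) (a.fV m q)
    (a.phX m p) (a.phX m q)
    (lin (a.G m) (a.G m) (a.S (m + 1) * a.rr (m + 1) p) p q)
    (lin (a.Gam * a.G m) (a.G m) (a.S (m + 1) * a.rr (m + 1) p) p q)
    ((a.NX m * (q.1 - p.1)) •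
      ((-Real.sin (a.NX m * p.1)) • e 3 + Real.cos (a.NX m * p.1) • e 4))
    (a.AX m) (a.EV m p q) 1 (a.errV m p q) ((a.NX m * (q.1 - p.1)) ^ 2)
    (a.FV_norm m p) (a.FV_lip h m p q) hA hE hi (a.phX_snd m p q) (a.phX_norm m q) hQ
  refine le_trans key ?_
  have hdx : |q.1 - p.1| ≤ ds p q := by
    unfold ds
    have := abs_nonneg (q.2.1 - p.2.1)
    linarith
  have fin := invX_ineq (a.G m) a.K (a.mu (m + 1)) a.be a.th a.eta a.CQ a.bT a.Gam (ds p q)
    (q.1 - p.1) |dc p q| hG hK hmu hbe h.be1 h.th0 h.eta0 hCQ h.bT0 hGam.le h.kB h.kC h.kJ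
    hds (abs_nonneg _) hdx
  have hS : a.S (m + 1) = a.bT * (a.Gam * a.G m) * a.mu (m + 1) := by
    unfold S; rw [G_succ]
  unfold errV errX EV EX AX NX
  rw [hS]
  exact fin

end Par

end Pool.Agent.Helper962.Heis
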