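import Pool.Agent.Helper962.Heis.Defs

set_option autoImplicit false

noncomputable section

namespace Pool.Agent.Helper962.Heis

namespace Par
variable (a : Par)

/-- the lower constant -/
def low : ℝ := a.cs * a.tau * a.bT / (24 * a.K ^ 4)

end Par

end Pool.Agent.Helper962.Heis
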