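import Pool.Agent.Helper962.Heis.Tails
import Pool.Agent.Helper962.Heis.Low
import Pool.Agent.Helper962.Heis.InvV

set_option autoImplicit false

noncomputable section

namespace Pool.Agent.Helper962.Heis

namespace Par
variable (a : Par)

theorem lowV1_AV (h : a.Good) (m : ℕ) : 0 ≤ a.AV m := by
  have h1 := a.one_le_G h (m + 1)
  have h2 := a.one_le_mu h (m + 1)
  have h3 := h.bT0
  unfold AV
  positivity

theorem lowV1_aux (h : a.Good) (m : ℕ) (p q : P)
    (hi : ‖a.fS m q - a.fS m p - a.FS m p (lin (a.G m) (a.G m) (a.S m * a.rr m p) p q)‖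
      ≤ a.errS m p q) :
    (a.G m * ds p q + a.cs * (a.S m * |dc p q|)) / 3 - a.errS m p q
      - a.AV m * (a.ES m p q * (2 * a.C)) ≤ ‖a.fV m q - a.fV m p‖ := by
  have hAV := a.lowV1_AV h m
  have hG := a.one_le_G h m
  have hmu := a.one_le_mu h m
  have hbT := h.bT0
  have hcs := a.hcs
  have hrr := a.cs_le_rr m p
  have hS : 0 ≤ a.S m := by unfold S; positivity
  set l := lin (a.G m) (a.G m) (a.S m * a.rr m p) p q with hl
  obtain ⟨x, hx⟩ : ∃ x, x = a.AV m * (a.phi1 (dil (a.mu (m + 1)) q) - a.phi1 (dil (a.mu (m + 1)) p)) :=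
    ⟨_, rfl⟩
  obtain ⟨y, hy⟩ : ∃ y, y = a.AV m * (a.phi2 (dil (a.mu (m + 1)) q) - a.phi2 (dil (a.mu (m + 1)) p)) :=
    ⟨_, rfl⟩
  have h1 : a.AV m • (a.phV m q - a.phV m p) = x • e 3 + y • e 4 := by
    rw [hx, hy]; simp only [phV]; module
  have h2 : (|a.G m| * |q.1 - p.1| + |a.G m| * |q.2.1 - p.2.1| + |a.S m * a.rr m p| * |dc p q|) / 3
      ≤ ‖l + (x • e 3 + y • e 4)‖ := orth_lower _ _ _ x y p q
  have h3 : a.fV m q - a.fV m p = a.FS m p (l + (x • e 3 + y • e 4)) +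
      ((a.fS m q - a.fS m p - a.FS m p l) +
        a.AV m • (a.FS m q (a.phV m q) - a.FS m p (a.phV m q))) := by
    rw [← h1]
    simp only [fV, map_add, map_smul, map_sub]
    module
  have h4 : ‖a.AV m • (a.FS m q (a.phV m q) - a.FS m p (a.phV m q))‖ ≤
      a.AV m * (a.ES m p q * (2 * a.C)) := by
    rw [norm_smul, Real.norm_eq_abs, abs_of_nonneg hAV]
    apply mul_le_mul_of_nonneg_left _ hAV
    refine (a.FS_lip h m p q _).trans ?_
    apply mul_le_mul_of_nonneg_left (a.phV_norm m q)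
    have := ds_nonneg p q
    have hCQ := a.eight_le_CQ
    unfold ES
    positivity
  have h5 : ‖a.FS m p (l + (x • e 3 + y • e 4))‖ ≤ ‖a.fV m q - a.fV m p‖ + (a.errS m p q +
      a.AV m * (a.ES m p q * (2 * a.C))) := by
    have h6 : a.FS m p (l + (x • e 3 + y • e 4)) = (a.fV m q - a.fV m p) -
      ((a.fS m q - a.fS m p - a.FS m p l) +
        a.AV m • (a.FS m q (a.phV m q) - a.FS m p (a.phV m q))) := by
      rw [h3]; abel
    rw [h6]
    refine (norm_sub_le _ _).trans ?_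
    gcongr
    refine (norm_add_le _ _).trans ?_
    gcongr
  rw [a.FS_norm] at h5
  have h7 : (a.G m * ds p q + a.cs * (a.S m * |dc p q|)) / 3 ≤
      (|a.G m| * |q.1 - p.1| + |a.G m| * |q.2.1 - p.2.1| + |a.S m * a.rr m p| * |dc p q|) / 3 := by
    rw [abs_of_nonneg (by linarith : (0:ℝ) ≤ a.G m),
      abs_of_nonneg (by apply mul_nonneg hS; linarith : (0:ℝ) ≤ a.S m * a.rr m p)]
    have h8 : a.cs * (a.S m * |dc p q|) ≤ a.S m * a.rr m p * |dc p q| := by
      have : 0 ≤ a.S m * |dc p q| := by positivity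
      nlinarith [mul_le_mul_of_nonneg_right hrr this]
    unfold ds
    linarith
  linarith

theorem lower_V1 (h : a.Good) (F : P → E)
    (hF : ∀ m p, ‖F p - a.fS m p‖ ≤ 1 / 2 * (a.G m / a.mu (m + 1))) (m : ℕ) (p q : P)
    (hi : ‖a.fS m q - a.fS m p - a.FS m p (lin (a.G m) (a.G m) (a.S m * a.rr m p) p q)‖
      ≤ a.errS m p q)
    (h1 : a.ES m p q ≤ a.del) (h2 : a.sig ≤ a.mu (m + 1) * ds p q) :
    a.low * (a.G m / a.mu (m + 1)) ≤ ‖F q - F p‖ := by
  have haux := a.lowV1_aux h m p q hi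
  have htq := a.tail_V h F hF m q
  have htp := a.tail_V h F hF m p
  have hG := a.one_le_G h m
  have hmu := a.one_le_mu h m
  have hmu1 := a.one_le_mu h (m + 1)
  have hbT := h.bT0
  have hcs := a.hcs
  have hcs1 := a.hcs1
  have hC := a.hC
  have hCQ := a.eight_le_CQ
  obtain ⟨hGam1, -, hGam2⟩ := a.Gam_bounds h
  have hK := h.kK
  have hs : 0 ≤ ds p q := ds_nonneg p q
  have hc : 0 ≤ |dc p q| := abs_nonneg _
  obtain ⟨s, hs'⟩ : ∃ s, s = ds p q := ⟨_, rfl⟩
  obtain ⟨c, hc'⟩ : ∃ c, c = |dc p q| := ⟨_, rfl⟩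
  obtain ⟨X, hX⟩ : ∃ X, X = a.G m * s := ⟨_, rfl⟩
  obtain ⟨Y, hY⟩ : ∃ Y, Y = a.S m * c := ⟨_, rfl⟩
  rw [← hs'] at hs h2 haux
  rw [← hc'] at hc haux
  rw [← hX, ← hY] at haux
  have hX0 : 0 ≤ X := by rw [hX]; positivity
  have hY0 : 0 ≤ Y := by rw [hY]; unfold S; positivity
  have hK0 : 0 < a.K := by linarith
  -- error
  have herr : a.errS m p q ≤ (a.eta + a.del) * (X + Y) := by
    have e1 : a.errS m p q = a.eta * (X + Y) + a.ES m p q * (X + Y) := by
      rw [hX, hY, hs', hc']; unfold errS; ring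
    rw [e1]
    nlinarith [mul_le_mul_of_nonneg_right h1 (by linarith : 0 ≤ X + Y)]
  have heta := h.eta0
  have hdel := h.del0
  have hed := h.etadel
  have herr2 : (a.eta + a.del) * (X + Y) ≤ (X + a.cs * Y) / 48 := by
    have e1 : (a.eta + a.del) * (X + Y) ≤ (a.cs / 48) * (X + Y) :=
      mul_le_mul_of_nonneg_right (by linarith) (by linarith)
    have e2 : a.cs * X ≤ X := by nlinarith
    linarith
  -- frame error
  have hAE : a.AV m * (a.ES m p q * (2 * a.C)) =
      (12 * a.C * a.bT * a.Gam / a.K ^ 2) * X + (4 * a.C * a.CQ * a.Gam / a.K ^ 4) * Y := by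
    rw [hX, hY, hs', hc']
    unfold AV ES S
    rw [a.G_succ, a.mu_succ]
    have : a.mu m ≠ 0 := by positivity
    have : a.K ≠ 0 := by positivity
    field_simp
    ring
  have hk1 : 12 * a.C * a.bT * a.Gam / a.K ^ 2 ≤ 1 / 100 := by
    rw [div_le_div_iff₀ (by positivity) (by norm_num)]
    have e1 : a.C * a.bT ≤ 1 / 64 := by linarith [h.bT3]
    have e2 : a.C * a.bT * a.Gam ≤ 1 / 64 * (101 / 100) := by
      apply mul_le_mul e1 hGam2 (by linarith) (by norm_num)
    have e3 : (100:ℝ) ^ 2 ≤ a.K ^ 2 := by gcongr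
    nlinarith
  have hk2 : 4 * a.C * a.CQ * a.Gam / a.K ^ 4 ≤ a.cs / 100 := by
    rw [div_le_div_iff₀ (by positivity) (by norm_num)]
    have e1 : 4 * a.C * a.CQ ≤ a.cs * a.K := by
      have := h.kA
      have e0 : a.eta * a.K ≤ a.cs * a.K := mul_le_mul_of_nonneg_right (by linarith) hK0.le
      have : 0 < a.C * a.CQ := by positivity
      nlinarith
    have e2 : 4 * a.C * a.CQ * a.Gam ≤ a.cs * a.K * (101 / 100) := by
      apply mul_le_mul e1 hGam2 (by linarith) (by positivity)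
    have e3 : (100:ℝ) ^ 3 ≤ a.K ^ 3 := by gcongr
    have e4 : a.cs * a.K * 100 ^ 3 ≤ a.cs * a.K ^ 4 := by
      have : a.cs * a.K ^ 4 = a.cs * a.K * a.K ^ 3 := by ring
      rw [this]
      apply mul_le_mul_of_nonneg_left e3 (by positivity)
    nlinarith
  have hAE2 : a.AV m * (a.ES m p q * (2 * a.C)) ≤ (X + a.cs * Y) / 100 := by
    rw [hAE]
    have e1 := mul_le_mul_of_nonneg_right hk1 hX0
    have e2 := mul_le_mul_of_nonneg_right hk2 hY0
    linarith
  -- tails
  have hrat : 0 < a.G m / a.mu (m + 1) := by positivity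
  have hZ : a.sig * (a.G m / a.mu (m + 1)) ≤ X := by
    rw [hX, ← mul_div_assoc, div_le_iff₀ (by positivity)]
    nlinarith [mul_le_mul_of_nonneg_left h2 (by linarith : 0 ≤ a.G m)]
  have hsig : 8 / a.K ≤ a.sig := by
    rw [div_le_iff₀ hK0]; exact h.kF
  have hK8 : (8 / a.K) * (a.G m / a.mu (m + 1)) ≤ X :=
    (mul_le_mul_of_nonneg_right hsig hrat.le).trans hZ
  have htail : ‖a.fV m q - a.fV m p‖ ≤ ‖F q - F p‖ + 2 * ((1 / (50 * a.K)) * (a.G m / a.mu (m + 1))) := by
    have e1 : a.fV m q - a.fV m p = (F q - F p) - (F q - a.fV m q) + (F p - a.fV m p) := by abel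
    rw [e1]
    refine (norm_add_le _ _).trans ?_
    have := norm_sub_le (F q - F p) (F q - a.fV m q)
    linarith
  have e50 : (1 / (50 * a.K)) * (a.G m / a.mu (m + 1)) =
      (8 / a.K) * (a.G m / a.mu (m + 1)) / 400 := by
    field_simp; ring
  have hlow : a.low ≤ 1 / a.K := by
    unfold low
    rw [div_le_div_iff₀ (by positivity) hK0]
    have e1 : a.cs * a.tau ≤ 1 := by
      have := a.htau
      have := a.htau1
      nlinarith
    have e2 : a.bT ≤ 1 := by linarith [h.bT1]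
    have e3 : a.cs * a.tau * a.bT ≤ 1 := by
      have : 0 < a.cs * a.tau := mul_pos hcs a.htau
      nlinarith
    have e4 : a.K ≤ a.K ^ 4 := by
      have : (1:ℝ) ≤ a.K := by linarith
      exact le_self_pow₀ this (by norm_num)
    nlinarith
  have hlow2 : a.low * (a.G m / a.mu (m + 1)) ≤ (8 / a.K) * (a.G m / a.mu (m + 1)) / 8 := by
    have := mul_le_mul_of_nonneg_right hlow hrat.le
    have e1 : (8 / a.K) * (a.G m / a.mu (m + 1)) / 8 = 1 / a.K * (a.G m / a.mu (m + 1)) := by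
      field_simp
    rw [e1]; exact this
  rw [e50] at htail
  have hcY : 0 ≤ a.cs * Y := by positivity
  linarith

end Par

end Pool.Agent.Helper962.Heis
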