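import Pool.Agent.Helper962.Heis.Tails
import Pool.Agent.Helper962.Heis.Low
import Pool.Agent.Helper962.Heis.InvV

set_option autoImplicit false

noncomputable section

namespace Pool.Agent.Helper962.Heis

namespace Par
variable (a : Par)


theorem lowV2_tri (z a b c d : E) (h : z = a - b - c + d) : ‖z‖ ≤ ‖a‖ + ‖b‖ + ‖c‖ + ‖d‖ := by
  rw [h]
  have h1 := norm_add_le (a - b - c) d
  have h2 := norm_sub_le (a - b) c
  have h3 := norm_sub_le a b
  linarith

theorem lowV2_dphi (M : ℝ) (hM : 0 ≤ M) (p q : P) (f : P → ℝ)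
    (hf : ∀ p q, |f q - f p| ≤ a.C * (ds p q + |dc p q|)) :
    |f (dil M q) - f (M * p.1, M * p.2.1, M ^ 2 * p.2.2 + M ^ 2 * dc p q)| ≤
      a.C * (M * ds p q) := by
  refine (hf _ _).trans (le_of_eq ?_)
  have e1 : ds ((M * p.1, M * p.2.1, M ^ 2 * p.2.2 + M ^ 2 * dc p q) : P) (dil M q) =
      M * ds p q := by
    unfold ds dil
    simp only
    rw [← mul_sub, ← mul_sub, abs_mul, abs_mul, abs_of_nonneg hM]; ring
  have e2 : dc ((M * p.1, M * p.2.1, M ^ 2 * p.2.2 + M ^ 2 * dc p q) : P) (dil M q) = 0 := by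
    unfold dc dil
    simp only
    ring
  rw [e1, e2, abs_zero, add_zero]

theorem lower_V2 (h : a.Good) (F : P → E)
    (hF : ∀ m p, ‖F p - a.fS m p‖ ≤ 1 / 2 * (a.G m / a.mu (m + 1))) (m : ℕ) (p q : P)
    (hi : ‖a.fS m q - a.fS m p - a.FS m p (lin (a.G m) (a.G m) (a.S m * a.rr m p) p q)‖
      ≤ a.errS m p q)
    (h1 : a.ES m p q ≤ a.del) (h2 : a.del < a.EV m p q)
    (h3 : a.mu (m + 1) * ds p q < a.sig) (h4 : a.mu (m + 1) ^ 2 * |dc p q| ≤ a.tau) :
    a.low * (a.G m / a.mu (m + 1)) ≤ ‖F q - F p‖ := by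
  have hs := ds_nonneg p q
  have hM1 := a.one_le_mu h (m + 1)
  have hN1 := a.one_le_mu h m
  have hMN := a.mu_succ m
  have hG1 := a.one_le_G h m
  obtain ⟨hGa1, hGa2, hGa3⟩ := a.Gam_bounds h
  have hCQ := a.eight_le_CQ
  have hC := a.hC
  have hK := h.kK
  have hbT := h.bT0
  have hsig := h.sig0
  have hdel := h.del0
  have hcs := a.hcs
  have hcs1 := a.hcs1
  have htau := a.htau
  have htau1 := a.htau1
  have heta := h.eta0
  have hc0 := a.hc0
  set M := a.mu (m + 1) with hMdef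
  set N := a.mu m with hNdef
  set s := ds p q with hsdef
  set c := dc p q with hcdef
  have hM0 : 0 < M := by linarith
  have hN0 : 0 < N := by linarith
  have hK0 : 0 < a.K := by linarith
  have hC0 : 0 < a.C := by linarith
  have hCQ0 : 0 < a.CQ := by linarith
  have hc := abs_nonneg c
  set g := a.G m / M with hg
  have hg0 : 0 < g := by positivity
  have hGg : a.G m = g * M := by rw [hg]; field_simp
  have hbT1 : a.bT ≤ 1 := by linarith [h.bT1, h.etadel]
  have hed : a.eta + a.del ≤ 1 := by linarith [h.etadel]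
  -- the number D
  set D := a.c0 * a.del / (64 * a.CQ) with hD
  have hDe : 64 * a.CQ * D = a.c0 * a.del := by rw [hD]; field_simp
  have hD0 : 0 < D := by positivity
  have hDK : 1 / a.K ≤ D := by
    rw [div_le_iff₀ hK0]
    have h5 := h.kH
    rw [← hDe] at h5
    have h6 : 64 * a.CQ * 1 ≤ 64 * a.CQ * (D * a.K) := by linarith
    exact le_of_mul_le_mul_left h6 (by linarith)
  have hMs0 : 0 ≤ M * s := by positivity
  have hMc0 : 0 ≤ M ^ 2 * |c| := by positivity
  have hMc1 : M ^ 2 * |c| ≤ 1 := by linarith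
  -- the increments of the base functions
  set d1 := a.phi1 (dil M q) - a.phi1 (dil M p) with hd1
  set d2 := a.phi2 (dil M q) - a.phi2 (dil M p) with hd2
  have hdd : 8 * D ≤ |d1| + |d2| := by
    have e0 : |M ^ 2 * c| = M ^ 2 * |c| := by rw [abs_mul, abs_of_nonneg (by positivity)]
    have g1 := a.inj (M * p.1) (M * p.2.1) (M ^ 2 * p.2.2) (M ^ 2 * c) (by rw [e0]; exact h4)
    rw [e0] at g1
    have g2 := a.lowV2_dphi M hM0.le p q a.phi1 a.lphi1
    have g3 := a.lowV2_dphi M hM0.le p q a.phi2 a.lphi2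
    rw [← hsdef, ← hcdef] at g2 g3
    have e1 : (dil M p : P) = (M * p.1, M * p.2.1, M ^ 2 * p.2.2) := rfl
    rw [← e1] at g1
    set u1 := a.phi1 (M * p.1, M * p.2.1, M ^ 2 * p.2.2 + M ^ 2 * c)
    set u2 := a.phi2 (M * p.1, M * p.2.1, M ^ 2 * p.2.2 + M ^ 2 * c)
    have g4 : |u1 - a.phi1 (dil M p)| ≤ |d1| + |a.phi1 (dil M q) - u1| := by
      have : u1 - a.phi1 (dil M p) = d1 - (a.phi1 (dil M q) - u1) := by rw [hd1]; ring
      rw [this]
      exact abs_sub _ _
    have g5 : |u2 - a.phi2 (dil M p)| ≤ |d2| + |a.phi2 (dil M q) - u2| := by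
      have : u2 - a.phi2 (dil M p) = d2 - (a.phi2 (dil M q) - u2) := by rw [hd2]; ring
      rw [this]
      exact abs_sub _ _
    have g6 : a.c0 * (M ^ 2 * |c|) ≤ |d1| + |d2| + 2 * (a.C * (M * s)) := by linarith
    have g7 : 16 * D ≤ a.c0 * (M ^ 2 * |c|) := by
      have h5 : a.del < 4 * a.CQ * (M ^ 2 * |c|) := by
        unfold EV at h2
        rw [← hMdef, ← hsdef, ← hcdef] at h2
        have h6 := h.sig1
        have h7 : a.CQ * (M * s) ≤ a.CQ * a.sig := mul_le_mul_of_nonneg_left h3.le hCQ0.le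
        nlinarith
      have h6 : a.c0 * a.del ≤ a.c0 * (4 * a.CQ * (M ^ 2 * |c|)) :=
        mul_le_mul_of_nonneg_left h5.le hc0.le
      rw [← hDe] at h6
      have h7 : (4 * a.CQ) * (16 * D) ≤ (4 * a.CQ) * (a.c0 * (M ^ 2 * |c|)) := by linarith
      exact le_of_mul_le_mul_left h7 (by linarith)
    have g8 : 2 * (a.C * (M * s)) ≤ 8 * D := by
      have h5 := h.sig2
      rw [← hDe] at h5
      have h6 : a.C * (M * s) ≤ a.C * a.sig := mul_le_mul_of_nonneg_left h3.le hC0.le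
      have h7 : (8 * a.CQ) * (2 * (a.C * a.sig)) ≤ (8 * a.CQ) * (8 * D) := by linarith
      have h8 := le_of_mul_le_mul_left h7 (by linarith)
      linarith
    linarith
  -- the main term
  have hAV : a.AV m = a.bT * a.Gam * g := by
    unfold AV
    rw [a.G_succ m, ← hMdef, hg]
    ring
  have hAV0 : 0 < a.AV m := by rw [hAV]; positivity
  have hph : a.phV m q - a.phV m p = d1 • e 3 + d2 • e 4 := by
    unfold phV
    rw [← hMdef, hd1, hd2]
    module
  set L := lin (a.G m) (a.G m) (a.S m * a.rr m p) p q with hL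
  set Z := a.FS m p (L + a.AV m • (a.phV m q - a.phV m p)) with hZ
  have hZn : 4 * (a.bT * D * g) ≤ ‖Z‖ := by
    rw [hZ, a.FS_norm, hph, smul_add, smul_smul, smul_smul, hL]
    refine le_trans ?_ (orth_lower' _ _ _ _ _ p q)
    rw [abs_mul, abs_mul, abs_of_pos hAV0, ← mul_add]
    have h5 : a.bT * g ≤ a.AV m := by
      rw [hAV]
      have : a.bT * g * 1 ≤ a.bT * g * a.Gam :=
        mul_le_mul_of_nonneg_left hGa1.le (by positivity)
      linarith
    have h6 : (a.bT * g) * (8 * D) ≤ a.AV m * (|d1| + |d2|) :=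
      mul_le_mul h5 hdd (by positivity) hAV0.le
    linarith
  have hES0 : 0 ≤ a.ES m p q := by
    unfold ES
    rw [← hNdef, ← hsdef, ← hcdef]
    positivity
  have hstep : ‖a.fV m q - a.fV m p - Z‖ ≤
      a.errS m p q + a.AV m * 0 + a.AV m * (a.ES m p q * (2 * a.C)) := by
    have h5 := step_err (a.FS m p) (a.FS m q) LinearMap.id (a.fS m p) (a.fS m q) (a.phV m p)
      (a.phV m q) L (L + a.AV m • (a.phV m q - a.phV m p)) (a.phV m q - a.phV m p) (a.AV m)
      (a.ES m p q) (2 * a.C) (a.errS m p q) 0 (a.FS_norm m p) (a.FS_lip h m p q) hAV0.le hES0 hi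
      (by rw [sub_self, norm_zero]) (a.phV_norm m q) rfl
    exact h5
  -- sizes
  have hK1 : 1 ≤ a.K := by linarith
  have hKN : a.K * N ≤ M := by
    rw [hMN]
    exact mul_le_mul_of_nonneg_right (by
      calc a.K = a.K ^ 1 := (pow_one _).symm
        _ ≤ a.K ^ 4 := pow_le_pow_right₀ hK1 (by norm_num)) hN0.le
  have hK2N : a.K ^ 2 * N ≤ M := by
    rw [hMN]
    exact mul_le_mul_of_nonneg_right (pow_le_pow_right₀ hK1 (by norm_num)) hN0.le
  have hNM : N ≤ M := by
    refine le_trans ?_ hKN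
    nlinarith
  have hMNc : M * N * |c| ≤ 1 / a.K := by
    rw [le_div_iff₀ hK0]
    have h5 : M * |c| * (a.K * N) ≤ M * |c| * M := mul_le_mul_of_nonneg_left hKN (by positivity)
    nlinarith
  have hNNc : N ^ 2 * |c| ≤ 1 / a.K := by
    refine le_trans ?_ hMNc
    have h5 : N * |c| * N ≤ N * |c| * M := mul_le_mul_of_nonneg_left hNM (by positivity)
    nlinarith
  have hK2Ns : a.K ^ 2 * N * s ≤ a.sig :=
    (mul_le_mul_of_nonneg_right hK2N hs).trans h3.le
  have hES1 : a.ES m p q ≤ 6 * a.sig + 2 * a.CQ * (1 / a.K) := by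
    unfold ES
    rw [← hNdef, ← hsdef, ← hcdef]
    have h5 : 2 * a.CQ * (N ^ 2 * |c|) ≤ 2 * a.CQ * (1 / a.K) :=
      mul_le_mul_of_nonneg_left hNNc (by positivity)
    linarith
  have herr : a.errS m p q ≤ g * a.sig + g * (1 / a.K) := by
    have e1 : a.errS m p q = (a.eta + a.ES m p q) * (g * (M * s) + a.bT * (g * (M * N * |c|))) := by
      unfold errS S
      rw [← hNdef, ← hsdef, ← hcdef, hGg]
      ring
    rw [e1]
    have h5 : g * (M * s) ≤ g * a.sig := mul_le_mul_of_nonneg_left h3.le hg0.le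
    have h6 : a.bT * (g * (M * N * |c|)) ≤ 1 * (g * (1 / a.K)) :=
      mul_le_mul hbT1 (mul_le_mul_of_nonneg_left hMNc hg0.le) (by positivity) (by norm_num)
    have h7 : 0 ≤ g * (M * s) + a.bT * (g * (M * N * |c|)) := by positivity
    have h8 : (a.eta + a.ES m p q) * (g * (M * s) + a.bT * (g * (M * N * |c|))) ≤
        1 * (g * (M * s) + a.bT * (g * (M * N * |c|))) :=
      mul_le_mul_of_nonneg_right (by linarith) h7
    linarith
  have herr2 : a.AV m * (a.ES m p q * (2 * a.C)) ≤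
      g * (16 * a.C * a.sig) + g * (8 * a.C * a.CQ * (1 / a.K)) := by
    rw [hAV]
    have hKi : 0 < 1 / a.K := by positivity
    have h5 : a.ES m p q * (2 * a.C) ≤ (6 * a.sig + 2 * a.CQ * (1 / a.K)) * (2 * a.C) :=
      mul_le_mul_of_nonneg_right hES1 (by positivity)
    have h6 : a.bT * a.Gam ≤ 1 * (101 / 100) := mul_le_mul hbT1 hGa3 (by linarith) (by norm_num)
    have h7 : a.bT * a.Gam * g ≤ 1 * (101 / 100) * g := mul_le_mul_of_nonneg_right h6 hg0.le
    have h8 : a.bT * a.Gam * g * (a.ES m p q * (2 * a.C)) ≤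
        (1 * (101 / 100) * g) * ((6 * a.sig + 2 * a.CQ * (1 / a.K)) * (2 * a.C)) :=
      mul_le_mul h7 h5 (by positivity) (by positivity)
    refine h8.trans ?_
    have h9 : 0 ≤ g * (a.C * a.sig) := by positivity
    have h10 : 0 ≤ g * (a.C * a.CQ * (1 / a.K)) := by positivity
    nlinarith
  have hs3 : (1 + 16 * a.C) * a.sig ≤ a.bT * D / 2 := by
    have h5 := h.sig3
    have h6 : a.bT * a.c0 * a.del = a.bT * (64 * a.CQ * D) := by rw [hDe]; ring
    rw [h6] at h5
    have h7 : (128 * a.CQ) * ((1 + 16 * a.C) * a.sig) ≤ (128 * a.CQ) * (a.bT * D / 2) := by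
      linarith
    exact le_of_mul_le_mul_left h7 (by linarith)
  have hkG : (2 + 8 * a.C * a.CQ) * (1 / a.K) ≤ a.bT * D / 2 := by
    have h5 := h.kG
    have h6 : a.bT * a.c0 * a.del * a.K = a.bT * (64 * a.CQ * D) * a.K := by rw [hDe]; ring
    rw [h6] at h5
    rw [mul_one_div, div_le_iff₀ hK0]
    have h7 : (128 * a.CQ) * (2 + 8 * a.C * a.CQ) ≤ (128 * a.CQ) * (a.bT * D / 2 * a.K) := by
      linarith
    exact le_of_mul_le_mul_left h7 (by linarith)
  have ht1 := a.tail_V h F hF m q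
  have ht2 := a.tail_V h F hF m p
  rw [← hMdef, ← hg] at ht1 ht2
  have ht3 : 1 / (50 * a.K) * g ≤ g * (1 / a.K) / 2 := by
    have e1 : 1 / (50 * a.K) * g = g * (1 / a.K) / 50 := by
      field_simp
    rw [e1]
    have : 0 < g * (1 / a.K) := by positivity
    linarith
  have htri := lowV2_tri Z (F q - F p) (F q - a.fV m q) (a.fV m q - a.fV m p - Z)
    (F p - a.fV m p) (by abel)
  have hlow : a.low * g ≤ a.bT * D * g := by
    refine mul_le_mul_of_nonneg_right ?_ hg0.le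
    unfold low
    have h5 : a.cs * a.tau * a.bT / (24 * a.K ^ 4) ≤ a.bT * (1 / a.K) := by
      rw [div_le_iff₀ (by positivity)]
      have h6 : a.K ≤ a.K ^ 4 := by
        calc a.K = a.K ^ 1 := (pow_one _).symm
          _ ≤ a.K ^ 4 := pow_le_pow_right₀ hK1 (by norm_num)
      have h7 : 1 ≤ 1 / a.K * (24 * a.K ^ 4) := by
        rw [one_div, inv_mul_eq_div, le_div_iff₀ hK0]
        linarith
      have h8 : a.cs * a.tau ≤ 1 := by nlinarith
      calc a.cs * a.tau * a.bT ≤ 1 * a.bT := mul_le_mul_of_nonneg_right h8 hbT.le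
        _ = a.bT * 1 := by ring
        _ ≤ a.bT * (1 / a.K * (24 * a.K ^ 4)) := mul_le_mul_of_nonneg_left h7 hbT.le
        _ = a.bT * (1 / a.K) * (24 * a.K ^ 4) := by ring
    exact h5.trans (mul_le_mul_of_nonneg_left hDK hbT.le)
  have hf1 : g * ((1 + 16 * a.C) * a.sig) ≤ g * (a.bT * D / 2) :=
    mul_le_mul_of_nonneg_left hs3 hg0.le
  have hf2 : g * ((2 + 8 * a.C * a.CQ) * (1 / a.K)) ≤ g * (a.bT * D / 2) :=
    mul_le_mul_of_nonneg_left hkG hg0.le
  have hbD : 0 < a.bT * D * g := by positivity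
  nlinarith

end Par

end Pool.Agent.Helper962.Heis
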