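import Pool.Agent.Helper962.Heis.Flip
import Pool.Agent.Helper962.Heis.Ph
import Pool.Agent.Helper962.Heis.Qlin

set_option autoImplicit false

noncomputable section

namespace Pool.Agent.Helper962.Heis

namespace Par
variable (a : Par)

/-- the sum of the four corrugations between level `m` and the vertical step of level `m + 1` -/
def Psi (m : ℕ) (z : P) : E :=
  a.AV m • a.phV m z + a.AX m • a.QV m z (a.phX m z)
    + a.AY m • a.QV m z (a.QX m z (a.phY m z))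
    + a.AV (m + 1) • a.QV m z (a.QX m z (a.QY m z (a.phV (m + 1) z)))
theorem psi_eq (m : ℕ) (z : P) : a.fV (m + 1) z = a.fS m z + a.FS m z (a.Psi m z) := by
  have h1 : a.fS (m + 1) z = a.fS m z + a.AV m • a.FS m z (a.phV m z)
        + a.AX m • a.FS m z (a.QV m z (a.phX m z))
        + a.AY m • a.FS m z (a.QV m z (a.QX m z (a.phY m z))) := rfl
  have h2 : ∀ v, a.FS (m + 1) z v = a.FS m z (a.QV m z (a.QX m z (a.QY m z v))) := fun v => rfl
  unfold fV Psi
  rw [h1, h2]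
  simp only [map_add, map_smul]
  abel

theorem psi_c34 (x y : ℝ) : (x • e 3 + y • e 4) 0 = 0 ∧ (x • e 3 + y • e 4) 1 = 0 ∧
    (x • e 3 + y • e 4) 2 = 0 ∧ (x • e 3 + y • e 4) 3 = x := by
  refine ⟨?_, ?_, ?_, ?_⟩ <;> simp [e]

theorem psi_QV (m : ℕ) (p : P) (v : E) : (a.QV m p v) 0 = v 0 ∧ (a.QV m p v) 1 = v 1 ∧
    (a.QV m p v) 2 = -(v 3) := by
  unfold QV
  simp only [LinearMap.comp_apply]
  refine ⟨?_, ?_, ?_⟩
  · rw [rotL_coord_k 3 4 0 (by decide) (by decide), rotL_coord_k 2 3 0 (by decide) (by decide)]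
  · rw [rotL_coord_k 3 4 1 (by decide) (by decide), rotL_coord_k 2 3 1 (by decide) (by decide)]
  · rw [rotL_coord_k 3 4 2 (by decide) (by decide), rotL_coord_i 2 3 (by decide)]
    ring

/-- basic sizes -/
theorem psi_consts (h : a.Good) (m : ℕ) : 0 < a.K ∧ 0 < a.mu (m + 1) ∧ 0 < a.G m ∧
    a.AV m = a.bT * a.Gam * (a.G m / a.mu (m + 1)) ∧ a.AX m = a.be / a.K * (a.G m / a.mu (m + 1)) ∧
    a.AY m = a.be / a.K ^ 2 * (a.G m / a.mu (m + 1)) ∧
    a.AV (m + 1) = a.bT * a.Gam ^ 2 / a.K ^ 4 * (a.G m / a.mu (m + 1)) := by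
  have hK : 0 < a.K := by linarith [h.kK]
  have hmu : 0 < a.mu (m + 1) := by linarith [a.one_le_mu h (m + 1)]
  have hG : 0 < a.G m := by linarith [a.one_le_G h m]
  refine ⟨hK, hmu, hG, ?_, ?_, ?_, ?_⟩
  · unfold AV
    rw [G_succ]
    ring
  · unfold AX
    field_simp
  · unfold AY
    field_simp
  · unfold AV
    rw [G_succ, G_succ, mu_succ (m := m + 1)]
    field_simp

theorem psi_norm (h : a.Good) (m : ℕ) (z : P) :
    ‖a.Psi m z‖ ≤ 1 / 16 * (a.G m / a.mu (m + 1)) := by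
  obtain ⟨hK, hmu, hG, e1, e2, e3, e4⟩ := a.psi_consts h m
  set q := a.G m / a.mu (m + 1) with hq
  have hq0 : 0 < q := by positivity
  obtain ⟨g1, g2, g3⟩ := a.Gam_bounds h
  have hbe := h.be0
  have hbT := h.bT0
  have hC : 0 < a.C := by linarith [a.hC]
  have hAV : 0 ≤ a.AV m := by rw [e1]; positivity
  have hAX : 0 ≤ a.AX m := by rw [e2]; positivity
  have hAY : 0 ≤ a.AY m := by rw [e3]; positivity
  have hAV' : 0 ≤ a.AV (m + 1) := by rw [e4]; positivity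
  have hb : ‖a.Psi m z‖ ≤ a.AV m * (2 * a.C) + a.AX m * 1 + a.AY m * 1 + a.AV (m + 1) * (2 * a.C) := by
    unfold Psi
    refine (norm_add_le _ _).trans (add_le_add ((norm_add_le _ _).trans (add_le_add
      ((norm_add_le _ _).trans (add_le_add ?_ ?_)) ?_)) ?_)
    · rw [norm_smul, Real.norm_of_nonneg hAV]
      exact mul_le_mul_of_nonneg_left (a.phV_norm m z) hAV
    · rw [norm_smul, Real.norm_of_nonneg hAX, QV_norm]
      exact mul_le_mul_of_nonneg_left (a.phX_norm m z) hAX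
    · rw [norm_smul, Real.norm_of_nonneg hAY, QV_norm, QX_norm]
      exact mul_le_mul_of_nonneg_left (a.phY_norm m z) hAY
    · rw [norm_smul, Real.norm_of_nonneg hAV', QV_norm, QX_norm, QY_norm]
      exact mul_le_mul_of_nonneg_left (a.phV_norm (m + 1) z) hAV'
  refine hb.trans ?_
  rw [e1, e2, e3, e4]
  have hKK := h.kK
  have k1 : a.be / a.K ≤ 1 / 10000 := by
    rw [div_le_div_iff₀ hK (by norm_num)]
    nlinarith [h.be1]
  have k2 : a.be / a.K ^ 2 ≤ 1 / 10000 := by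
    have : a.be / a.K ^ 2 ≤ a.be / a.K := by
      apply div_le_div_of_nonneg_left hbe.le hK
      nlinarith
    linarith
  have hCb : a.bT * (2 * a.C) ≤ 1 / 32 := by nlinarith [h.bT3]
  have hCb0 : 0 < a.bT * (2 * a.C) := by positivity
  have k3 : a.bT * a.Gam * (2 * a.C) ≤ 101 / 3200 := by
    have : a.bT * a.Gam * (2 * a.C) = (a.bT * (2 * a.C)) * a.Gam := by ring
    rw [this]
    nlinarith
  have k4 : a.bT * a.Gam ^ 2 / a.K ^ 4 * (2 * a.C) ≤ 1 / 1000 := by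
    have e : a.bT * a.Gam ^ 2 / a.K ^ 4 * (2 * a.C) = ((a.bT * (2 * a.C)) * a.Gam ^ 2) / a.K ^ 4 := by ring
    rw [e, div_le_div_iff₀ (by positivity) (by norm_num)]
    have f1 : a.Gam ^ 2 ≤ 2 := by nlinarith
    have f2 : (100:ℝ) ^ 4 ≤ a.K ^ 4 := by gcongr
    nlinarith
  have : (a.bT * a.Gam * q * (2 * a.C) + a.be / a.K * q * 1 + a.be / a.K ^ 2 * q * 1 +
      a.bT * a.Gam ^ 2 / a.K ^ 4 * q * (2 * a.C)) = (a.bT * a.Gam * (2 * a.C) + a.be / a.K + a.be / a.K ^ 2 +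
      a.bT * a.Gam ^ 2 / a.K ^ 4 * (2 * a.C)) * q := by ring
  rw [this]
  apply mul_le_mul_of_nonneg_right _ hq0.le
  linarith

theorem psi_err (h : a.Good) (m : ℕ) (z : P) (i : Fin 5) :
    |(a.QX m z (a.QY m z (a.phV (m + 1) z))) i - (a.phV (m + 1) z) i| ≤ 8 * a.be * a.C := by
  have h1 : ‖a.QX m z (a.QY m z (a.phV (m + 1) z)) - a.phV (m + 1) z‖ ≤ 8 * a.be * a.C := by
    have e1 := a.QX_near h m z (a.QY m z (a.phV (m + 1) z))
    have e2 := a.QY_near h m z (a.phV (m + 1) z)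
    have e3 := norm_sub_le_norm_sub_add_norm_sub (a.QX m z (a.QY m z (a.phV (m + 1) z)))
      (a.QY m z (a.phV (m + 1) z)) (a.phV (m + 1) z)
    have e4 := a.phV_norm (m + 1) z
    rw [QY_norm] at e1
    have hbe := h.be0
    nlinarith
  have h2 := coord_le_norm (a.QX m z (a.QY m z (a.phV (m + 1) z)) - a.phV (m + 1) z) i
  exact h2.trans h1

theorem psi_Y (h : a.Good) (m : ℕ) (p q : P) (i : Fin 5) :
    a.AY m * |(a.QX m q (a.phY m q)) i - (a.QX m p (a.phY m p)) i| ≤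
      a.be * a.G m * (|q.1 - p.1| + 2 * |q.2.1 - p.2.1|) := by
  obtain ⟨hK, hmu, hG, e1, e2, e3, e4⟩ := a.psi_consts h m
  have hbe := h.be0
  have hAY : 0 ≤ a.AY m := by rw [e3]; positivity
  have hNX : 0 < a.NX m := by unfold NX; positivity
  have hNY : 0 < a.NY m := by unfold NY; positivity
  have h1 : ‖a.QX m q (a.phY m q) - a.QX m p (a.phY m p)‖ ≤
      4 * a.NX m * |q.1 - p.1| + 2 * (a.NY m * |q.2.1 - p.2.1|) := by
    have f1 : ‖a.QX m q (a.phY m q) - a.QX m p (a.phY m q)‖ ≤ 4 * a.NX m * |q.1 - p.1| := by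
      refine (a.QX_lip h m p q (a.phY m q)).trans ?_
      have := a.phY_norm m q
      have h0 : 0 ≤ 4 * a.NX m * |q.1 - p.1| := by positivity
      nlinarith
    have f2 : ‖a.QX m p (a.phY m q) - a.QX m p (a.phY m p)‖ ≤ 2 * (a.NY m * |q.2.1 - p.2.1|) := by
      rw [← map_sub, QX_norm]
      refine (a.phY_lip m p q).trans (le_of_eq ?_)
      rw [abs_mul, abs_of_pos hNY]
    exact (norm_sub_le_norm_sub_add_norm_sub _ _ _).trans (add_le_add f1 f2)
  have h2 := coord_le_norm (a.QX m q (a.phY m q) - a.QX m p (a.phY m p)) i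
  have h3 : |(a.QX m q (a.phY m q)) i - (a.QX m p (a.phY m p)) i| ≤
      4 * a.NX m * |q.1 - p.1| + 2 * (a.NY m * |q.2.1 - p.2.1|) := h2.trans h1
  refine (mul_le_mul_of_nonneg_left h3 hAY).trans ?_
  have k1 : a.AY m * (4 * a.NX m) = a.be * a.G m * (4 / a.K) := by
    rw [e3]; unfold NX; field_simp
  have k2 : a.AY m * (2 * a.NY m) = a.be * a.G m * 2 := by
    rw [e3]; unfold NY; field_simp
  have k3 : 4 / a.K ≤ 1 := by rw [div_le_one hK]; linarith [h.kK]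
  calc a.AY m * (4 * a.NX m * |q.1 - p.1| + 2 * (a.NY m * |q.2.1 - p.2.1|)) =
      a.AY m * (4 * a.NX m) * |q.1 - p.1| + a.AY m * (2 * a.NY m) * |q.2.1 - p.2.1| := by ring
    _ = a.be * a.G m * (4 / a.K) * |q.1 - p.1| + a.be * a.G m * 2 * |q.2.1 - p.2.1| := by rw [k1, k2]
    _ ≤ a.be * a.G m * 1 * |q.1 - p.1| + a.be * a.G m * 2 * |q.2.1 - p.2.1| := by gcongr
    _ = _ := by ring

theorem psi_two (h : a.Good) (m : ℕ) (p q : P) : |(a.Psi m q - a.Psi m p) 2| ≤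
    4 * a.be * a.G m * ds p q + a.AV (m + 1) * (2 * a.kap + 16 * a.be * a.C) := by
  obtain ⟨hK, hmu, hG, e1, e2, e3, e4⟩ := a.psi_consts h m
  have hbe := h.be0
  have hbT := h.bT0
  obtain ⟨g1, g2, g3⟩ := a.Gam_bounds h
  have hAX : 0 ≤ a.AX m := by rw [e2]; positivity
  have hAV' : 0 ≤ a.AV (m + 1) := by rw [e4]; positivity
  have hz : ∀ z, (a.Psi m z) 2 = -(a.AX m * Real.cos (a.NX m * z.1)) -
      a.AY m * (a.QX m z (a.phY m z)) 3 - a.AV (m + 1) * (a.QX m z (a.QY m z (a.phV (m + 1) z))) 3 := by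
    intro z
    have c1 : (a.phV m z) 2 = 0 := (psi_c34 _ _).2.2.1
    have c2 : (a.phX m z) 3 = Real.cos (a.NX m * z.1) := (psi_c34 _ _).2.2.2
    unfold Psi
    simp only [PiLp.add_apply, PiLp.smul_apply, smul_eq_mul, (a.psi_QV m z _).2.2, c1, c2]
    ring
  have hcos : a.AX m * |Real.cos (a.NX m * q.1) - Real.cos (a.NX m * p.1)| ≤ a.be * a.G m * |q.1 - p.1| := by
    have f1 : |Real.cos (a.NX m * q.1) - Real.cos (a.NX m * p.1)| ≤ |a.NX m * q.1 - a.NX m * p.1| :=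
      Real.abs_cos_sub_cos_le _ _
    have hNX : 0 < a.NX m := by unfold NX; positivity
    rw [← mul_sub, abs_mul, abs_of_pos hNX] at f1
    have f2 : a.AX m * a.NX m = a.be * a.G m := by rw [e2]; unfold NX; field_simp
    calc _ ≤ a.AX m * (a.NX m * |q.1 - p.1|) := mul_le_mul_of_nonneg_left f1 hAX
      _ = _ := by rw [← mul_assoc, f2]
  have hY := a.psi_Y h m p q 3
  have hphi : ∀ z, |(a.QX m z (a.QY m z (a.phV (m + 1) z))) 3| ≤ a.kap + 8 * a.be * a.C := by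
    intro z
    have f1 := a.psi_err h m z 3
    have f2 : (a.phV (m + 1) z) 3 = a.phi1 (dil (a.mu (m + 1 + 1)) z) := (psi_c34 _ _).2.2.2
    have f3 := a.bphi1 (dil (a.mu (m + 1 + 1)) z)
    rw [f2] at f1
    rw [abs_le] at f1 f3 ⊢
    constructor <;> linarith [f1.1, f1.2, f3.1, f3.2]
  have h3 : (a.Psi m q - a.Psi m p) 2 = -(a.AX m * (Real.cos (a.NX m * q.1) - Real.cos (a.NX m * p.1))) -
      a.AY m * ((a.QX m q (a.phY m q)) 3 - (a.QX m p (a.phY m p)) 3) -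
      a.AV (m + 1) * ((a.QX m q (a.QY m q (a.phV (m + 1) q))) 3 - (a.QX m p (a.QY m p (a.phV (m + 1) p))) 3) := by
    rw [PiLp.sub_apply, hz, hz]
    ring
  have hAY : 0 ≤ a.AY m := by rw [e3]; positivity
  have h4 : |(a.QX m q (a.QY m q (a.phV (m + 1) q))) 3 - (a.QX m p (a.QY m p (a.phV (m + 1) p))) 3| ≤
      2 * a.kap + 16 * a.be * a.C := by
    have f1 := hphi q
    have f2 := hphi p
    rw [abs_le] at f1 f2 ⊢
    constructor <;> linarith [f1.1, f1.2, f2.1, f2.2]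
  rw [h3]
  refine (abs_sub _ _).trans ?_
  refine (add_le_add (abs_sub _ _) le_rfl).trans ?_
  rw [abs_neg, abs_mul, abs_mul, abs_mul, abs_of_nonneg hAX, abs_of_nonneg hAY, abs_of_nonneg hAV']
  have h5 := mul_le_mul_of_nonneg_left h4 hAV'
  have h6 : a.be * a.G m * |q.1 - p.1| + a.be * a.G m * (|q.1 - p.1| + 2 * |q.2.1 - p.2.1|) ≤
      4 * a.be * a.G m * ds p q := by
    unfold ds
    have f1 : 0 ≤ a.be * a.G m * |q.1 - p.1| := by positivity
    have f2 : 0 ≤ a.be * a.G m * |q.2.1 - p.2.1| := by positivity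
    nlinarith
  linarith

theorem psi_zero_aux (h : a.Good) (m : ℕ) (p q : P) (i : Fin 5) (hi : i = 0 ∨ i = 1) :
    |(a.Psi m q - a.Psi m p) i| ≤ 3 * a.be * a.G m * ds p q + a.AV (m + 1) * (16 * a.be * a.C) := by
  obtain ⟨hK, hmu, hG, e1, e2, e3, e4⟩ := a.psi_consts h m
  have hbe := h.be0
  have hbT := h.bT0
  obtain ⟨g1, g2, g3⟩ := a.Gam_bounds h
  have hAV' : 0 ≤ a.AV (m + 1) := by rw [e4]; positivity
  have hAY : 0 ≤ a.AY m := by rw [e3]; positivity
  have hc : ∀ x y : ℝ, (x • e 3 + y • e 4) i = 0 := by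
    intro x y
    rcases hi with rfl | rfl
    · exact (psi_c34 x y).1
    · exact (psi_c34 x y).2.1
  have hQ : ∀ z v, (a.QV m z v) i = v i := by
    intro z v
    rcases hi with rfl | rfl
    · exact (a.psi_QV m z v).1
    · exact (a.psi_QV m z v).2.1
  have hz : ∀ z, (a.Psi m z) i = a.AY m * (a.QX m z (a.phY m z)) i +
      a.AV (m + 1) * (a.QX m z (a.QY m z (a.phV (m + 1) z))) i := by
    intro z
    have c1 : (a.phV m z) i = 0 := hc _ _
    have c2 : (a.phX m z) i = 0 := hc _ _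
    unfold Psi
    simp only [PiLp.add_apply, PiLp.smul_apply, smul_eq_mul, hQ, c1, c2]
    ring
  have hY := a.psi_Y h m p q i
  have hphi : ∀ z, |(a.QX m z (a.QY m z (a.phV (m + 1) z))) i| ≤ 8 * a.be * a.C := by
    intro z
    have f1 := a.psi_err h m z i
    have f2 : (a.phV (m + 1) z) i = 0 := hc _ _
    rwa [f2, sub_zero] at f1
  have h3 : (a.Psi m q - a.Psi m p) i =
      a.AY m * ((a.QX m q (a.phY m q)) i - (a.QX m p (a.phY m p)) i) +
      a.AV (m + 1) * ((a.QX m q (a.QY m q (a.phV (m + 1) q))) i - (a.QX m p (a.QY m p (a.phV (m + 1) p))) i) := by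
    rw [PiLp.sub_apply, hz, hz]
    ring
  have h4 : |(a.QX m q (a.QY m q (a.phV (m + 1) q))) i - (a.QX m p (a.QY m p (a.phV (m + 1) p))) i| ≤
      16 * a.be * a.C := by
    have f1 := hphi q
    have f2 := hphi p
    rw [abs_le] at f1 f2 ⊢
    constructor <;> linarith [f1.1, f1.2, f2.1, f2.2]
  rw [h3]
  refine (abs_add_le _ _).trans ?_
  rw [abs_mul, abs_mul, abs_of_nonneg hAY, abs_of_nonneg hAV']
  have h5 := mul_le_mul_of_nonneg_left h4 hAV'
  have h6 : a.be * a.G m * (|q.1 - p.1| + 2 * |q.2.1 - p.2.1|) ≤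
      3 * a.be * a.G m * ds p q := by
    unfold ds
    have f1 : 0 ≤ a.be * a.G m * |q.1 - p.1| := by positivity
    have f2 : 0 ≤ a.be * a.G m * |q.2.1 - p.2.1| := by positivity
    nlinarith
  linarith

theorem psi_zero (h : a.Good) (m : ℕ) (p q : P) : |(a.Psi m q - a.Psi m p) 0| ≤
    3 * a.be * a.G m * ds p q + a.AV (m + 1) * (16 * a.be * a.C) :=
  a.psi_zero_aux h m p q 0 (Or.inl rfl)
theorem psi_one (h : a.Good) (m : ℕ) (p q : P) : |(a.Psi m q - a.Psi m p) 1| ≤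
    3 * a.be * a.G m * ds p q + a.AV (m + 1) * (16 * a.be * a.C) :=
  a.psi_zero_aux h m p q 1 (Or.inr rfl)

end Par

end Pool.Agent.Helper962.Heis
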