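import Pool.Agent.Helper962.Heis.Tails
import Pool.Agent.Helper962.Heis.Low
import Pool.Agent.Helper962.Heis.InvV
import Pool.Agent.Helper962.Heis.Psi

set_option autoImplicit false

noncomputable section

namespace Pool.Agent.Helper962.Heis

namespace Par
variable (a : Par)

theorem lowV3_tri (_h : a.Good) (F : P → E) (m : ℕ) (p q : P) (t1 t2 e1 e2 : ℝ)
    (ht1 : ‖F p - a.fV (m + 1) p‖ ≤ t1) (ht2 : ‖F q - a.fV (m + 1) q‖ ≤ t2)
    (hi : ‖a.fS m q - a.fS m p - a.FS m p (lin (a.G m) (a.G m) (a.S m * a.rr m p) p q)‖ ≤ e1)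
    (he : ‖a.FS m q (a.Psi m q) - a.FS m p (a.Psi m q)‖ ≤ e2) :
    ‖lin (a.G m) (a.G m) (a.S m * a.rr m p) p q + (a.Psi m q - a.Psi m p)‖ ≤
      ‖F q - F p‖ + t1 + t2 + e1 + e2 := by
  rw [← a.FS_norm m p]
  have e : a.FS m p (lin (a.G m) (a.G m) (a.S m * a.rr m p) p q + (a.Psi m q - a.Psi m p)) =
      (F q - F p) + (F p - a.fV (m + 1) p) - (F q - a.fV (m + 1) q) -
      (a.fS m q - a.fS m p - a.FS m p (lin (a.G m) (a.G m) (a.S m * a.rr m p) p q)) -
      (a.FS m q (a.Psi m q) - a.FS m p (a.Psi m q)) := by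
    rw [a.psi_eq, a.psi_eq, map_add, map_sub]
    abel
  rw [e]
  refine (norm_sub_le _ _).trans (add_le_add ?_ he)
  refine (norm_sub_le _ _).trans (add_le_add ?_ hi)
  refine (norm_sub_le _ _).trans (add_le_add ?_ ht2)
  exact (norm_add_le _ _).trans (add_le_add le_rfl ht1)

theorem lowV3_coord (h : a.Good) (m : ℕ) (p q : P) :
    a.G m * ds p q - 10 * a.be * (a.G m * ds p q) + a.S m * a.rr m p * |dc p q|
      - a.AV (m + 1) * (2 * a.kap + 48 * (a.be * a.C)) ≤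
    3 * ‖lin (a.G m) (a.G m) (a.S m * a.rr m p) p q + (a.Psi m q - a.Psi m p)‖ := by
  have hG := a.one_le_G h m
  have hS : 0 ≤ a.S m * a.rr m p := by
    have h1 := a.cs_le_rr m p
    have h2 := a.hcs
    have h3 := h.bT0
    have h4 := a.one_le_mu h m
    unfold S
    exact mul_nonneg (mul_nonneg (mul_nonneg h3.le (by linarith)) (by linarith)) (by linarith)
  have h3 := three_coord (lin (a.G m) (a.G m) (a.S m * a.rr m p) p q + (a.Psi m q - a.Psi m p))
  have hl := lin_coords (a.G m) (a.G m) (a.S m * a.rr m p) 0 0 p q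
  rw [zero_smul, zero_smul, add_zero, add_zero] at hl
  obtain ⟨l0, l1, l2, -, -⟩ := hl
  have p0 := a.psi_zero h m p q
  have p1 := a.psi_one h m p q
  have p2 := a.psi_two h m p q
  have w0 : a.G m * |q.1 - p.1| - |(a.Psi m q - a.Psi m p) 0| ≤
      |(lin (a.G m) (a.G m) (a.S m * a.rr m p) p q + (a.Psi m q - a.Psi m p)) 0| := by
    rw [PiLp.add_apply, l0]
    have h1 := abs_sub_abs_le_abs_sub (a.G m * (q.1 - p.1)) (-((a.Psi m q - a.Psi m p) 0))
    rw [sub_neg_eq_add, abs_neg, abs_mul, abs_of_nonneg (by linarith : 0 ≤ a.G m)] at h1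
    exact h1
  have w1 : a.G m * |q.2.1 - p.2.1| - |(a.Psi m q - a.Psi m p) 1| ≤
      |(lin (a.G m) (a.G m) (a.S m * a.rr m p) p q + (a.Psi m q - a.Psi m p)) 1| := by
    rw [PiLp.add_apply, l1]
    have h1 := abs_sub_abs_le_abs_sub (a.G m * (q.2.1 - p.2.1)) (-((a.Psi m q - a.Psi m p) 1))
    rw [sub_neg_eq_add, abs_neg, abs_mul, abs_of_nonneg (by linarith : 0 ≤ a.G m)] at h1
    exact h1
  have w2 : a.S m * a.rr m p * |dc p q| - |(a.Psi m q - a.Psi m p) 2| ≤
      |(lin (a.G m) (a.G m) (a.S m * a.rr m p) p q + (a.Psi m q - a.Psi m p)) 2| := by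
    rw [PiLp.add_apply, l2]
    have h1 := abs_sub_abs_le_abs_sub (a.S m * a.rr m p * dc p q) (-((a.Psi m q - a.Psi m p) 2))
    rw [sub_neg_eq_add, abs_neg, abs_mul, abs_of_nonneg hS] at h1
    exact h1
  have hds : a.G m * ds p q = a.G m * |q.1 - p.1| + a.G m * |q.2.1 - p.2.1| := by
    unfold ds; ring
  have e1 : a.AV (m + 1) * (2 * a.kap + 48 * (a.be * a.C)) =
      a.AV (m + 1) * (2 * a.kap + 16 * a.be * a.C) + a.AV (m + 1) * (16 * a.be * a.C) +
      a.AV (m + 1) * (16 * a.be * a.C) := by ring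
  have e2 : 10 * a.be * (a.G m * ds p q) = 3 * a.be * a.G m * ds p q + 3 * a.be * a.G m * ds p q
      + 4 * a.be * a.G m * ds p q := by ring
  rw [e1, e2]
  linarith only [h3, p0, p1, p2, w0, w1, w2, hds]

/-- purely numerical part -/
theorem lowV3_num (K cs tau bT be C kap eta del CQ Gam M Gm s c mu N D es t er av r : ℝ)
    (hK : 100 ≤ K) (hcs : 0 < cs) (hcs1 : cs ≤ 1) (htau : 0 < tau) (hbT : 0 < bT)
    (hbe0 : 0 < be) (hbe1 : be ≤ 1 / 100) (hCpos : 0 < C) (hkap : 0 < kap)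
    (hratio : 64 * kap ≤ cs * tau) (hbe2 : 768 * be * C ≤ cs * tau)
    (heta0 : 0 < eta) (hdel0 : 0 < del) (hed : 2 * eta + del ≤ cs / 48)
    (hCQ0 : 0 < CQ)
    (kE : 100 * CQ ≤ cs * bT * del * K) (kI : 16 ≤ cs * tau * bT * K)
    (hGam1 : 1 < Gam) (hGam2 : Gam ≤ 101 / 100)
    (hM : 1 ≤ M) (hGm : 1 ≤ Gm) (hs : 0 ≤ s) (hc : 0 ≤ c) (hmu : mu = K ^ 4 * M)
    (h4 : tau < mu ^ 2 * c) (hr : cs ≤ r)
    (hav : av = bT * (Gam * (Gam * Gm)) / (K ^ 4 * mu))
    (hN : Gm * s - 10 * be * (Gm * s) + bT * Gm * M * r * c - av * (2 * kap + 48 * (be * C)) ≤ 3 * N)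
    (hes : es = 6 * K ^ 2 * M * s + 2 * CQ * M ^ 2 * c) (hes1 : es ≤ del)
    (ht : t = (1 / (50 * K)) * ((Gam * Gm) / (K ^ 4 * mu)))
    (her : er = eta * Gm * s + eta * (bT * Gm * M) * c + es * (Gm * s + (bT * Gm * M) * c))
    (htri : N ≤ D + t + t + er + es * (1 / 16 * (Gm / mu))) :
    cs * tau * bT / (24 * K ^ 4) * (Gm / mu) ≤ D := by
  have hK0 : 0 < K := by linarith
  have hM0 : 0 < M := by linarith
  have hGm0 : 0 < Gm := by linarith
  have hmu0 : 0 < mu := by rw [hmu]; positivity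
  -- the basic quantity
  obtain ⟨P0, hP0⟩ : ∃ P0, P0 = bT * Gm / (K ^ 4 * mu) := ⟨_, rfl⟩
  have hP0pos : 0 < P0 := by rw [hP0]; positivity
  have hSc : bT * Gm * M * c = P0 * (mu ^ 2 * c) := by
    rw [hP0, hmu]
    field_simp
  have hgs : 0 ≤ Gm * s := mul_nonneg hGm0.le hs
  have hy0 : 0 ≤ bT * Gm * M * c := by positivity
  -- Pi ≤ cs S c
  have hPi : cs * tau * P0 ≤ cs * (bT * Gm * M * c) := by
    rw [hSc]
    have h1 : P0 * tau ≤ P0 * (mu ^ 2 * c) := mul_le_mul_of_nonneg_left h4.le hP0pos.le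
    have h2 := mul_le_mul_of_nonneg_left h1 hcs.le
    linarith only [h2]
  have hPi0 : 0 < cs * tau * P0 := by positivity
  -- the vertical term
  have hr' : cs * (bT * Gm * M * c) ≤ bT * Gm * M * r * c := by
    have h1 := mul_le_mul_of_nonneg_left hr hy0
    linarith only [h1]
  -- the amplitude term
  have hav' : av = Gam ^ 2 * P0 := by
    rw [hav, hP0]; ring
  have hG2 : Gam ^ 2 ≤ 1.0201 := by nlinarith only [hGam1, hGam2]
  have hk : 2 * kap + 48 * (be * C) ≤ 3 / 32 * (cs * tau) := by linarith only [hratio, hbe2]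
  have hk0 : 0 ≤ 2 * kap + 48 * (be * C) := by positivity
  have hAV : av * (2 * kap + 48 * (be * C)) ≤ 1 / 10 * (cs * tau * P0) := by
    rw [hav']
    have h1 : Gam ^ 2 * P0 ≤ 1.0201 * P0 := mul_le_mul_of_nonneg_right hG2 hP0pos.le
    have h2 : Gam ^ 2 * P0 * (2 * kap + 48 * (be * C)) ≤ 1.0201 * P0 * (3 / 32 * (cs * tau)) :=
      mul_le_mul h1 hk hk0 (by positivity)
    have h3 : 1.0201 * P0 * (3 / 32 * (cs * tau)) = 1.0201 * 3 / 32 * (cs * tau * P0) := by ring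
    rw [h3] at h2
    have h4 : (1.0201 * 3 / 32 : ℝ) * (cs * tau * P0) ≤ 1 / 10 * (cs * tau * P0) :=
      mul_le_mul_of_nonneg_right (by norm_num) hPi0.le
    exact h2.trans h4
  have hbegs : be * (Gm * s) ≤ 1 / 100 * (Gm * s) := mul_le_mul_of_nonneg_right hbe1 hgs
  -- N
  have hN2 : 9 / 10 * (Gm * s) + 9 / 10 * (cs * (bT * Gm * M * c)) ≤ 3 * N := by
    linarith only [hN, hAV, hbegs, hPi, hr']
  -- errS
  have hes0 : 0 ≤ es := by rw [hes]; positivity
  have herr : er ≤ 1 / 48 * (Gm * s + cs * (bT * Gm * M * c)) := by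
    have h1 : es * (Gm * s + (bT * Gm * M) * c) ≤ del * (Gm * s + (bT * Gm * M) * c) :=
      mul_le_mul_of_nonneg_right hes1 (by linarith only [hgs, hy0])
    have h2 : er ≤ (eta + del) * (Gm * s + (bT * Gm * M) * c) := by
      rw [her]
      linarith only [h1]
    have h3 : eta + del ≤ cs / 48 := by linarith only [hed, heta0]
    have h4 : (eta + del) * (Gm * s + (bT * Gm * M) * c) ≤ cs / 48 * (Gm * s + (bT * Gm * M) * c) :=
      mul_le_mul_of_nonneg_right h3 (by linarith only [hgs, hy0])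
    have h5 : cs * (Gm * s) ≤ 1 * (Gm * s) := mul_le_mul_of_nonneg_right hcs1 hgs
    linarith only [h2, h4, h5]
  -- ES term
  have hES : es * (1 / 16 * (Gm / mu)) ≤ 1 / 100 * (Gm * s + cs * (bT * Gm * M * c)) := by
    have h1 : es * (1 / 16 * (Gm / mu)) = 3 / (8 * K ^ 2) * (Gm * s) +
        CQ / (8 * K ^ 4) * (Gm * M * c) := by
      rw [hes, hmu]
      field_simp
      ring
    have h2 : 3 / (8 * K ^ 2) ≤ 1 / 100 := by
      rw [div_le_div_iff₀ (by positivity) (by norm_num)]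
      nlinarith only [hK]
    have h3 : CQ / (8 * K ^ 4) ≤ 1 / 100 * (cs * bT) := by
      rw [div_le_iff₀ (by positivity)]
      have hdel1 : del ≤ 1 := by linarith only [hed, heta0, hcs1]
      have h5 : cs * bT * del * K ≤ cs * bT * 1 * (8 * K ^ 4) := by
        have h6 : K ≤ 8 * K ^ 4 := by
          have h7 : (1 : ℝ) ≤ K ^ 3 := one_le_pow₀ (by linarith only [hK])
          have h8 : K * 1 ≤ K * K ^ 3 := mul_le_mul_of_nonneg_left h7 hK0.le
          have h9 : K ^ 4 = K * K ^ 3 := by ring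
          rw [h9]
          linarith only [h8, hK0]
        have h10 : cs * bT * del ≤ cs * bT * 1 := mul_le_mul_of_nonneg_left hdel1 (by positivity)
        exact mul_le_mul h10 h6 hK0.le (by positivity)
      linarith only [kE, h5]
    have h4 : 0 ≤ Gm * M * c := by positivity
    have h5 := mul_le_mul_of_nonneg_right h2 hgs
    have h6 := mul_le_mul_of_nonneg_right h3 h4
    rw [h1]
    linarith only [h5, h6]
  -- tails
  have hT : t ≤ 1 / 200 * (cs * tau * P0) := by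
    have h1 : 1 / (50 * K) ≤ cs * tau * bT / 800 := by
      rw [div_le_iff₀ (by positivity)]
      linarith only [kI]
    have h2 : 0 ≤ (Gam * Gm) / (K ^ 4 * mu) := by
      have : 0 < Gam := by linarith only [hGam1]
      positivity
    have h3 := mul_le_mul_of_nonneg_right h1 h2
    have h4 : cs * tau * bT / 800 * ((Gam * Gm) / (K ^ 4 * mu)) = Gam * (1 / 800 * (cs * tau * P0)) := by
      rw [hP0]; ring
    rw [h4, ← ht] at h3
    have h5 : Gam * (1 / 800 * (cs * tau * P0)) ≤ 101 / 100 * (1 / 800 * (cs * tau * P0)) :=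
      mul_le_mul_of_nonneg_right hGam2 (by positivity)
    linarith only [h3, h5, hPi0]
  have hlow : cs * tau * bT / (24 * K ^ 4) * (Gm / mu) = 1 / 24 * (cs * tau * P0) := by
    rw [hP0]
    field_simp
  rw [hlow]
  linarith only [hN2, herr, hES, hT, htri, hPi, hgs, hPi0]

theorem lower_V3 (h : a.Good) (F : P → E)
    (hF : ∀ m p, ‖F p - a.fS m p‖ ≤ 1 / 2 * (a.G m / a.mu (m + 1))) (m : ℕ) (p q : P)
    (hi : ‖a.fS m q - a.fS m p - a.FS m p (lin (a.G m) (a.G m) (a.S m * a.rr m p) p q)‖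
      ≤ a.errS m p q)
    (h1 : a.ES m p q ≤ a.del)
    (h4 : a.tau < a.mu (m + 1) ^ 2 * |dc p q|) :
    a.low * (a.G m / a.mu (m + 1)) ≤ ‖F q - F p‖ := by
  have hG1 : a.G (m + 1) = a.Gam * a.G m := a.G_succ m
  have hG2 : a.G (m + 1 + 1) = a.Gam * (a.Gam * a.G m) := by rw [a.G_succ, hG1]
  have hmu1 : a.mu (m + 1) = a.K ^ 4 * a.mu m := a.mu_succ m
  have hmu2 : a.mu (m + 1 + 1) = a.K ^ 4 * a.mu (m + 1) := a.mu_succ (m + 1)
  have ht1 := a.tail_V h F hF (m + 1) p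
  have ht2 := a.tail_V h F hF (m + 1) q
  have hES0 : 0 ≤ a.ES m p q := by
    unfold ES
    have h2 := ds_nonneg p q
    have h3 := a.one_le_mu h m
    have h5 := a.eight_le_CQ
    have h6 := h.kK
    have : 0 < a.K := by linarith
    positivity
  have he : ‖a.FS m q (a.Psi m q) - a.FS m p (a.Psi m q)‖ ≤
      a.ES m p q * (1 / 16 * (a.G m / a.mu (m + 1))) :=
    (a.FS_lip h m p q _).trans (mul_le_mul_of_nonneg_left (a.psi_norm h m q) hES0)
  have htri := lowV3_tri a h F m p q _ _ _ _ ht1 ht2 hi he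
  have hN := lowV3_coord a h m p q
  have hGam := a.Gam_bounds h
  have hCQ := a.eight_le_CQ
  refine lowV3_num a.K a.cs a.tau a.bT a.be a.C a.kap a.eta a.del a.CQ a.Gam (a.mu m) (a.G m)
    (ds p q) |dc p q| (a.mu (m + 1))
    ‖lin (a.G m) (a.G m) (a.S m * a.rr m p) p q + (a.Psi m q - a.Psi m p)‖ ‖F q - F p‖
    (a.ES m p q) (1 / (50 * a.K) * (a.G (m + 1) / a.mu (m + 1 + 1))) (a.errS m p q)
    (a.AV (m + 1)) (a.rr m p) h.kK a.hcs a.hcs1 a.htau h.bT0 h.be0
    h.be1 (by linarith [a.hC]) a.hkap a.ratio h.be2 h.eta0 h.del0 h.etadel (by linarith) h.kE h.kI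
    hGam.1 hGam.2.2 (a.one_le_mu h m) (a.one_le_G h m) (ds_nonneg p q) (abs_nonneg _) hmu1 h4
    (a.cs_le_rr m p) ?_ ?_ rfl h1 ?_ rfl ?_
  · unfold AV
    rw [hG2, hmu2]
  · have : a.bT * a.G m * a.mu m * a.rr m p * |dc p q| = a.S m * a.rr m p * |dc p q| := by
      unfold S; ring
    rw [this]
    exact hN
  · rw [hG1, hmu2]
  · exact htri

end Par

end Pool.Agent.Helper962.Heis
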