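import Pool.Agent.Helper962.Heis.Tails
import Pool.Agent.Helper962.Heis.Low
import Pool.Agent.Helper962.Heis.InvX

set_option autoImplicit false

noncomputable section

namespace Pool.Agent.Helper962.Heis

namespace Par
variable (a : Par)

theorem lowX_small (h : a.Good) : a.th ≤ a.eta / 400 ∧ a.eta ≤ a.cs / 96 ∧ a.bT ≤ 1 / 96 ∧
    0 < a.CQ ∧ 2 * a.CQ ≤ a.th * a.K := by
  obtain ⟨hG1, hG2, hG3⟩ := a.Gam_bounds h
  have h1 := h.th1
  have h2 := h.eta0
  have h3 := h.etadel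
  have h4 := h.del0
  have h5 := h.bT1
  have h6 := a.hcs1
  have h7 := a.eight_le_CQ
  have h8 := h.kC
  have h9 : a.eta * a.Gam ≤ a.eta * (101 / 100) := mul_le_mul_of_nonneg_left hG3 h2.le
  refine ⟨by linarith only [h1, h9], by linarith only [h3, h4], by linarith only [h3, h4, h5, h6],
    by linarith only [h7], by linarith only [h8]⟩

theorem lowX_S (h : a.Good) (m : ℕ) : a.bT * a.G m * a.mu (m + 1) ≤ a.S (m + 1) ∧
    0 < a.S (m + 1) ∧ 0 < a.G m ∧ 0 < a.mu (m + 1) := by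
  obtain ⟨hG1, hG2, hG3⟩ := a.Gam_bounds h
  have h1 := a.one_le_G h m
  have h2 := a.one_le_mu h (m + 1)
  have h3 := h.bT0
  have hG : 0 < a.G m := by linarith only [h1]
  have hmu : 0 < a.mu (m + 1) := by linarith only [h2]
  have h4 : a.S (m + 1) = a.Gam * (a.bT * a.G m * a.mu (m + 1)) := by
    unfold S
    rw [G_succ]
    ring
  have h5 : 0 < a.bT * a.G m * a.mu (m + 1) := by positivity
  have h6 : a.bT * a.G m * a.mu (m + 1) ≤ a.S (m + 1) := by
    rw [h4]
    nlinarith only [h5, hG1]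
  exact ⟨h6, lt_of_lt_of_le h5 h6, hG, hmu⟩

theorem lowX_errV (h : a.Good) (m : ℕ) (p q : P) (h1 : a.EV m p q ≤ a.del) :
    a.errV m p q ≤ (a.G m * ds p q + a.cs * a.S (m + 1) * |dc p q|) / 48 := by
  obtain ⟨t1, t2, t3, t4, t5⟩ := a.lowX_small h
  obtain ⟨s1, s2, s3, s4⟩ := a.lowX_S h m
  have hs : 0 ≤ a.G m * ds p q := mul_nonneg s3.le (ds_nonneg p q)
  have hc : 0 ≤ a.S (m + 1) * |dc p q| := mul_nonneg s2.le (abs_nonneg _)
  have e0 := h.eta0
  have e1 := h.etadel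
  have e2 := a.hcs1
  have e3 := a.hcs
  unfold errV
  have h2 : a.EV m p q * (a.G m * ds p q + a.S (m + 1) * |dc p q|) ≤
      a.del * (a.G m * ds p q + a.S (m + 1) * |dc p q|) :=
    mul_le_mul_of_nonneg_right h1 (by linarith only [hs, hc])
  have h3 : (a.eta + a.th + a.del) * (a.G m * ds p q) ≤ 1 / 48 * (a.G m * ds p q) :=
    mul_le_mul_of_nonneg_right (by linarith only [t1, e0, e1, e2]) hs
  have h4 : (1 / 2 * a.eta + a.del) * (a.S (m + 1) * |dc p q|) ≤
      a.cs / 48 * (a.S (m + 1) * |dc p q|) :=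
    mul_le_mul_of_nonneg_right (by linarith only [e0, e1]) hc
  nlinarith only [h2, h3, h4]

theorem lowX_AXEV (h : a.Good) (m : ℕ) (p q : P) :
    0 ≤ a.AX m ∧ 0 ≤ a.EV m p q ∧
    a.AX m * a.EV m p q ≤ (a.G m * ds p q + a.cs * a.S (m + 1) * |dc p q|) / 1000 := by
  obtain ⟨t1, t2, t3, t4, t5⟩ := a.lowX_small h
  obtain ⟨s1, s2, s3, s4⟩ := a.lowX_S h m
  have hK := h.kK
  have hK0 : 0 < a.K := by linarith only [hK]
  have b0 := h.be0
  have b1 := h.be1
  have hds := ds_nonneg p q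
  have hdc := abs_nonneg (dc p q)
  have e0 := h.eta0
  have e2 := a.hcs1
  have e3 := a.hcs
  have kB := h.kB
  have hbT := h.bT0
  refine ⟨?_, ?_, ?_⟩
  · unfold AX
    positivity
  · unfold EV
    positivity
  · have hE : a.AX m * a.EV m p q = a.be * (2 * a.CQ / a.K) * (a.G m * ds p q) +
        2 * a.be * (a.CQ / a.K) * (a.G m * a.mu (m + 1) * |dc p q|) := by
      unfold AX EV
      field_simp
    have c1 : 2 * a.CQ / a.K ≤ a.th := by
      rw [div_le_iff₀ hK0]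
      exact t5
    have c2 : a.CQ / a.K ≤ a.eta * a.bT / 8 := by
      rw [div_le_iff₀ hK0]
      linarith only [kB]
    have c3 : a.be * (2 * a.CQ / a.K) ≤ 1 / 1000 := by
      have : a.be * (2 * a.CQ / a.K) ≤ 1 / 100 * a.th :=
        mul_le_mul b1 c1 (by positivity) (by norm_num)
      linarith only [this, t1, t2, e2]
    have c4 : a.be * (2 * a.CQ / a.K) * (a.G m * ds p q) ≤ 1 / 1000 * (a.G m * ds p q) :=
      mul_le_mul_of_nonneg_right c3 (mul_nonneg s3.le hds)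
    have c5 : 2 * a.be * (a.CQ / a.K) ≤ a.cs / 1000 * a.bT := by
      have d1 : 2 * a.be * (a.CQ / a.K) ≤ 2 * (1 / 100) * (a.eta * a.bT / 8) :=
        mul_le_mul (by linarith only [b1]) c2 (by positivity) (by norm_num)
      have d2 : a.eta * a.bT ≤ a.cs / 96 * a.bT := mul_le_mul_of_nonneg_right t2 hbT.le
      have d3 : 0 < a.cs * a.bT := mul_pos e3 hbT
      nlinarith only [d1, d2, d3]
    have c6 : 2 * a.be * (a.CQ / a.K) * (a.G m * a.mu (m + 1) * |dc p q|) ≤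
        a.cs / 1000 * (a.S (m + 1) * |dc p q|) := by
      calc 2 * a.be * (a.CQ / a.K) * (a.G m * a.mu (m + 1) * |dc p q|)
          ≤ a.cs / 1000 * a.bT * (a.G m * a.mu (m + 1) * |dc p q|) :=
            mul_le_mul_of_nonneg_right c5 (by positivity)
        _ = a.cs / 1000 * ((a.bT * a.G m * a.mu (m + 1)) * |dc p q|) := by ring
        _ ≤ a.cs / 1000 * (a.S (m + 1) * |dc p q|) :=
            mul_le_mul_of_nonneg_left (mul_le_mul_of_nonneg_right s1 hdc) (by positivity)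
    rw [hE]
    linarith only [c4, c6]

theorem lowX_Z (h : a.Good) (m : ℕ) (p q : P) (h2 : a.del < a.EX m p q) :
    24 * (a.G m / a.mu (m + 1)) ≤
      (a.G m * ds p q + a.cs * a.S (m + 1) * |dc p q|) * a.K ^ 2 := by
  obtain ⟨t1, t2, t3, t4, t5⟩ := a.lowX_small h
  obtain ⟨s1, s2, s3, s4⟩ := a.lowX_S h m
  have hK := h.kK
  have hK0 : 0 < a.K := by linarith only [hK]
  have hds := ds_nonneg p q
  have hdc := abs_nonneg (dc p q)
  have e3 := a.hcs
  have kD := h.kD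
  have kE := h.kE
  have hbT := h.bT0
  have hdel := h.del0
  have hgm : 0 < a.G m / a.mu (m + 1) := by positivity
  have hs : 0 ≤ a.G m * ds p q := mul_nonneg s3.le hds
  have hc : 0 ≤ a.cs * a.S (m + 1) * |dc p q| := by positivity
  unfold EX at h2
  rcases le_or_gt (a.del / 2) (6 * a.K * a.mu (m + 1) * ds p q) with hA | hA
  · -- first case
    have k1 : a.del * (a.G m / a.mu (m + 1)) ≤ 12 * a.K * (a.G m * ds p q) := by
      calc a.del * (a.G m / a.mu (m + 1))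
          ≤ (2 * (6 * a.K * a.mu (m + 1) * ds p q)) * (a.G m / a.mu (m + 1)) :=
            mul_le_mul_of_nonneg_right (by linarith only [hA]) hgm.le
        _ = 12 * a.K * (a.G m * ds p q) := by
            field_simp
            ring
    have k2 : 1000 * (a.G m / a.mu (m + 1)) ≤ a.del * a.K * (a.G m / a.mu (m + 1)) :=
      mul_le_mul_of_nonneg_right kD hgm.le
    have k3 : a.K * (a.del * (a.G m / a.mu (m + 1))) ≤ a.K * (12 * a.K * (a.G m * ds p q)) :=
      mul_le_mul_of_nonneg_left k1 hK0.le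
    have k4 : 0 ≤ (a.cs * a.S (m + 1) * |dc p q|) * a.K ^ 2 := mul_nonneg hc (sq_nonneg _)
    nlinarith only [k2, k3, k4, hgm]
  · have hB : a.del / 2 ≤ 2 * a.CQ * a.mu (m + 1) ^ 2 * |dc p q| := by linarith only [h2, hA]
    have k1 : a.cs * a.bT * a.del * (a.G m / a.mu (m + 1)) ≤
        4 * a.CQ * (a.cs * a.S (m + 1) * |dc p q|) := by
      calc a.cs * a.bT * a.del * (a.G m / a.mu (m + 1))
          ≤ a.cs * a.bT * (2 * (2 * a.CQ * a.mu (m + 1) ^ 2 * |dc p q|)) *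
              (a.G m / a.mu (m + 1)) := by
            apply mul_le_mul_of_nonneg_right _ hgm.le
            apply mul_le_mul_of_nonneg_left (by linarith only [hB]) (by positivity)
        _ = 4 * a.CQ * a.cs * |dc p q| * (a.bT * a.G m * a.mu (m + 1)) := by
            field_simp
            ring
        _ ≤ 4 * a.CQ * a.cs * |dc p q| * a.S (m + 1) :=
            mul_le_mul_of_nonneg_left s1 (by positivity)
        _ = 4 * a.CQ * (a.cs * a.S (m + 1) * |dc p q|) := by ring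
    have k2 : 100 * a.CQ * (a.G m / a.mu (m + 1)) ≤
        a.cs * a.bT * a.del * a.K * (a.G m / a.mu (m + 1)) :=
      mul_le_mul_of_nonneg_right kE hgm.le
    have k3 : 100 * a.CQ * (a.G m / a.mu (m + 1)) ≤
        a.K * (4 * a.CQ * (a.cs * a.S (m + 1) * |dc p q|)) := by
      have := mul_le_mul_of_nonneg_left k1 hK0.le
      nlinarith only [k2, this]
    have k4 : 25 * (a.G m / a.mu (m + 1)) ≤ a.K * (a.cs * a.S (m + 1) * |dc p q|) := by
      have k5 : (4 * a.CQ) * (25 * (a.G m / a.mu (m + 1))) ≤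
          (4 * a.CQ) * (a.K * (a.cs * a.S (m + 1) * |dc p q|)) := by linarith only [k3]
      exact le_of_mul_le_mul_left k5 (by linarith only [t4])
    have k6 : a.K * (a.cs * a.S (m + 1) * |dc p q|) ≤
        a.K ^ 2 * (a.cs * a.S (m + 1) * |dc p q|) := by
      apply mul_le_mul_of_nonneg_right _ hc
      nlinarith only [hK]
    have k7 : 0 ≤ (a.G m * ds p q) * a.K ^ 2 := mul_nonneg hs (sq_nonneg _)
    nlinarith only [k4, k6, k7, hgm]

theorem lowX_low (h : a.Good) : a.low ≤ 1 / a.K ^ 2 := by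
  obtain ⟨t1, t2, t3, t4, t5⟩ := a.lowX_small h
  have hK := h.kK
  have hK0 : 0 < a.K := by linarith only [hK]
  have e1 := a.hcs
  have e2 := a.hcs1
  have e3 := a.htau
  have e4 := a.htau1
  have hbT := h.bT0
  have h1 : a.cs * a.tau ≤ 1 := by
    calc a.cs * a.tau ≤ 1 * 1 := mul_le_mul e2 e4 e3.le (by norm_num)
      _ = 1 := by norm_num
  have h2 : a.cs * a.tau * a.bT ≤ 1 := by
    calc a.cs * a.tau * a.bT ≤ 1 * 1 :=
          mul_le_mul h1 (by linarith only [t3]) hbT.le (by norm_num)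
      _ = 1 := by norm_num
  unfold low
  rw [div_le_div_iff₀ (by positivity) (by positivity)]
  have h3 : 1 ≤ a.K ^ 2 := by nlinarith only [hK]
  have h4 : a.K ^ 4 = a.K ^ 2 * a.K ^ 2 := by ring
  have h5 : a.K ^ 2 ≤ a.K ^ 4 := by
    rw [h4]
    nlinarith only [h3]
  have h6 : a.cs * a.tau * a.bT * a.K ^ 2 ≤ 1 * a.K ^ 2 :=
    mul_le_mul_of_nonneg_right h2 (sq_nonneg _)
  linarith only [h5, h6, h3]

theorem lowX_vec (h : a.Good) (F : P → E)
    (hF : ∀ m p, ‖F p - a.fS m p‖ ≤ 1 / 2 * (a.G m / a.mu (m + 1))) (m : ℕ) (p q : P)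
    (hi : ‖a.fV m q - a.fV m p - a.FV m p
        (lin (a.G m) (a.G m) (a.S (m + 1) * a.rr (m + 1) p) p q)‖ ≤ a.errV m p q) :
    (a.G m * ds p q + a.cs * a.S (m + 1) * |dc p q|) / 3 - a.errV m p q -
      a.AX m * a.EV m p q - 2 * ((1 / (50 * a.K ^ 2)) * (a.G m / a.mu (m + 1))) ≤
      ‖F q - F p‖ := by
  obtain ⟨s1, s2, s3, s4⟩ := a.lowX_S h m
  obtain ⟨x1, x2, x3⟩ := a.lowX_AXEV h m p q
  have tq := a.tail_X h F hF m q
  have tp := a.tail_X h F hF m p
  have hr := a.cs_le_rr (m + 1) p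
  obtain ⟨L, hL⟩ : ∃ L, L = lin (a.G m) (a.G m) (a.S (m + 1) * a.rr (m + 1) p) p q := ⟨_, rfl⟩
  have hW := orth_lower (a.G m) (a.G m) (a.S (m + 1) * a.rr (m + 1) p)
    (a.AX m * (Real.cos (a.NX m * q.1) - Real.cos (a.NX m * p.1)))
    (a.AX m * (Real.sin (a.NX m * q.1) - Real.sin (a.NX m * p.1))) p q
  have hph : (a.AX m * (Real.cos (a.NX m * q.1) - Real.cos (a.NX m * p.1))) • e 3 +
      (a.AX m * (Real.sin (a.NX m * q.1) - Real.sin (a.NX m * p.1))) • e 4 =
      a.AX m • (a.phX m q - a.phX m p) := by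
    unfold phX
    module
  rw [hph, ← hL] at hW
  rw [← hL] at hi
  have hW2 : (a.G m * ds p q + a.cs * a.S (m + 1) * |dc p q|) / 3 ≤
      ‖L + a.AX m • (a.phX m q - a.phX m p)‖ := by
    refine le_trans ?_ hW
    rw [abs_of_pos s3, abs_of_nonneg (mul_nonneg s2.le (a.hcs.le.trans hr))]
    have h5 : a.cs * a.S (m + 1) * |dc p q| ≤ a.S (m + 1) * a.rr (m + 1) p * |dc p q| := by
      apply mul_le_mul_of_nonneg_right _ (abs_nonneg _)
      rw [mul_comm]
      exact mul_le_mul_of_nonneg_left hr s2.le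
    unfold ds
    linarith only [h5]
  have hnorm : ‖a.FV m p (L + a.AX m • (a.phX m q - a.phX m p))‖ =
      ‖L + a.AX m • (a.phX m q - a.phX m p)‖ := a.FV_norm m p _
  have hdec : F q - F p = a.FV m p (L + a.AX m • (a.phX m q - a.phX m p)) +
      (a.fV m q - a.fV m p - a.FV m p L) +
      a.AX m • (a.FV m q (a.phX m q) - a.FV m p (a.phX m q)) +
      (F q - a.fX m q) - (F p - a.fX m p) := by
    unfold fX
    rw [map_add, map_smul, map_sub]
    module
  have h3 : ‖a.AX m • (a.FV m q (a.phX m q) - a.FV m p (a.phX m q))‖ ≤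
      a.AX m * a.EV m p q := by
    rw [norm_smul, Real.norm_eq_abs, abs_of_nonneg x1]
    apply mul_le_mul_of_nonneg_left _ x1
    calc ‖a.FV m q (a.phX m q) - a.FV m p (a.phX m q)‖ ≤ a.EV m p q * ‖a.phX m q‖ :=
          a.FV_lip h m p q _
      _ ≤ a.EV m p q * 1 := mul_le_mul_of_nonneg_left (a.phX_norm m q) x2
      _ = a.EV m p q := mul_one _
  have h4 : ‖a.FV m p (L + a.AX m • (a.phX m q - a.phX m p))‖ ≤ ‖F q - F p‖ +
      ‖a.fV m q - a.fV m p - a.FV m p L‖ +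
      ‖a.AX m • (a.FV m q (a.phX m q) - a.FV m p (a.phX m q))‖ +
      ‖F q - a.fX m q‖ + ‖F p - a.fX m p‖ := by
    have h5 : a.FV m p (L + a.AX m • (a.phX m q - a.phX m p)) =
        (F q - F p) - (a.fV m q - a.fV m p - a.FV m p L) -
        a.AX m • (a.FV m q (a.phX m q) - a.FV m p (a.phX m q)) -
        (F q - a.fX m q) + (F p - a.fX m p) := by
      rw [hdec]
      abel
    rw [h5]
    refine (norm_add_le _ _).trans ?_
    gcongr
    refine (norm_sub_le _ _).trans ?_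
    gcongr
    refine (norm_sub_le _ _).trans ?_
    gcongr
    exact norm_sub_le _ _
  rw [hnorm] at h4
  linarith only [h4, hW2, hi, h3, tq, tp]

theorem lower_X (h : a.Good) (F : P → E)
    (hF : ∀ m p, ‖F p - a.fS m p‖ ≤ 1 / 2 * (a.G m / a.mu (m + 1))) (m : ℕ) (p q : P)
    (hi : ‖a.fV m q - a.fV m p - a.FV m p
        (lin (a.G m) (a.G m) (a.S (m + 1) * a.rr (m + 1) p) p q)‖ ≤ a.errV m p q)
    (h1 : a.EV m p q ≤ a.del) (h2 : a.del < a.EX m p q) :
    a.low * (a.G m / a.mu (m + 1)) ≤ ‖F q - F p‖ := by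
  have v := a.lowX_vec h F hF m p q hi
  have z1 := a.lowX_errV h m p q h1
  obtain ⟨-, -, z2⟩ := a.lowX_AXEV h m p q
  have z3 := a.lowX_Z h m p q h2
  have z4 := a.lowX_low h
  obtain ⟨s1, s2, s3, s4⟩ := a.lowX_S h m
  have hK := h.kK
  have hK0 : 0 < a.K := by linarith only [hK]
  have hgm : 0 < a.G m / a.mu (m + 1) := div_pos s3 s4
  have hK2 : 0 < a.K ^ 2 := pow_pos hK0 2
  obtain ⟨Z, hZ⟩ : ∃ Z, Z = a.G m * ds p q + a.cs * a.S (m + 1) * |dc p q| := ⟨_, rfl⟩
  obtain ⟨g, hg⟩ : ∃ g, g = a.G m / a.mu (m + 1) := ⟨_, rfl⟩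
  rw [← hZ] at v z1 z2 z3
  rw [← hg] at v z3 hgm
  rw [← hg]
  have y1 : 24 * (1 / a.K ^ 2 * g) ≤ Z := by
    have : 24 * (1 / a.K ^ 2 * g) = 24 * g / a.K ^ 2 := by ring
    rw [this, div_le_iff₀ hK2]
    exact z3
  have y2 : a.low * g ≤ 1 / a.K ^ 2 * g := mul_le_mul_of_nonneg_right z4 hgm.le
  have y3 : 1 / (50 * a.K ^ 2) * g = 1 / 50 * (1 / a.K ^ 2 * g) := by
    field_simp
  have y4 : 0 < 1 / a.K ^ 2 * g := by positivity
  rw [y3] at v
  linarith only [v, z1, z2, y1, y2, y4]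

end Par

end Pool.Agent.Helper962.Heis
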