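import Pool.Agent.Helper962.Heis.Tails
import Pool.Agent.Helper962.Heis.Low
import Pool.Agent.Helper962.Heis.InvS

set_option autoImplicit false

noncomputable section

namespace Pool.Agent.Helper962.Heis

namespace Par
variable (a : Par)

theorem lowY_num {g A B be K bT bG eta del th cs CQ tau EX ES : ℝ} (hg : 0 ≤ g) (hA : 0 ≤ A)
    (hB : 0 ≤ B) (be0 : 0 < be) (be1 : be ≤ 1 / 100) (eta0 : 0 < eta) (del0 : 0 < del)
    (etadel : 2 * eta + del ≤ cs / 48) (hth : 4 * th ≤ eta / 100) (bT0 : 0 < bT) (bT1 : bT ≤ eta)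
    (hbG : bT ≤ bG) (hcs : 0 < cs) (hcs1 : cs ≤ 1) (htau : 0 < tau) (htau1 : tau ≤ 1)
    (hCQ : 8 ≤ CQ) (kB : 8 * CQ ≤ eta * bT * K) (kD : 1000 ≤ del * K)
    (kE : 100 * CQ ≤ cs * bT * del * K) (kK : 100 ≤ K) (hEX : EX = 6 * K * A + 2 * CQ * B)
    (hES : ES = 6 * K ^ 2 * A + 2 * CQ * B) (h1 : EX ≤ del) (h2 : del < ES) :
    cs * tau * bT / (24 * K ^ 4) * g +
      ((eta + 2 * th) * (g * A) + (3 / 4) * eta * (bG * g * B) + EX * (g * A + bG * g * B)) +
      be * g / K ^ 2 * EX + 2 * (1 / K ^ 4 * g) ≤ (g * A + cs * (bG * g * B)) / 3 := by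
  have hK0 : 0 < K := by linarith only [kK]
  have hbG0 : 0 < bG := bT0.trans_le hbG
  have hgA : 0 ≤ g * A := mul_nonneg hg hA
  have hgB : 0 ≤ bG * g * B := mul_nonneg (mul_nonneg hbG0.le hg) hB
  have hgB' : 0 ≤ g * B := mul_nonneg hg hB
  have heta : eta ≤ cs / 96 := by linarith only [etadel, del0]
  -- error part
  have e1 : (eta + 2 * th) * (g * A) + (3 / 4) * eta * (bG * g * B) + EX * (g * A + bG * g * B) ≤
      (g * A + cs * (bG * g * B)) / 48 := by
    have a1 : (eta + 2 * th + EX) * (g * A) ≤ 1 / 48 * (g * A) :=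
      mul_le_mul_of_nonneg_right (by linarith only [hth, h1, etadel, hcs1, eta0]) hgA
    have a2 : (3 / 4 * eta + EX) * (bG * g * B) ≤ cs / 48 * (bG * g * B) :=
      mul_le_mul_of_nonneg_right (by linarith only [h1, etadel, eta0]) hgB
    linarith only [a1, a2]
  have e2 : be * g / K ^ 2 * EX ≤ (g * A + cs * (bG * g * B)) / 48 := by
    have a0 : be * g / K ^ 2 * EX = (6 * be / K) * (g * A) + (2 * be * CQ / K ^ 2) * (g * B) := by
      rw [hEX]; field_simp
    have a1 : 6 * be / K ≤ 1 / 48 := by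
      rw [div_le_iff₀ hK0]; linarith only [be1, kK]
    have a2 : 2 * be * CQ / K ^ 2 ≤ cs * bG / 48 := by
      rw [div_le_iff₀ (by positivity)]
      have b1 : 2 * be * CQ ≤ 1 / 50 * CQ :=
        mul_le_mul_of_nonneg_right (by linarith only [be1]) (by linarith only [hCQ])
      have b2 : eta * bT * K ≤ cs / 96 * bT * K :=
        mul_le_mul_of_nonneg_right (mul_le_mul_of_nonneg_right heta bT0.le) hK0.le
      have b3 : cs / 96 * bT * K ≤ cs * bG * K ^ 2 / 48 := by
        have c1 : bT * K ≤ bG * K ^ 2 := by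
          have : K ≤ K ^ 2 := by nlinarith only [kK]
          exact mul_le_mul hbG this hK0.le hbG0.le
        have c2 : cs * (bT * K) ≤ cs * (bG * K ^ 2) := mul_le_mul_of_nonneg_left c1 hcs.le
        have c3 : 0 ≤ cs * (bT * K) := by positivity
        linarith only [c2, c3]
      linarith only [b1, b2, b3, kB, hCQ]
    rw [a0]
    have b1 := mul_le_mul_of_nonneg_right a1 hgA
    have b2 := mul_le_mul_of_nonneg_right a2 hgB'
    linarith only [b1, b2]
  have hK4 : 0 < K ^ 4 := by positivity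
  have e3 : 9 * (1 / K ^ 4 * g) ≤ g * A + cs * (bG * g * B) := by
    have hcase : del / 2 ≤ 6 * K ^ 2 * A ∨ del / 2 ≤ 2 * CQ * B := by
      by_contra hcon
      push Not at hcon
      linarith only [hcon.1, hcon.2, h2, hES]
    rcases hcase with hc | hc
    · have b1 : 9 * (1 / K ^ 4) ≤ A := by
        rw [mul_one_div, div_le_iff₀ hK4]
        have c1 : 1000 * K ≤ del * K ^ 2 := by
          have := mul_le_mul_of_nonneg_right kD hK0.le
          linarith only [this]
        have c2 : del / 2 * K ^ 2 ≤ 6 * K ^ 2 * A * K ^ 2 :=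
          mul_le_mul_of_nonneg_right hc (by positivity)
        linarith only [c1, c2, kK]
      have b2 := mul_le_mul_of_nonneg_left b1 hg
      have b3 : 0 ≤ cs * (bG * g * B) := mul_nonneg hcs.le hgB
      linarith only [b2, b3]
    · have b1 : 9 * (1 / K ^ 4) ≤ cs * bG * B := by
        rw [mul_one_div, div_le_iff₀ hK4]
        have c0 : cs * bT * del * K ≤ cs * bG * del * K :=
          mul_le_mul_of_nonneg_right (mul_le_mul_of_nonneg_right
            (mul_le_mul_of_nonneg_left hbG hcs.le) del0.le) hK0.le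
        have c1 : del / 2 * (cs * bG * K) ≤ 2 * CQ * B * (cs * bG * K) :=
          mul_le_mul_of_nonneg_right hc (by positivity)
        have c2 : CQ * 50 ≤ CQ * (2 * B * (cs * bG * K)) := by
          linarith only [c0, c1, kE]
        have c3 : 50 ≤ 2 * B * (cs * bG * K) :=
          le_of_mul_le_mul_left c2 (by linarith only [hCQ])
        have c4 : K ≤ K ^ 4 := by
          have : 1 ≤ K := by linarith only [kK]
          exact le_self_pow₀ this (by norm_num)
        have c5 : cs * bG * B * K ≤ cs * bG * B * K ^ 4 :=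
          mul_le_mul_of_nonneg_left c4 (by positivity)
        linarith only [c3, c5]
      have b2 := mul_le_mul_of_nonneg_left b1 hg
      linarith only [b2, hgA]
  have e4 : cs * tau * bT / (24 * K ^ 4) * g ≤ 1 / 24 * (1 / K ^ 4 * g) := by
    have b1 : cs * tau * bT ≤ 1 := by
      have c1 : cs * tau ≤ 1 := mul_le_one₀ hcs1 htau.le htau1
      have c2 : bT ≤ 1 := by linarith only [bT1, heta, hcs1]
      exact mul_le_one₀ c1 bT0.le c2
    have b2 : cs * tau * bT / (24 * K ^ 4) ≤ 1 / (24 * K ^ 4) :=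
      div_le_div_of_nonneg_right b1 (by positivity)
    have b3 := mul_le_mul_of_nonneg_right b2 hg
    have b4 : 1 / (24 * K ^ 4) * g = 1 / 24 * (1 / K ^ 4 * g) := by field_simp
    linarith only [b3, b4]
  have e5 : 0 ≤ 1 / K ^ 4 * g := by positivity
  linarith only [e1, e2, e3, e4, e5]

theorem lower_Y (h : a.Good) (F : P → E)
    (hF : ∀ m p, ‖F p - a.fS m p‖ ≤ 1 / 2 * (a.G m / a.mu (m + 1))) (m : ℕ) (p q : P)
    (hi : ‖a.fX m q - a.fX m p - a.FX m p
        (lin (a.Gam * a.G m) (a.G m) (a.S (m + 1) * a.rr (m + 1) p) p q)‖ ≤ a.errX m p q)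
    (h1 : a.EX m p q ≤ a.del) (h2 : a.del < a.ES (m + 1) p q) :
    a.low * (a.G m / a.mu (m + 1)) ≤ ‖F q - F p‖ := by
  obtain ⟨hG1, hG2, hG3⟩ := a.Gam_bounds h
  have hmu := a.one_le_mu h (m + 1)
  have hG := a.one_le_G h m
  have hmu0 : 0 < a.mu (m + 1) := by linarith only [hmu]
  have hG0 : 0 < a.G m := by linarith only [hG]
  have hs := ds_nonneg p q
  have hK0 : 0 < a.K := by linarith only [h.kK]
  obtain ⟨x, y, hxy⟩ : ∃ x y : ℝ, a.AY m • (a.phY m q - a.phY m p) = x • e 3 + y • e 4 := by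
    refine ⟨a.AY m * (Real.cos (a.NY m * q.2.1) - Real.cos (a.NY m * p.2.1)),
      a.AY m * (Real.sin (a.NY m * q.2.1) - Real.sin (a.NY m * p.2.1)), ?_⟩
    unfold phY
    module
  have hlow := orth_lower (a.Gam * a.G m) (a.G m) (a.S (m + 1) * a.rr (m + 1) p) x y p q
  rw [← a.FX_norm m p] at hlow
  have hAY0 : 0 ≤ a.AY m := by
    unfold AY
    have := h.be0
    positivity
  have hvec : a.FX m p (lin (a.Gam * a.G m) (a.G m) (a.S (m + 1) * a.rr (m + 1) p) p q +
      (x • e 3 + y • e 4)) = (F q - F p) -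
      (a.fX m q - a.fX m p - a.FX m p
        (lin (a.Gam * a.G m) (a.G m) (a.S (m + 1) * a.rr (m + 1) p) p q)) -
      a.AY m • (a.FX m q (a.phY m q) - a.FX m p (a.phY m q)) -
      ((F q - a.fS (m + 1) q) - (F p - a.fS (m + 1) p)) := by
    rw [← hxy, map_add, map_smul, map_sub, fS_succ, fS_succ]
    module
  have ht2 : ‖a.AY m • (a.FX m q (a.phY m q) - a.FX m p (a.phY m q))‖ ≤
      a.AY m * a.EX m p q := by
    rw [norm_smul, Real.norm_of_nonneg hAY0]
    refine mul_le_mul_of_nonneg_left ?_ hAY0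
    have hEX0 : 0 ≤ a.EX m p q := by
      unfold EX
      have := a.eight_le_CQ
      have := abs_nonneg (dc p q)
      positivity
    refine (a.FX_lip h m p q _).trans ?_
    exact mul_le_of_le_one_right hEX0 (a.phY_norm m q)
  have ht3 : ‖(F q - a.fS (m + 1) q) - (F p - a.fS (m + 1) p)‖ ≤
      2 * (1 / a.K ^ 4 * (a.G m / a.mu (m + 1))) := by
    refine (norm_sub_le _ _).trans ?_
    have b1 := a.tail_S h F hF m q
    have b2 := a.tail_S h F hF m p
    linarith only [b1, b2]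
  have hnorm : ‖a.FX m p (lin (a.Gam * a.G m) (a.G m) (a.S (m + 1) * a.rr (m + 1) p) p q +
      (x • e 3 + y • e 4))‖ ≤ ‖F q - F p‖ + a.errX m p q + a.AY m * a.EX m p q +
      2 * (1 / a.K ^ 4 * (a.G m / a.mu (m + 1))) := by
    rw [hvec]
    refine (norm_sub_le _ _).trans (add_le_add ?_ ht3)
    refine (norm_sub_le _ _).trans (add_le_add ?_ ht2)
    exact (norm_sub_le _ _).trans (add_le_add le_rfl hi)
  -- rewriting in the scaled variables
  have q1 : a.G m * ds p q = a.G m / a.mu (m + 1) * (a.mu (m + 1) * ds p q) := by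
    field_simp
  have q2 : a.S (m + 1) * |dc p q| =
      (a.bT * a.Gam) * (a.G m / a.mu (m + 1)) * (a.mu (m + 1) ^ 2 * |dc p q|) := by
    unfold S
    rw [a.G_succ]
    field_simp
  have q3 : a.AY m = a.be * (a.G m / a.mu (m + 1)) / a.K ^ 2 := by
    unfold AY
    field_simp
  have q4 : a.EX m p q = 6 * a.K * (a.mu (m + 1) * ds p q) +
      2 * a.CQ * (a.mu (m + 1) ^ 2 * |dc p q|) := by
    unfold EX; ring
  have q5 : a.ES (m + 1) p q = 6 * a.K ^ 2 * (a.mu (m + 1) * ds p q) +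
      2 * a.CQ * (a.mu (m + 1) ^ 2 * |dc p q|) := by
    unfold ES; ring
  have q6 : a.errX m p q = (a.eta + 2 * a.th) * (a.G m / a.mu (m + 1) * (a.mu (m + 1) * ds p q)) +
      (3 / 4) * a.eta * ((a.bT * a.Gam) * (a.G m / a.mu (m + 1)) *
        (a.mu (m + 1) ^ 2 * |dc p q|)) +
      a.EX m p q * (a.G m / a.mu (m + 1) * (a.mu (m + 1) * ds p q) +
        (a.bT * a.Gam) * (a.G m / a.mu (m + 1)) * (a.mu (m + 1) ^ 2 * |dc p q|)) := by
    rw [← q1, ← q2]
    unfold errX
    ring
  have hS0 : 0 ≤ a.S (m + 1) := by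
    unfold S
    rw [a.G_succ]
    have := h.bT0
    have : 0 < a.Gam := by linarith only [hG1]
    positivity
  have hcs := a.cs_le_rr (m + 1) p
  have hlow2 : (a.G m * ds p q + a.cs * (a.S (m + 1) * |dc p q|)) / 3 ≤
      (|a.Gam * a.G m| * |q.1 - p.1| + |a.G m| * |q.2.1 - p.2.1| +
        |a.S (m + 1) * a.rr (m + 1) p| * |dc p q|) / 3 := by
    have b1 : a.G m ≤ |a.Gam * a.G m| := by
      refine le_trans ?_ (le_abs_self _)
      exact le_mul_of_one_le_left hG0.le hG1.le
    have b2 : a.G m ≤ |a.G m| := le_abs_self _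
    have b3 : a.cs * a.S (m + 1) ≤ |a.S (m + 1) * a.rr (m + 1) p| := by
      refine le_trans ?_ (le_abs_self _)
      rw [mul_comm]
      exact mul_le_mul_of_nonneg_left hcs hS0
    have c1 := mul_le_mul_of_nonneg_right b1 (abs_nonneg (q.1 - p.1))
    have c2 := mul_le_mul_of_nonneg_right b2 (abs_nonneg (q.2.1 - p.2.1))
    have c3 := mul_le_mul_of_nonneg_right b3 (abs_nonneg (dc p q))
    have c4 : a.G m * ds p q = a.G m * |q.1 - p.1| + a.G m * |q.2.1 - p.2.1| := by
      unfold ds; ring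
    rw [c4]
    linarith only [c1, c2, c3]
  have hth : 4 * a.th ≤ a.eta / 100 := by
    have b1 := h.th1
    have b2 : a.eta * a.Gam ≤ a.eta * (101 / 100) := mul_le_mul_of_nonneg_left hG3 h.eta0.le
    linarith only [b1, b2]
  have hbG : a.bT ≤ a.bT * a.Gam := le_mul_of_one_le_right h.bT0.le hG1.le
  have hnum := lowY_num (g := a.G m / a.mu (m + 1)) (A := a.mu (m + 1) * ds p q)
    (B := a.mu (m + 1) ^ 2 * |dc p q|) (by positivity) (by positivity) (by positivity)
    h.be0 h.be1 h.eta0 h.del0 h.etadel hth h.bT0 h.bT1 hbG a.hcs a.hcs1 a.htau a.htau1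
    a.eight_le_CQ h.kB h.kD h.kE h.kK q4 q5 h1 h2
  rw [← q6, ← q3, ← q1, ← q2] at hnum
  have hlowd : a.low = a.cs * a.tau * a.bT / (24 * a.K ^ 4) := rfl
  rw [hlowd]
  linarith only [hnum, hlow, hlow2, hnorm]

end Par

end Pool.Agent.Helper962.Heis
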