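import Pool.Agent.Helper962.Heis.Defs

set_option autoImplicit false

noncomputable section

namespace Pool.Agent.Helper962.Heis

/-- homogeneous quasi-distance in polarised coordinates -/
def rho (p q : P) : ℝ := ds p q + Real.sqrt |dc p q|

end Pool.Agent.Helper962.Heis
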