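import Pool.Agent.Helper962.Heis.Inv0
import Pool.Agent.Helper962.Heis.InvV
import Pool.Agent.Helper962.Heis.InvX
import Pool.Agent.Helper962.Heis.InvS
import Pool.Agent.Helper962.Heis.LowY
import Pool.Agent.Helper962.Heis.LowX
import Pool.Agent.Helper962.Heis.LowV1
import Pool.Agent.Helper962.Heis.LowV2
import Pool.Agent.Helper962.Heis.LowV3
import Pool.Agent.Helper962.Heis.Rho

set_option autoImplicit false

noncomputable section

namespace Pool.Agent.Helper962.Heis

theorem Par.inv_all (a : Par) (h : a.Good) (m : ℕ) (p q : P) (hp : |p.1| ≤ 1) :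
    ‖a.fS m q - a.fS m p - a.FS m p (Par.lin (a.G m) (a.G m) (a.S m * a.rr m p) p q)‖
      ≤ a.errS m p q := by
  induction m with
  | zero => exact a.inv_zero h p q hp
  | succ m ih => exact a.inv_S h m p q (a.inv_X h m p q (a.inv_V h m p q ih))
theorem Par.lower_all (a : Par) (h : a.Good) (F : P → E)
    (hF : ∀ m p, ‖F p - a.fS m p‖ ≤ 1 / 2 * (a.G m / a.mu (m + 1))) (m : ℕ) (p q : P)
    (hp : |p.1| ≤ 1) (h1 : a.ES m p q ≤ a.del) (h2 : a.del < a.ES (m + 1) p q) :
    a.low * (a.G m / a.mu (m + 1)) ≤ ‖F q - F p‖ := by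
  have hi := Par.inv_all a h m p q hp
  by_cases hV : a.del < a.EV m p q
  · by_cases hs : a.sig ≤ a.mu (m + 1) * ds p q
    · exact a.lower_V1 h F hF m p q hi h1 hs
    · by_cases h4 : a.mu (m + 1) ^ 2 * |dc p q| ≤ a.tau
      · exact a.lower_V2 h F hF m p q hi h1 hV (not_le.1 hs) h4
      · exact a.lower_V3 h F hF m p q hi h1 (not_le.1 h4)
  · have hiV := a.inv_V h m p q hi
    by_cases hX : a.del < a.EX m p q
    · exact a.lower_X h F hF m p q hiV (not_lt.1 hV) hX
    · exact a.lower_Y h F hF m p q (a.inv_X h m p q hiV) (not_lt.1 hX) h2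

end Pool.Agent.Helper962.Heis
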