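import Pool.Agent.Helper962.Heis.Flip
import Pool.Agent.Helper962.Heis.Ph

set_option autoImplicit false

noncomputable section

namespace Pool.Agent.Helper962.Heis

namespace Par
variable (a : Par)

theorem lim_W_pos (h : a.Good) (m : ℕ) : 0 < a.G m / a.mu (m + 1) :=
  div_pos (by linarith [a.one_le_G h m]) (by linarith [a.one_le_mu h (m + 1)])

theorem lim_W_succ (h : a.Good) (m : ℕ) :
    a.G (m + 1) / a.mu (m + 1 + 1) ≤ 1 / 2 * (a.G m / a.mu (m + 1)) := by
  have hK : (100 : ℝ) ≤ a.K := h.kK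
  have hmu := a.one_le_mu h (m + 1)
  have hG := a.one_le_G h m
  have hGam := (a.Gam_bounds h).2.2
  have hGam1 := (a.Gam_bounds h).1
  rw [a.G_succ m, a.mu_succ (m + 1)]
  have hK4 : (100 : ℝ) ^ 4 ≤ a.K ^ 4 := pow_le_pow_left₀ (by norm_num) hK 4
  have hK0 : (0 : ℝ) < a.K ^ 4 := lt_of_lt_of_le (by norm_num) hK4
  have hW := a.lim_W_pos h m
  have e1 : a.Gam * a.G m / (a.K ^ 4 * a.mu (m + 1)) = a.Gam / a.K ^ 4 * (a.G m / a.mu (m + 1)) := by
    rw [div_mul_div_comm]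
  rw [e1]
  apply mul_le_mul_of_nonneg_right _ hW.le
  rw [div_le_iff₀ hK0]
  norm_num at hK4
  linarith

theorem lim_W_pow (h : a.Good) (m j : ℕ) :
    a.G (m + j) / a.mu (m + j + 1) ≤ (a.G m / a.mu (m + 1)) * (1 / 2) ^ j := by
  induction j with
  | zero => simp
  | succ j ih =>
    have h1 := a.lim_W_succ h (m + j)
    rw [← add_assoc]
    calc a.G (m + j + 1) / a.mu (m + j + 1 + 1) ≤ 1 / 2 * (a.G (m + j) / a.mu (m + j + 1)) := h1
      _ ≤ 1 / 2 * ((a.G m / a.mu (m + 1)) * (1 / 2) ^ j) := by linarith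
      _ = (a.G m / a.mu (m + 1)) * (1 / 2) ^ (j + 1) := by rw [pow_succ]; ring

theorem lim_step (h : a.Good) (m : ℕ) (p : P) :
    ‖a.fS (m + 1) p - a.fS m p‖ ≤ 1 / 4 * (a.G m / a.mu (m + 1)) := by
  have hK : (100 : ℝ) ≤ a.K := h.kK
  have hmu := a.one_le_mu h (m + 1)
  have hG := a.one_le_G h m
  have hGam := (a.Gam_bounds h).2.2
  have hGam1 := (a.Gam_bounds h).1
  have hW := a.lim_W_pos h m
  have hbT := h.bT0
  have hbT3 := h.bT3
  have hbe0 := h.be0
  have hbe1 := h.be1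
  have hC := a.hC
  obtain ⟨W, hWd⟩ : ∃ W, W = a.G m / a.mu (m + 1) := ⟨_, rfl⟩
  rw [← hWd] at hW ⊢
  have hmu0 : 0 < a.mu (m + 1) := by linarith
  have hAV : a.AV m = a.bT * a.Gam * W := by
    unfold AV
    rw [a.G_succ m, hWd]
    ring
  have hAX : a.AX m = a.be / a.K * W := by
    unfold AX
    rw [hWd, div_mul_div_comm]
  have hAY : a.AY m = a.be / a.K ^ 2 * W := by
    unfold AY
    rw [hWd, div_mul_div_comm]
  have hAV0 : 0 ≤ a.AV m := by rw [hAV]; positivity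
  have hK0 : (0 : ℝ) < a.K := by linarith
  have hAX0 : 0 ≤ a.AX m := by rw [hAX]; positivity
  have hAY0 : 0 ≤ a.AY m := by rw [hAY]; positivity
  have e1 : a.fS (m + 1) p - a.fS m p = a.AV m • a.FS m p (a.phV m p) +
      a.AX m • a.FV m p (a.phX m p) + a.AY m • a.FX m p (a.phY m p) := by
    rw [a.fS_succ]
    unfold fX fV
    abel
  have n1 : ‖a.AV m • a.FS m p (a.phV m p)‖ ≤ a.AV m * (2 * a.C) := by
    rw [norm_smul, a.FS_norm, Real.norm_eq_abs, abs_of_nonneg hAV0]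
    exact mul_le_mul_of_nonneg_left (a.phV_norm m p) hAV0
  have n2 : ‖a.AX m • a.FV m p (a.phX m p)‖ ≤ a.AX m := by
    rw [norm_smul, a.FV_norm, Real.norm_eq_abs, abs_of_nonneg hAX0]
    calc a.AX m * ‖a.phX m p‖ ≤ a.AX m * 1 := mul_le_mul_of_nonneg_left (a.phX_norm m p) hAX0
      _ = a.AX m := mul_one _
  have n3 : ‖a.AY m • a.FX m p (a.phY m p)‖ ≤ a.AY m := by
    rw [norm_smul, a.FX_norm, Real.norm_eq_abs, abs_of_nonneg hAY0]
    calc a.AY m * ‖a.phY m p‖ ≤ a.AY m * 1 := mul_le_mul_of_nonneg_left (a.phY_norm m p) hAY0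
      _ = a.AY m := mul_one _
  have n4 : ‖a.fS (m + 1) p - a.fS m p‖ ≤ a.AV m * (2 * a.C) + a.AX m + a.AY m := by
    rw [e1]
    exact (norm_add₃_le).trans (add_le_add (add_le_add n1 n2) n3)
  have k1 : a.AV m * (2 * a.C) ≤ 1 / 16 * W := by
    rw [hAV]
    have h1 : a.bT * a.C ≤ 1 / 64 := by linarith
    have h2 : a.bT * a.C * a.Gam ≤ 1 / 64 * 2 := by
      apply mul_le_mul h1 (by linarith) (by linarith) (by norm_num)
    have h3 : a.bT * a.Gam * W * (2 * a.C) = 2 * (a.bT * a.C * a.Gam) * W := by ring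
    rw [h3]
    apply mul_le_mul_of_nonneg_right _ hW.le
    linarith
  have k2 : a.AX m ≤ 1 / 100 * W := by
    rw [hAX]
    apply mul_le_mul_of_nonneg_right _ hW.le
    rw [div_le_iff₀ hK0]
    linarith
  have k3 : a.AY m ≤ 1 / 100 * W := by
    rw [hAY]
    apply mul_le_mul_of_nonneg_right _ hW.le
    rw [div_le_iff₀ (by positivity)]
    nlinarith
  linarith

theorem exists_limit (h : a.Good) :
    ∃ F : P → E, ∀ m p, ‖F p - a.fS m p‖ ≤ 1 / 2 * (a.G m / a.mu (m + 1)) := by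
  have hd : ∀ m p j, dist (a.fS (m + j) p) (a.fS (m + (j + 1)) p) ≤
      1 / 4 * (a.G m / a.mu (m + 1)) * (1 / 2) ^ j := by
    intro m p j
    rw [dist_comm, dist_eq_norm, ← add_assoc]
    have h1 := a.lim_step h (m + j) p
    have h2 := a.lim_W_pow h m j
    linarith
  have hex : ∀ p, ∃ L : E, Filter.Tendsto (fun j => a.fS j p) Filter.atTop (nhds L) := by
    intro p
    apply cauchySeq_tendsto_of_complete
    apply cauchySeq_of_le_geometric (1 / 2) (1 / 4 * (a.G 0 / a.mu (0 + 1))) (by norm_num)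
    intro j
    have h1 := hd 0 p j
    simp only [zero_add] at h1 ⊢
    exact h1
  choose F hF using hex
  refine ⟨F, fun m p => ?_⟩
  have h1 : Filter.Tendsto (fun j => a.fS (m + j) p) Filter.atTop (nhds (F p)) := by
    have h2 := (Filter.tendsto_add_atTop_iff_nat m).2 (hF p)
    simp_rw [add_comm m]
    exact h2
  have h2 := dist_le_of_le_geometric_of_tendsto₀ (1 / 2) (1 / 4 * (a.G m / a.mu (m + 1)))
    (by norm_num) (hd m p) h1
  rw [add_zero, dist_comm, dist_eq_norm] at h2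
  refine h2.trans (le_of_eq ?_)
  ring

end Par

end Pool.Agent.Helper962.Heis
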