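import Pool.Agent.Helper962.Heis.Step

set_option autoImplicit false

noncomputable section

namespace Pool.Agent.Helper962.Heis

theorem coord_le_norm (v : E) (i : Fin 5) : |v i| ≤ ‖v‖ := by
  rw [← Real.norm_eq_abs]
  exact PiLp.norm_apply_le v i
theorem three_coord (v : E) : |v 0| + |v 1| + |v 2| ≤ 3 * ‖v‖ := by
  have h0 := coord_le_norm v 0
  have h1 := coord_le_norm v 1
  have h2 := coord_le_norm v 2
  linarith
theorem lin_coords (u v w x y : ℝ) (p q : P) :
    (Par.lin u v w p q + (x • e 3 + y • e 4)) 0 = u * (q.1 - p.1) ∧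
    (Par.lin u v w p q + (x • e 3 + y • e 4)) 1 = v * (q.2.1 - p.2.1) ∧
    (Par.lin u v w p q + (x • e 3 + y • e 4)) 2 = w * dc p q ∧
    (Par.lin u v w p q + (x • e 3 + y • e 4)) 3 = x ∧
    (Par.lin u v w p q + (x • e 3 + y • e 4)) 4 = y := by
  refine ⟨?_, ?_, ?_, ?_, ?_⟩ <;>
  simp [Par.lin, e, EuclideanSpace.single_apply, PiLp.add_apply, PiLp.smul_apply]
/-- lower bound for a displacement with an orthogonal normal part -/
theorem orth_lower (u v w x y : ℝ) (p q : P) :
    (|u| * |q.1 - p.1| + |v| * |q.2.1 - p.2.1| + |w| * |dc p q|) / 3 ≤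
      ‖Par.lin u v w p q + (x • e 3 + y • e 4)‖ := by
  obtain ⟨h0, h1, h2, -, -⟩ := lin_coords u v w x y p q
  have h := three_coord (Par.lin u v w p q + (x • e 3 + y • e 4))
  rw [h0, h1, h2, abs_mul, abs_mul, abs_mul] at h
  linarith
theorem orth_lower' (u v w x y : ℝ) (p q : P) :
    (|x| + |y|) / 2 ≤ ‖Par.lin u v w p q + (x • e 3 + y • e 4)‖ := by
  obtain ⟨-, -, -, h3, h4⟩ := lin_coords u v w x y p q
  have k3 := coord_le_norm (Par.lin u v w p q + (x • e 3 + y • e 4)) 3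
  have k4 := coord_le_norm (Par.lin u v w p q + (x • e 3 + y • e 4)) 4
  rw [h3] at k3
  rw [h4] at k4
  linarith

end Pool.Agent.Helper962.Heis
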