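import Pool.Agent.Helper962.Heis.Speed

set_option autoImplicit false

noncomputable section

namespace Pool.Agent.Helper962.Heis

namespace Par
variable (a : Par)

theorem Qnorm_V (p : P) : (a.g1 p / a.r p) ^ 2 + (a.g2 p / a.r p) ^ 2 = 1 := by
  have h1 : 0 < a.r p := lt_of_lt_of_le a.hcs (a.cs_le_r p)
  have h2 : a.r p ^ 2 = a.g1 p ^ 2 + a.g2 p ^ 2 := by
    unfold r
    rw [Real.sq_sqrt (by positivity)]
  field_simp
  linarith

theorem Qnorm_G : (1 / a.Gam) ^ 2 + (a.be / a.Gam) ^ 2 = 1 := by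
  have h2 : a.Gam ^ 2 = 1 + a.be ^ 2 := by
    unfold Gam
    rw [Real.sq_sqrt (by positivity)]
  have h1 : a.Gam ≠ 0 := by
    intro h0
    rw [h0] at h2
    nlinarith [sq_nonneg a.be]
  field_simp
  linarith

theorem QV_norm (m : ℕ) (p : P) (v : E) : ‖a.QV m p v‖ = ‖v‖ := by
  unfold QV
  rw [LinearMap.comp_apply, rotL_norm 3 4 (by decide) _ _ (a.Qnorm_V _),
    rotL_norm 2 3 (by decide) _ _ (by norm_num)]
theorem QX_norm (m : ℕ) (p : P) (v : E) : ‖a.QX m p v‖ = ‖v‖ := by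
  unfold QX
  rw [LinearMap.comp_apply, LinearMap.comp_apply,
    rotL_norm 3 4 (by decide) _ _ (Real.cos_sq_add_sin_sq _),
    rotL_norm 0 4 (by decide) _ _ a.Qnorm_G,
    rotL_norm 3 4 (by decide) _ _ (by rw [neg_sq]; exact Real.cos_sq_add_sin_sq _)]
theorem QY_norm (m : ℕ) (p : P) (v : E) : ‖a.QY m p v‖ = ‖v‖ := by
  unfold QY
  rw [LinearMap.comp_apply, LinearMap.comp_apply,
    rotL_norm 3 4 (by decide) _ _ (Real.cos_sq_add_sin_sq _),
    rotL_norm 1 4 (by decide) _ _ a.Qnorm_G,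
    rotL_norm 3 4 (by decide) _ _ (by rw [neg_sq]; exact Real.cos_sq_add_sin_sq _)]

end Par

end Pool.Agent.Helper962.Heis
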