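import Pool.Agent.Helper962.Heis.Basic

set_option autoImplicit false

noncomputable section

namespace Pool.Agent.Helper962.Heis

theorem rot_e_apply (i k : Fin 5) : (e i) k = if k = i then (1 : ℝ) else 0 := by
  unfold e
  rw [EuclideanSpace.single_apply]

theorem rot_coord (i j k : Fin 5) (c s : ℝ) (v : E) :
    (rotL i j c s v) k = v k + ((c - 1) * v i - s * v j) * (if k = i then (1 : ℝ) else 0)
      + (s * v i + (c - 1) * v j) * (if k = j then (1 : ℝ) else 0) := by
  have h : rotL i j c s v = v + ((c - 1) * v i - s * v j) • e i + (s * v i + (c - 1) * v j) • e j := rfl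
  rw [h, PiLp.add_apply, PiLp.add_apply, PiLp.smul_apply, PiLp.smul_apply, rot_e_apply, rot_e_apply,
    smul_eq_mul, smul_eq_mul]

theorem rotL_coord_i (i j : Fin 5) (h : i ≠ j) (c s : ℝ) (v : E) :
    (rotL i j c s v) i = c * v i - s * v j := by
  rw [rot_coord, if_pos rfl, if_neg h]; ring
theorem rotL_coord_j (i j : Fin 5) (h : i ≠ j) (c s : ℝ) (v : E) :
    (rotL i j c s v) j = s * v i + c * v j := by
  rw [rot_coord, if_pos rfl, if_neg (Ne.symm h)]; ring
theorem rotL_coord_k (i j k : Fin 5) (hi : k ≠ i) (hj : k ≠ j) (c s : ℝ) (v : E) :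
    (rotL i j c s v) k = v k := by
  rw [rot_coord, if_neg hi, if_neg hj]; ring
theorem rotL_e_i (i j : Fin 5) (h : i ≠ j) (c s : ℝ) :
    rotL i j c s (e i) = c • e i + s • e j := by
  have h1 : rotL i j c s (e i) = e i + ((c - 1) * (e i) i - s * (e i) j) • e i
    + (s * (e i) i + (c - 1) * (e i) j) • e j := rfl
  rw [h1, rot_e_apply, rot_e_apply, if_pos rfl, if_neg (Ne.symm h)]
  module
theorem rotL_e_j (i j : Fin 5) (h : i ≠ j) (c s : ℝ) :
    rotL i j c s (e j) = (-s) • e i + c • e j := by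
  have h1 : rotL i j c s (e j) = e j + ((c - 1) * (e j) i - s * (e j) j) • e i
    + (s * (e j) i + (c - 1) * (e j) j) • e j := rfl
  rw [h1, rot_e_apply, rot_e_apply, if_pos rfl, if_neg h]
  module
theorem rotL_e_k (i j k : Fin 5) (hi : k ≠ i) (hj : k ≠ j) (c s : ℝ) :
    rotL i j c s (e k) = e k := by
  have h1 : rotL i j c s (e k) = e k + ((c - 1) * (e k) i - s * (e k) j) • e i
    + (s * (e k) i + (c - 1) * (e k) j) • e j := rfl
  rw [h1, rot_e_apply, rot_e_apply, if_neg (Ne.symm hi), if_neg (Ne.symm hj)]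
  module

theorem rot_sum (i j : Fin 5) (h : i ≠ j) (v : Fin 5 → ℝ) (α β : ℝ) :
    ∑ k, (v k + α * (if k = i then (1 : ℝ) else 0) + β * (if k = j then (1 : ℝ) else 0)) ^ 2
      = ∑ k, v k ^ 2 + (2 * α * v i + α ^ 2) + (2 * β * v j + β ^ 2) := by
  have h1 : ∀ k, (v k + α * (if k = i then (1 : ℝ) else 0) + β * (if k = j then (1 : ℝ) else 0)) ^ 2
      = v k ^ 2 + (if k = i then (2 * α * v k + α ^ 2) else 0) + (if k = j then (2 * β * v k + β ^ 2) else 0) := by
    intro k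
    by_cases hi : k = i
    · by_cases hj : k = j
      · exact absurd (hi.symm.trans hj) h
      · rw [if_pos hi, if_neg hj, if_pos hi, if_neg hj]; ring
    · by_cases hj : k = j
      · rw [if_neg hi, if_pos hj, if_neg hi, if_pos hj]; ring
      · rw [if_neg hi, if_neg hj, if_neg hi, if_neg hj]; ring
  rw [Finset.sum_congr rfl fun k _ => h1 k, Finset.sum_add_distrib, Finset.sum_add_distrib,
    Finset.sum_ite_eq' Finset.univ i, Finset.sum_ite_eq' Finset.univ j, if_pos (Finset.mem_univ _),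
    if_pos (Finset.mem_univ _)]

theorem rot_norm_sq (v : E) : ‖v‖ ^ 2 = ∑ k, v k ^ 2 := by
  rw [EuclideanSpace.norm_sq_eq]
  refine Finset.sum_congr rfl fun k _ => ?_
  rw [Real.norm_eq_abs, sq_abs]

theorem rotL_norm (i j : Fin 5) (h : i ≠ j) (c s : ℝ) (hcs : c ^ 2 + s ^ 2 = 1) (v : E) :
    ‖rotL i j c s v‖ = ‖v‖ := by
  have h1 : ‖rotL i j c s v‖ ^ 2 = ‖v‖ ^ 2 := by
    rw [rot_norm_sq, rot_norm_sq, Finset.sum_congr rfl fun k _ => by rw [rot_coord i j k c s v],
      rot_sum i j h]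
    have : s ^ 2 = 1 - c ^ 2 := by linarith
    ring_nf
    rw [this]
    ring
  rwa [sq_eq_sq₀ (norm_nonneg _) (norm_nonneg _)] at h1

theorem rotL_lip (i j : Fin 5) (h : i ≠ j) (c s c' s' : ℝ) (v : E) :
    ‖rotL i j c s v - rotL i j c' s' v‖ ≤ (|c - c'| + |s - s'|) * ‖v‖ := by
  refine abs_le_of_sq_le_sq' ?_ (by positivity) |>.2
  rw [rot_norm_sq]
  have h1 : ∀ k, (rotL i j c s v - rotL i j c' s' v) k
      = (fun _ : Fin 5 => (0 : ℝ)) k + ((c - c') * v i - (s - s') * v j) * (if k = i then (1 : ℝ) else 0)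
      + ((s - s') * v i + (c - c') * v j) * (if k = j then (1 : ℝ) else 0) := by
    intro k
    rw [PiLp.sub_apply, rot_coord, rot_coord]
    ring
  rw [Finset.sum_congr rfl fun k _ => by rw [h1 k], rot_sum i j h]
  have h2 : v i ^ 2 + v j ^ 2 ≤ ‖v‖ ^ 2 := by
    rw [rot_norm_sq, ← Finset.sum_pair (f := fun k => v k ^ 2) h]
    exact Finset.sum_le_sum_of_subset_of_nonneg (Finset.subset_univ _) fun k _ _ => sq_nonneg _
  have h3 : (c - c') ^ 2 + (s - s') ^ 2 ≤ (|c - c'| + |s - s'|) ^ 2 := by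
    have := mul_nonneg (abs_nonneg (c - c')) (abs_nonneg (s - s'))
    nlinarith [sq_abs (c - c'), sq_abs (s - s')]
  have h4 : ((c - c') ^ 2 + (s - s') ^ 2) * (v i ^ 2 + v j ^ 2) ≤ (|c - c'| + |s - s'|) ^ 2 * ‖v‖ ^ 2 :=
    mul_le_mul h3 h2 (by positivity) (by positivity)
  rw [mul_pow]
  simp only [Finset.sum_const_zero, ne_eq, OfNat.ofNat_ne_zero, not_false_eq_true, zero_pow]
  nlinarith [h4]

end Pool.Agent.Helper962.Heis
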