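import Pool.Agent.Helper962.Heis.Pos

set_option autoImplicit false

noncomputable section

namespace Pool.Agent.Helper962.Heis

namespace Par
variable (a : Par)

theorem cs_le_r (p : P) : a.cs ≤ a.r p := by
  unfold Par.r
  exact Real.le_sqrt_of_sq_le (a.gpos p)
theorem r_le (p : P) : a.r p ≤ 2 * a.C := by
  unfold Par.r
  have hC := a.hC
  have h1 := abs_le.mp (a.bg1 p)
  have h2 := abs_le.mp (a.bg2 p)
  apply Real.sqrt_le_iff.mpr
  constructor
  · linarith
  · have e1 : a.g1 p ^ 2 ≤ a.C ^ 2 := by nlinarith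
    have e2 : a.g2 p ^ 2 ≤ a.C ^ 2 := by nlinarith
    nlinarith
theorem cs_le_rr (m : ℕ) (p : P) : a.cs ≤ a.rr m p := by
  cases m with
  | zero => exact a.hcs1
  | succ m => exact a.cs_le_r _
theorem rr_le (m : ℕ) (p : P) : a.rr m p ≤ 2 * a.C := by
  cases m with
  | zero =>
    have hC := a.hC
    show (1 : ℝ) ≤ 2 * a.C
    linarith
  | succ m => exact a.r_le _


end Par

end Pool.Agent.Helper962.Heis
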