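import Pool.Agent.Helper962.Heis.Rot

set_option autoImplicit false

noncomputable section

namespace Pool.Agent.Helper962.Heis

theorem step_err (Fp Fq Qp : E →ₗ[ℝ] E) (fp fq php phq L L' l : E) (A Eps M e1 e2 : ℝ)
    (hF : ∀ v, ‖Fp v‖ = ‖v‖) (hL : ∀ v, ‖Fq v - Fp v‖ ≤ Eps * ‖v‖) (hA : 0 ≤ A) (hE : 0 ≤ Eps)
    (h1 : ‖fq - fp - Fp L‖ ≤ e1) (h2 : ‖phq - php - l‖ ≤ e2) (h3 : ‖phq‖ ≤ M)
    (hQ : Qp L' = L + A • l) :
    ‖(fq + A • Fq phq) - (fp + A • Fp php) - Fp (Qp L')‖ ≤ e1 + A * e2 + A * (Eps * M) := by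
  have key : (fq + A • Fq phq) - (fp + A • Fp php) - Fp (Qp L') =
      (fq - fp - Fp L) + A • (Fq phq - Fp phq) + A • Fp (phq - php - l) := by
    rw [hQ, map_add, map_smul, map_sub, map_sub]
    module
  rw [key]
  have hb : ‖A • (Fq phq - Fp phq)‖ ≤ A * (Eps * M) := by
    rw [norm_smul, Real.norm_eq_abs, abs_of_nonneg hA]
    exact mul_le_mul_of_nonneg_left ((hL phq).trans (mul_le_mul_of_nonneg_left h3 hE)) hA
  have hc : ‖A • Fp (phq - php - l)‖ ≤ A * e2 := by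
    rw [norm_smul, Real.norm_eq_abs, abs_of_nonneg hA, hF]
    exact mul_le_mul_of_nonneg_left h2 hA
  have := norm_add₃_le (a := fq - fp - Fp L) (b := A • (Fq phq - Fp phq))
    (c := A • Fp (phq - php - l))
  linarith


theorem frame_lip (Fp Fq Qp Qz : E →ₗ[ℝ] E) (a b : ℝ) (ha : 0 ≤ a)
    (hFp : ∀ v, ‖Fp v‖ = ‖v‖) (hQz : ∀ v, ‖Qz v‖ = ‖v‖)
    (hF : ∀ v, ‖Fq v - Fp v‖ ≤ a * ‖v‖) (hQ : ∀ v, ‖Qz v - Qp v‖ ≤ b * ‖v‖) (v : E) :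
    ‖Fq (Qz v) - Fp (Qp v)‖ ≤ (a + b) * ‖v‖ := by
  have key : Fq (Qz v) - Fp (Qp v) = (Fq (Qz v) - Fp (Qz v)) + Fp (Qz v - Qp v) := by
    rw [map_sub]
    module
  rw [key]
  have h1 := norm_add_le (Fq (Qz v) - Fp (Qz v)) (Fp (Qz v - Qp v))
  have h2 := hF (Qz v)
  rw [hQz] at h2
  have h3 := hQ v
  rw [hFp] at h1
  nlinarith


end Pool.Agent.Helper962.Heis
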