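import Pool.Agent.Helper962.Heis.Lim

set_option autoImplicit false

noncomputable section

namespace Pool.Agent.Helper962.Heis

namespace Par
variable (a : Par)

theorem tails_q_nonneg (h : a.Good) (m : ℕ) : 0 ≤ a.G m / a.mu (m + 1) := by
  have h1 := a.one_le_G h m
  have h2 := a.one_le_mu h (m + 1)
  positivity

theorem tail_S (h : a.Good) (F : P → E)
    (hF : ∀ m p, ‖F p - a.fS m p‖ ≤ 1 / 2 * (a.G m / a.mu (m + 1))) (m : ℕ) (p : P) :
    ‖F p - a.fS (m + 1) p‖ ≤ (1 / a.K ^ 4) * (a.G m / a.mu (m + 1)) := by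
  have hK : (100 : ℝ) ≤ a.K := h.kK
  have hK0 : (0 : ℝ) < a.K := by linarith
  have hq := a.tails_q_nonneg h m
  have hmu : (0 : ℝ) < a.mu (m + 1) := lt_of_lt_of_le one_pos (a.one_le_mu h (m + 1))
  obtain ⟨hG1, -, hG3⟩ := a.Gam_bounds h
  refine (hF (m + 1) p).trans ?_
  have h1 : a.G (m + 1) / a.mu (m + 1 + 1)
      = a.Gam * ((1 / a.K ^ 4) * (a.G m / a.mu (m + 1))) := by
    rw [a.G_succ, a.mu_succ (m + 1)]
    field_simp
  rw [h1]
  have h2 : 0 ≤ (1 / a.K ^ 4) * (a.G m / a.mu (m + 1)) := by positivity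
  nlinarith

theorem tail_X (h : a.Good) (F : P → E)
    (hF : ∀ m p, ‖F p - a.fS m p‖ ≤ 1 / 2 * (a.G m / a.mu (m + 1))) (m : ℕ) (p : P) :
    ‖F p - a.fX m p‖ ≤ (1 / (50 * a.K ^ 2)) * (a.G m / a.mu (m + 1)) := by
  have hK : (100 : ℝ) ≤ a.K := h.kK
  have hK0 : (0 : ℝ) < a.K := by linarith
  have hq := a.tails_q_nonneg h m
  have hmu : (0 : ℝ) < a.mu (m + 1) := lt_of_lt_of_le one_pos (a.one_le_mu h (m + 1))
  have hbe0 := h.be0
  have hbe1 := h.be1
  have h1 := a.tail_S h F hF m p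
  have hAY : a.AY m = a.be * (1 / a.K ^ 2 * (a.G m / a.mu (m + 1))) := by
    unfold AY
    field_simp
  have h2 : ‖a.fS (m + 1) p - a.fX m p‖ ≤ a.AY m := by
    rw [a.fS_succ, add_sub_cancel_left, norm_smul, a.FX_norm]
    have h3 := a.phY_norm m p
    have h4 : 0 ≤ a.AY m := by rw [hAY]; positivity
    rw [Real.norm_of_nonneg h4]
    nlinarith
  have h3 : ‖F p - a.fX m p‖ ≤ ‖F p - a.fS (m + 1) p‖ + ‖a.fS (m + 1) p - a.fX m p‖ :=
    norm_sub_le_norm_sub_add_norm_sub _ _ _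
  have h4 : 1 / a.K ^ 4 * (a.G m / a.mu (m + 1)) ≤
      1 / 100 * (1 / a.K ^ 2 * (a.G m / a.mu (m + 1))) := by
    rw [← mul_assoc]
    refine mul_le_mul_of_nonneg_right ?_ hq
    rw [one_div, one_div, one_div, ← mul_inv]
    apply inv_anti₀ (by positivity)
    nlinarith [pow_pos hK0 2, pow_pos hK0 3]
  have h5 : a.AY m ≤ 1 / 100 * (1 / a.K ^ 2 * (a.G m / a.mu (m + 1))) := by
    rw [hAY]
    exact mul_le_mul_of_nonneg_right hbe1 (by positivity)
  have h6 : 1 / (50 * a.K ^ 2) * (a.G m / a.mu (m + 1))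
      = 1 / 50 * (1 / a.K ^ 2 * (a.G m / a.mu (m + 1))) := by
    field_simp
  rw [h6]
  linarith

theorem tail_V (h : a.Good) (F : P → E)
    (hF : ∀ m p, ‖F p - a.fS m p‖ ≤ 1 / 2 * (a.G m / a.mu (m + 1))) (m : ℕ) (p : P) :
    ‖F p - a.fV m p‖ ≤ (1 / (50 * a.K)) * (a.G m / a.mu (m + 1)) := by
  have hK : (100 : ℝ) ≤ a.K := h.kK
  have hK0 : (0 : ℝ) < a.K := by linarith
  have hq := a.tails_q_nonneg h m
  have hmu : (0 : ℝ) < a.mu (m + 1) := lt_of_lt_of_le one_pos (a.one_le_mu h (m + 1))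
  have hbe0 := h.be0
  have hbe1 := h.be1
  have h1 := a.tail_X h F hF m p
  have hAX : a.AX m = a.be * (1 / a.K * (a.G m / a.mu (m + 1))) := by
    unfold AX
    field_simp
  have h2 : ‖a.fX m p - a.fV m p‖ ≤ a.AX m := by
    unfold fX
    rw [add_sub_cancel_left, norm_smul, a.FV_norm]
    have h3 := a.phX_norm m p
    have h4 : 0 ≤ a.AX m := by rw [hAX]; positivity
    rw [Real.norm_of_nonneg h4]
    nlinarith
  have h3 : ‖F p - a.fV m p‖ ≤ ‖F p - a.fX m p‖ + ‖a.fX m p - a.fV m p‖ :=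
    norm_sub_le_norm_sub_add_norm_sub _ _ _
  have h4 : 1 / (50 * a.K ^ 2) * (a.G m / a.mu (m + 1)) ≤
      1 / 100 * (1 / a.K * (a.G m / a.mu (m + 1))) := by
    rw [← mul_assoc]
    refine mul_le_mul_of_nonneg_right ?_ hq
    rw [one_div, one_div, one_div, ← mul_inv]
    apply inv_anti₀ (by positivity)
    nlinarith [pow_pos hK0 2]
  have h5 : a.AX m ≤ 1 / 100 * (1 / a.K * (a.G m / a.mu (m + 1))) := by
    rw [hAX]
    exact mul_le_mul_of_nonneg_right hbe1 (by positivity)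
  have h6 : 1 / (50 * a.K) * (a.G m / a.mu (m + 1))
      = 1 / 50 * (1 / a.K * (a.G m / a.mu (m + 1))) := by
    field_simp
  rw [h6]
  linarith

end Par

end Pool.Agent.Helper962.Heis
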