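import Pool.Agent.Helper962.Heis.Invall

set_option autoImplicit false

noncomputable section

namespace Pool.Agent.Helper962.Heis

theorem upall_e_norm (i : Fin 5) : ‖e i‖ = 1 := by
  unfold e
  simp

theorem upall_lin (u v w : ℝ) (hu : 0 ≤ u) (hv : 0 ≤ v) (hw : 0 ≤ w) (p q : P) :
    ‖Par.lin u v w p q‖ ≤ u * |q.1 - p.1| + v * |q.2.1 - p.2.1| + w * |dc p q| := by
  unfold Par.lin
  refine (norm_add_le _ _).trans (add_le_add ((norm_add_le _ _).trans (add_le_add ?_ ?_)) ?_)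
  · rw [norm_smul, upall_e_norm, mul_one, Real.norm_eq_abs, abs_mul, abs_of_nonneg hu]
  · rw [norm_smul, upall_e_norm, mul_one, Real.norm_eq_abs, abs_mul, abs_of_nonneg hv]
  · rw [norm_smul, upall_e_norm, mul_one, Real.norm_eq_abs, abs_mul, abs_of_nonneg hw]

theorem upall_arith (G mu s c S rr X C K CQ eta bT ES : ℝ) (hG : 1 ≤ G) (hmu : 1 ≤ mu)
    (hs : 0 ≤ s) (hc : 0 ≤ c) (hX : X = G / mu) (h1 : mu * s ≤ 1) (h2 : mu ^ 2 * c ≤ 1)
    (hS : S = bT * G * mu) (hbT : 0 < bT) (hC : 1 ≤ C) (hbT3 : 64 * C * bT ≤ 1)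
    (hrr0 : 0 ≤ rr) (hrr : rr ≤ 2 * C) (heta0 : 0 < eta) (heta : eta ≤ 1) (hCQ : 8 ≤ CQ)
    (hK : 100 ≤ K) (hES : ES = 6 * K ^ 2 * mu * s + 2 * CQ * mu ^ 2 * c) :
    X + (G * s + S * rr * c) + (eta * G * s + eta * S * c + ES * (G * s + S * c)) ≤
      20 * (K ^ 2 + CQ + C) * X := by
  have hmu0 : 0 < mu := by linarith
  have hX0 : 0 < X := by rw [hX]; positivity
  have hGX : G = mu * X := by rw [hX]; field_simp
  have hbT1 : bT ≤ 1 / 64 := by nlinarith
  have e1 : G * s = (mu * s) * X := by rw [hGX]; ring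
  have e2 : S * c = bT * ((mu ^ 2 * c) * X) := by rw [hS, hGX]; ring
  have f0 : 0 ≤ mu * s := by positivity
  have f1 : 0 ≤ mu ^ 2 * c := by positivity
  have g1 : G * s ≤ X := by
    rw [e1]
    nlinarith
  have g2' : (mu ^ 2 * c) * X ≤ X := by nlinarith
  have g2 : S * c ≤ bT * X := by
    rw [e2]
    exact mul_le_mul_of_nonneg_left g2' hbT.le
  have g20 : 0 ≤ S * c := by rw [e2]; positivity
  have g10 : 0 ≤ G * s := by rw [e1]; positivity
  have g3 : S * c ≤ X / 64 := by nlinarith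
  have g4 : S * rr * c ≤ X / 32 := by
    have a1 : S * rr * c = rr * (S * c) := by ring
    have a2 : rr * (S * c) ≤ (2 * C) * (bT * X) := mul_le_mul hrr g2 g20 (by linarith)
    have a3 : (2 * C) * (bT * X) = (64 * C * bT) * X / 32 := by ring
    rw [a1]
    have a4 : (64 * C * bT) * X ≤ X := by nlinarith
    linarith
  have g5 : ES ≤ 6 * K ^ 2 + 2 * CQ := by
    have a1 : ES = 6 * K ^ 2 * (mu * s) + 2 * CQ * (mu ^ 2 * c) := by rw [hES]; ring
    have a2 : 6 * K ^ 2 * (mu * s) ≤ 6 * K ^ 2 := by nlinarith [sq_nonneg K]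
    have a3 : 2 * CQ * (mu ^ 2 * c) ≤ 2 * CQ := by nlinarith
    linarith
  have g6 : G * s + S * c ≤ 2 * X := by linarith
  have g7 : ES * (G * s + S * c) ≤ (6 * K ^ 2 + 2 * CQ) * (2 * X) :=
    mul_le_mul g5 g6 (by linarith) (by positivity)
  have g8 : eta * G * s + eta * S * c ≤ 2 * X := by
    have a1 : eta * G * s + eta * S * c = eta * (G * s + S * c) := by ring
    rw [a1]
    have a2 : eta * (G * s + S * c) ≤ 1 * (2 * X) := mul_le_mul heta g6 (by linarith) zero_le_one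
    linarith
  have g9 : 0 ≤ K ^ 2 * X := by positivity
  have g10 : 8 * X ≤ CQ * X := mul_le_mul_of_nonneg_right hCQ hX0.le
  have g11 : 0 ≤ C * X := by positivity
  nlinarith


theorem Par.upper_all (a : Par) (h : a.Good) (F : P → E)
    (hF : ∀ m p, ‖F p - a.fS m p‖ ≤ 1 / 2 * (a.G m / a.mu (m + 1))) (m : ℕ) (p q : P)
    (hp : |p.1| ≤ 1) (h1 : a.mu m * rho p q ≤ 1) :
    ‖F q - F p‖ ≤ 20 * (a.K ^ 2 + a.CQ + a.C) * (a.G m / a.mu m) := 
  by

  have hmu := a.one_le_mu h m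
  have hG := a.one_le_G h m
  have hmu0 : 0 < a.mu m := by linarith
  have hG0 : 0 < a.G m := by linarith
  have hs := ds_nonneg p q
  have hc : 0 ≤ |dc p q| := abs_nonneg _
  have hsq : 0 ≤ Real.sqrt |dc p q| := Real.sqrt_nonneg _
  have h2 : a.mu m * ds p q + a.mu m * Real.sqrt |dc p q| ≤ 1 := by
    have : a.mu m * rho p q = a.mu m * ds p q + a.mu m * Real.sqrt |dc p q| := by
      unfold rho
      ring
    rw [← this]
    exact h1
  have h3 : 0 ≤ a.mu m * ds p q := mul_nonneg hmu0.le hs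
  have h4 : 0 ≤ a.mu m * Real.sqrt |dc p q| := mul_nonneg hmu0.le hsq
  have h5 : a.mu m * ds p q ≤ 1 := by linarith
  have h6 : a.mu m * Real.sqrt |dc p q| ≤ 1 := by linarith
  have h7 : a.mu m ^ 2 * |dc p q| ≤ 1 := by
    have e1 : a.mu m ^ 2 * |dc p q| = (a.mu m * Real.sqrt |dc p q|) ^ 2 := by
      rw [mul_pow, Real.sq_sqrt hc]
    rw [e1]
    exact pow_le_one₀ h4 h6
  have hK := h.kK
  have hC := a.hC
  have hCQ := a.eight_le_CQ
  have hrr0 : 0 ≤ a.rr m p := a.hcs.le.trans (a.cs_le_rr m p)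
  have hS0 : 0 ≤ a.S m := by
    unfold Par.S
    have := h.bT0
    positivity
  have heta : a.eta ≤ 1 := by
    have := h.etadel
    have := h.del0
    have := a.hcs1
    have := h.eta0
    linarith
  have hmu1 : a.G m / a.mu (m + 1) ≤ a.G m / a.mu m := by
    refine div_le_div_of_nonneg_left hG0.le hmu0 ?_
    rw [a.mu_succ]
    have : (1 : ℝ) ≤ a.K ^ 4 := one_le_pow₀ (by linarith)
    nlinarith
  have hFq := hF m q
  have hFp := hF m p
  have hinv := a.inv_all h m p q hp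
  have hlin : ‖Par.lin (a.G m) (a.G m) (a.S m * a.rr m p) p q‖ ≤
      a.G m * ds p q + a.S m * a.rr m p * |dc p q| := by
    refine (upall_lin _ _ _ hG0.le hG0.le (mul_nonneg hS0 hrr0) p q).trans (le_of_eq ?_)
    unfold ds
    ring
  have hfS : ‖a.fS m q - a.fS m p‖ ≤
      a.errS m p q + (a.G m * ds p q + a.S m * a.rr m p * |dc p q|) := by
    have e1 : a.fS m q - a.fS m p = (a.fS m q - a.fS m p -
        a.FS m p (Par.lin (a.G m) (a.G m) (a.S m * a.rr m p) p q)) +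
        a.FS m p (Par.lin (a.G m) (a.G m) (a.S m * a.rr m p) p q) := by abel
    rw [e1]
    refine (norm_add_le _ _).trans (add_le_add hinv ?_)
    rw [a.FS_norm]
    exact hlin
  have htot : ‖F q - F p‖ ≤ a.G m / a.mu m +
      (a.errS m p q + (a.G m * ds p q + a.S m * a.rr m p * |dc p q|)) := by
    have e1 : F q - F p = (F q - a.fS m q) + (a.fS m q - a.fS m p) - (F p - a.fS m p) := by abel
    rw [e1]
    have n1 := norm_sub_le ((F q - a.fS m q) + (a.fS m q - a.fS m p)) (F p - a.fS m p)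
    have n2 := norm_add_le (F q - a.fS m q) (a.fS m q - a.fS m p)
    linarith
  have har := upall_arith (a.G m) (a.mu m) (ds p q) |dc p q| (a.S m) (a.rr m p)
    (a.G m / a.mu m) a.C a.K a.CQ a.eta a.bT (a.ES m p q) hG hmu hs hc rfl h5 h7 rfl h.bT0 hC
    h.bT3 hrr0 (a.rr_le m p) h.eta0 heta hCQ hK rfl
  have herr : a.errS m p q = a.eta * a.G m * ds p q + a.eta * a.S m * |dc p q|
    + a.ES m p q * (a.G m * ds p q + a.S m * |dc p q|) := rfl
  rw [herr] at htot
  linarith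

end Pool.Agent.Helper962.Heis
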